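import Pool.Statements.S00632
import Pool.Agent.helper43.SplitSyl

set_option autoImplicit false
open Pool Pool.MP_058405_al

namespace Pool.Agent.S00632

/-- The rational group algebra of the group `GG` of order 12288 = 2^12 * 3 is a product of full
matrix algebras over ℚ, but its Sylow 2-subgroups contain an element which is not conjugate
(in the Sylow subgroup) to its inverse. -/
theorem result :
    ¬ (∀ (G : Type) [Group G] [Finite G],
      (∃ (ι : Type) (_ : Fintype ι) (n : ι → ℕ),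
        Nonempty (MonoidAlgebra ℚ G ≃ₐ[ℚ] ((i : ι) → Matrix (Fin (n i)) (Fin (n i)) ℚ))) →
      ∀ P : Sylow 2 G,
        ∃ (ι : Type) (_ : Fintype ι) (n : ι → ℕ),
          Nonempty (MonoidAlgebra ℚ (↥(P : Subgroup G)) ≃ₐ[ℚ]
            ((i : ι) → Matrix (Fin (n i)) (Fin (n i)) ℚ))) := by
  intro hall
  obtain ⟨P, hP⟩ := IsPGroup.exists_le_sylow Pool.Agent.H43.S0_isPGroup
  have hx : Pool.Agent.H43.xG ∈ (P : Subgroup Pool.Agent.H43.GG) :=
    hP Pool.Agent.H43.xG_mem
  refine Pool.Agent.H43.not_split_of_nonreal (↥(P : Subgroup Pool.Agent.H43.GG))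
    ⟨Pool.Agent.H43.xG, hx⟩ ?_ (hall Pool.Agent.H43.GG Pool.Agent.H43.GG_split P)
  intro g hg
  refine Pool.Agent.H43.xG_not_conj g.1
    (Pool.Agent.H43.l_eq_zero P.isPGroup' hP g.1 g.2) ?_
  exact congrArg Subtype.val hg

end Pool.Agent.S00632
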