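import Pool.Statements.S01365
import Pool.Agent.helper47.HeisBad

set_option autoImplicit false
open Pool Pool.MP_48d723_al

namespace Pool.Agent.S01365

/-- There is a finite field F and finite sets of Lie identities defining varieties U, V over F such that the product variety UV, the join U∨V, or the commutator variety [U,V] cannot be defined by any finite set of identities. -/
theorem result :
    ∃ (F : Type) (_ : Field F) (_ : Fintype F) (A B : Finset (FreeLieAlgebra F ℕ)),
      (∀ C : Finset (FreeLieAlgebra F ℕ), ∃ (L : Type) (_ : LieRing L) (_ : LieAlgebra F L),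
        ¬ ((∃ I : LieIdeal F L,
              (∀ a ∈ A, ∀ φ : ℕ → I, FreeLieAlgebra.lift F φ a = 0) ∧
              (∀ b ∈ B, ∀ φ : ℕ → L ⧸ I, FreeLieAlgebra.lift F φ b = 0)) ↔
            (∀ c ∈ C, ∀ φ : ℕ → L, FreeLieAlgebra.lift F φ c = 0))) ∨
      (∀ C : Finset (FreeLieAlgebra F ℕ), ∃ (L : Type) (_ : LieRing L) (_ : LieAlgebra F L),
        ¬ ((∀ f : FreeLieAlgebra F ℕ,
              (∀ (M : Type) [LieRing M] [LieAlgebra F M],
                ((∀ a ∈ A, ∀ φ : ℕ → M, FreeLieAlgebra.lift F φ a = 0) ∨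
                 (∀ b ∈ B, ∀ φ : ℕ → M, FreeLieAlgebra.lift F φ b = 0)) →
                ∀ φ : ℕ → M, FreeLieAlgebra.lift F φ f = 0) →
              ∀ φ : ℕ → L, FreeLieAlgebra.lift F φ f = 0) ↔
            (∀ c ∈ C, ∀ φ : ℕ → L, FreeLieAlgebra.lift F φ c = 0))) ∨
      (∀ C : Finset (FreeLieAlgebra F ℕ), ∃ (L : Type) (_ : LieRing L) (_ : LieAlgebra F L),
        ¬ ((∀ u v : FreeLieAlgebra F ℕ,
              (∀ (M : Type) [LieRing M] [LieAlgebra F M],
                (∀ a ∈ A, ∀ φ : ℕ → M, FreeLieAlgebra.lift F φ a = 0) →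
                ∀ φ : ℕ → M, FreeLieAlgebra.lift F φ u = 0) →
              (∀ (M : Type) [LieRing M] [LieAlgebra F M],
                (∀ b ∈ B, ∀ φ : ℕ → M, FreeLieAlgebra.lift F φ b = 0) →
                ∀ φ : ℕ → M, FreeLieAlgebra.lift F φ v = 0) →
              ∀ φ ψ : ℕ → L, ⁅FreeLieAlgebra.lift F φ u, FreeLieAlgebra.lift F ψ v⁆ = 0) ↔
            (∀ c ∈ C, ∀ φ : ℕ → L, FreeLieAlgebra.lift F φ c = 0))) := by
  refine ⟨ZMod 2, inferInstance, inferInstance, {Pool.Agent.helper47.comm2},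
    {Pool.Agent.helper47.fid}, Or.inl ?_⟩
  intro C
  obtain ⟨L, i1, i2, h⟩ := Pool.Agent.helper47.main_of_chains
    (fun k => ⟨Pool.Agent.helper47.chain k, le_rfl, Pool.Agent.helper47.chain_bad k⟩) C
  refine ⟨L, i1, i2, fun h' => h ?_⟩
  simpa only [Finset.mem_singleton, forall_eq] using h'

end Pool.Agent.S01365
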