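import Pool.Statements.S01421
import Pool.Agent.helper46.CountPart.Final

set_option autoImplicit false
open Pointwise
open Pool Pool.MP_4f48ca_al

namespace Pool.Agent.S01421

/-- Every infinite group G splits into countably many disjoint pieces A_n so that, for each n, no subset F of G of cardinality less than ∣G∣ satisfies F·A_n·A_n⁻¹ = G. -/
theorem result :
    ∀ (G : Type) [Group G] [Infinite G],
      ∃ A : ℕ → Set G,
        (⋃ n, A n) = Set.univ ∧
        Pairwise (fun i j => Disjoint (A i) (A j)) ∧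
        ∀ n : ℕ, ¬ ∃ F : Set G,
          Cardinal.mk F < Cardinal.mk G ∧ F * (A n * (A n)⁻¹) = Set.univ := by
  intro G _ _
  obtain ⟨c, hc⟩ := Pool.Agent.CountPart.hasColouring G
  refine ⟨fun n => {w | c w = n}, ?_, ?_, ?_⟩
  · exact Set.eq_univ_of_forall fun w => Set.mem_iUnion.2 ⟨c w, rfl⟩
  · intro i j hij
    refine Set.disjoint_left.2 fun w hi hj => hij ?_
    exact (show c w = i from hi).symm.trans hj
  · rintro n ⟨F, hF, hU⟩
    obtain ⟨v, hv⟩ := hc n F hF
    have hvU : v ∈ F * ({w | c w = n} * ({w | c w = n} : Set G)⁻¹) := by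
      rw [hU]; trivial
    obtain ⟨f, hf, u, hu, rfl⟩ := Set.mem_mul.1 hvU
    obtain ⟨x, hx, y, hy, rfl⟩ := Set.mem_mul.1 hu
    refine hv f hf x y⁻¹ hx hy ?_
    rw [inv_inv]

end Pool.Agent.S01421
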