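import Pool.Statements.S01539
import Pool.Agent.helper90.DHI.AllF
import Pool.Agent.helper69.DHR.AllROU

set_option autoImplicit false
open Pool Pool.MP_5823cb_al

namespace Pool.Agent.S01539

/-- Lifts to ℝ of orientation-preserving C² circle diffeomorphisms, modulo integer translations, form a nontrivial group in which every non-identity element's conjugates generate everything, i.e. Diff²₊(S¹) is simple. -/
theorem result :
    (∃ f : CircleDeg1Liftˣ,
        ContDiff ℝ 2 ⇑(f : CircleDeg1Lift) ∧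
        ContDiff ℝ 2 ⇑((f⁻¹ : CircleDeg1Liftˣ) : CircleDeg1Lift) ∧
        ∀ n : ℤ, f ≠ CircleDeg1Lift.translate (Multiplicative.ofAdd (n : ℝ))) ∧
    ∀ f g : CircleDeg1Liftˣ,
      ContDiff ℝ 2 ⇑(f : CircleDeg1Lift) →
      ContDiff ℝ 2 ⇑((f⁻¹ : CircleDeg1Liftˣ) : CircleDeg1Lift) →
      ContDiff ℝ 2 ⇑(g : CircleDeg1Lift) →
      ContDiff ℝ 2 ⇑((g⁻¹ : CircleDeg1Liftˣ) : CircleDeg1Lift) →
      (∀ n : ℤ, f ≠ CircleDeg1Lift.translate (Multiplicative.ofAdd (n : ℝ))) →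
      g ∈ Subgroup.closure
        ({x : CircleDeg1Liftˣ | ∃ h : CircleDeg1Liftˣ,
            ContDiff ℝ 2 ⇑(h : CircleDeg1Lift) ∧
            ContDiff ℝ 2 ⇑((h⁻¹ : CircleDeg1Liftˣ) : CircleDeg1Lift) ∧
            x = h * f * h⁻¹} ∪
          Set.range (fun n : ℤ => CircleDeg1Lift.translate (Multiplicative.ofAdd (n : ℝ)))) := by
  exact Pool.Agent.helper90.DH.AllF_S Pool.Agent.helper90.DH.AllROU_ROU Pool.Agent.helper90.DH.AllROU_RLC
    Pool.Agent.helper90.DH.AllROU_RST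

end Pool.Agent.S01539
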