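import Pool.Statements.S01895
-- import your own Pool.Agent.* helpers here
import Pool.Agent.helper41.DMax.Main

set_option autoImplicit false
open Pool Pool.MP_72af47_al

namespace Pool.Agent.S01895

/-- For every c there is a finite 2-group in which every proper subgroup needs strictly fewer generators than the whole group (d-maximal), and whose nilpotency class exceeds c. -/
theorem result :
    ∀ c : ℕ, ∃ n : ℕ, ∃ P : Subgroup (Equiv.Perm (Fin n)),
      IsPGroup 2 P ∧
      (∀ H : Subgroup (Equiv.Perm (Fin n)), H < P →
        ∃ s : Finset (Equiv.Perm (Fin n)),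
          Subgroup.closure (↑s : Set (Equiv.Perm (Fin n))) = H ∧
          ∀ t : Finset (Equiv.Perm (Fin n)),
            Subgroup.closure (↑t : Set (Equiv.Perm (Fin n))) = P → s.card < t.card) ∧
      lowerCentralSeries P c ≠ ⊥ := by
  intro c
  exact Pool.Agent.H41.DMax.main c

end Pool.Agent.S01895
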