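import Pool.Statements.S02065
import Pool.Agent.helper53.HF.Main

set_option autoImplicit false
open Pool Pool.MP_7ea459_al

namespace Pool.Agent.S02065

/-- Let Q_r count isomorphism classes of hyperfields with r+1 elements that arise as a quotient K/G of a field by a multiplicative subgroup, and H_r count all such classes. Then Q_r/H_r tends to 0 as r → ∞. -/
theorem result :
    Filter.Tendsto
      (fun r : ℕ =>
        ((Set.ncard {C : Set ((Fin (r+1) → Fin (r+1) → Fin (r+1)) × (Fin (r+1) → Fin (r+1) → Set (Fin (r+1)))) |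
            ∃ p : (Fin (r+1) → Fin (r+1) → Fin (r+1)) × (Fin (r+1) → Fin (r+1) → Set (Fin (r+1))),
              (∃ (K : Type) (_ : Field K), ∃ G : Subgroup Kˣ, ∃ f : K → Fin (r+1),
                Function.Surjective f ∧ f 0 = 0 ∧
                (∀ x y : K, f x = f y ↔ ∃ g ∈ G, y = x * (g : K)) ∧
                (∀ x y : K, f (x * y) = p.1 (f x) (f y)) ∧
                (∀ x y : K, p.2 (f x) (f y) = {z | ∃ g ∈ G, ∃ h ∈ G, z = f (x * (g : K) + y * (h : K))})) ∧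
              C = {q | (∃ (K : Type) (_ : Field K), ∃ G : Subgroup Kˣ, ∃ f : K → Fin (r+1),
                Function.Surjective f ∧ f 0 = 0 ∧
                (∀ x y : K, f x = f y ↔ ∃ g ∈ G, y = x * (g : K)) ∧
                (∀ x y : K, f (x * y) = q.1 (f x) (f y)) ∧
                (∀ x y : K, q.2 (f x) (f y) = {z | ∃ g ∈ G, ∃ h ∈ G, z = f (x * (g : K) + y * (h : K))})) ∧
                (∃ e : Fin (r+1) ≃ Fin (r+1), ∀ a b, e (p.1 a b) = q.1 (e a) (e b) ∧ e '' p.2 a b = q.2 (e a) (e b))}} : ℕ) : ℝ) /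
        ((Set.ncard {C : Set ((Fin (r+1) → Fin (r+1) → Fin (r+1)) × (Fin (r+1) → Fin (r+1) → Set (Fin (r+1)))) |
            ∃ p : (Fin (r+1) → Fin (r+1) → Fin (r+1)) × (Fin (r+1) → Fin (r+1) → Set (Fin (r+1))),
              ((∃ u : Fin (r+1), u ≠ 0 ∧ ∀ a, p.1 u a = a) ∧
                (∀ a b, p.1 a b = p.1 b a) ∧
                (∀ a b c, p.1 (p.1 a b) c = p.1 a (p.1 b c)) ∧
                (∀ a, p.1 0 a = 0) ∧
                (∀ a b, a ≠ 0 → b ≠ 0 → p.1 a b ≠ 0) ∧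
                (∀ a, a ≠ 0 → ∃ b, ∀ c, p.1 (p.1 a b) c = c) ∧
                (∀ a b, (p.2 a b).Nonempty) ∧
                (∀ a b, p.2 a b = p.2 b a) ∧
                (∀ a b c, (⋃ x ∈ p.2 a b, p.2 x c) = ⋃ x ∈ p.2 b c, p.2 a x) ∧
                (∀ a, p.2 0 a = {a}) ∧
                (∀ a, ∃! b, (0 : Fin (r+1)) ∈ p.2 a b) ∧
                (∀ a b c d, a ∈ p.2 b c → (0 : Fin (r+1)) ∈ p.2 b d → c ∈ p.2 a d) ∧
                (∀ a b c, (fun x => p.1 a x) '' p.2 b c = p.2 (p.1 a b) (p.1 a c))) ∧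
              C = {q | ((∃ u : Fin (r+1), u ≠ 0 ∧ ∀ a, q.1 u a = a) ∧
                (∀ a b, q.1 a b = q.1 b a) ∧
                (∀ a b c, q.1 (q.1 a b) c = q.1 a (q.1 b c)) ∧
                (∀ a, q.1 0 a = 0) ∧
                (∀ a b, a ≠ 0 → b ≠ 0 → q.1 a b ≠ 0) ∧
                (∀ a, a ≠ 0 → ∃ b, ∀ c, q.1 (q.1 a b) c = c) ∧
                (∀ a b, (q.2 a b).Nonempty) ∧
                (∀ a b, q.2 a b = q.2 b a) ∧
                (∀ a b c, (⋃ x ∈ q.2 a b, q.2 x c) = ⋃ x ∈ q.2 b c, q.2 a x) ∧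
                (∀ a, q.2 0 a = {a}) ∧
                (∀ a, ∃! b, (0 : Fin (r+1)) ∈ q.2 a b) ∧
                (∀ a b c d, a ∈ q.2 b c → (0 : Fin (r+1)) ∈ q.2 b d → c ∈ q.2 a d) ∧
                (∀ a b c, (fun x => q.1 a x) '' q.2 b c = q.2 (q.1 a b) (q.1 a c))) ∧
                (∃ e : Fin (r+1) ≃ Fin (r+1), ∀ a b, e (p.1 a b) = q.1 (e a) (e b) ∧ e '' p.2 a b = q.2 (e a) (e b))}} : ℕ) : ℝ))
      Filter.atTop (nhds 0) := by
  exact Pool.Agent.helper53.HF.tendsto_flat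


end Pool.Agent.S02065
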