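import Pool.Statements.S02336
import Pool.Agent.H51.Stage

set_option autoImplicit false
open Classical
open Pool Pool.MP_947bdc_al

namespace Pool.Agent.S02336

/-- The negation of the preceding statement: There is a function f such that every finite p-group whose irreducible complex characters are all induced from linear characters of normal subgroups has derived length at most f(p). -/
theorem result :
    ¬ (∃ f : ℕ → ℕ, ∀ (p : ℕ), p.Prime → ∀ (P : Type) [Group P] [Fintype P],
      IsPGroup p P →
      (∀ V : FDRep ℂ P, CategoryTheory.Simple V →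
        ∃ N : Subgroup P, N.Normal ∧ ∃ lam : N →* ℂˣ, ∀ g : P,
          V.character g = (Nat.card N : ℂ)⁻¹ *
            ∑ x : P, (if h : x * g * x⁻¹ ∈ N then ((lam ⟨x * g * x⁻¹, h⟩ : ℂˣ) : ℂ) else 0)) →
      derivedSeries P (f p) = ⊥) := by
  rintro ⟨f, hf⟩
  have hp : Fact (Nat.Prime 3) := ⟨Nat.prime_three⟩
  obtain ⟨P, i1, i2, hP, hNM, hd⟩ := Pool.Agent.H51.exists_normally_monomial 3 le_rfl (f 3)
  exact hd (hf 3 Nat.prime_three P hP hNM)

end Pool.Agent.S02336
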