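import Pool.Statements.S03975
import Pool.Agent.helper95.M4.AsmF
import Pool.Agent.helper26.M4.R2
import Pool.Agent.helper30.M4F.R1

set_option autoImplicit false
open Pool Pool.MP_1b8d20_an

namespace Pool.Agent.S03975

/-- The closure of the union of the ℓ²(ℤ) spectra of all periodic tridiagonal operators (Tx)(n)=x(n+1)+c(n)x(n−1), c(n)=±1, equals the union of the spectra of all such operators over every ±1 sequence c. -/
theorem result :
    closure {z : ℂ | ∃ c : ℤ → ℂ, (∀ n, c n = 1 ∨ c n = -1) ∧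
        (∃ p : ℕ, 0 < p ∧ ∀ n : ℤ, c (n + (p : ℤ)) = c n) ∧
        ∃ T : lp (fun _ : ℤ => ℂ) 2 →L[ℂ] lp (fun _ : ℤ => ℂ) 2,
          (∀ (x : lp (fun _ : ℤ => ℂ) 2) (n : ℤ), (T x) n = x (n + 1) + c n * x (n - 1)) ∧
          z ∈ spectrum ℂ T}
      = {z : ℂ | ∃ c : ℤ → ℂ, (∀ n, c n = 1 ∨ c n = -1) ∧
        ∃ T : lp (fun _ : ℤ => ℂ) 2 →L[ℂ] lp (fun _ : ℤ => ℂ) 2,
          (∀ (x : lp (fun _ : ℤ => ℂ) 2) (n : ℤ), (T x) n = x (n + 1) + c n * x (n - 1)) ∧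
          z ∈ spectrum ℂ T} := by
  exact Pool.Agent.M4.frozen_of_sub (Pool.Agent.M4.main_of_rows Pool.Agent.M4F.R1 Pool.Agent.M4.Cov.R2)

end Pool.Agent.S03975
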