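import Pool.Statements.S04054
import Pool.Agent.helper31.EllipticCex

set_option autoImplicit false
open Pool Pool.MP_22f2dc_an

namespace Pool.Agent.S04054

/-- The negation of the preceding statement: Take nonconstant C1 weak solutions u, v of div(A grad u)=0 on a connected open set in R^n, n≥2, with A symmetric, uniformly elliptic and Lipschitz. If u vanishes on a connected smooth hypersurface S and v on a nonempty open proper piece of S, then v vanishes on all of S. -/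
theorem result :
    ¬ (∀ (n : ℕ), 2 ≤ n →
  ∀ (Ω : Set (EuclideanSpace ℝ (Fin n))), IsOpen Ω → IsConnected Ω →
  ∀ (A : EuclideanSpace ℝ (Fin n) → Matrix (Fin n) (Fin n) ℝ) (K E : ℝ), 0 < K →
    (∀ x ∈ Ω, ∀ i j, A x i j = A x j i) →
    (∀ x ∈ Ω, ∀ ξ : EuclideanSpace ℝ (Fin n),
        K⁻¹ * ‖ξ‖ ^ 2 ≤ ∑ i, ∑ j, A x i j * ξ i * ξ j ∧
        ∑ i, ∑ j, A x i j * ξ i * ξ j ≤ K * ‖ξ‖ ^ 2) →
    (∀ x ∈ Ω, ∀ y ∈ Ω, ∀ i j, |A x i j - A y i j| ≤ E * dist x y) →
  ∀ (u v : EuclideanSpace ℝ (Fin n) → ℝ),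
    ContDiffOn ℝ 1 u Ω → ContDiffOn ℝ 1 v Ω →
    (¬ ∃ c : ℝ, ∀ x ∈ Ω, u x = c) →
    (¬ ∃ c : ℝ, ∀ x ∈ Ω, v x = c) →
    (∀ φ : EuclideanSpace ℝ (Fin n) → ℝ,
        ContDiff ℝ ((⊤ : ℕ∞) : WithTop ℕ∞) φ → HasCompactSupport φ → tsupport φ ⊆ Ω →
        ∫ x, ∑ i, ∑ j, A x i j * fderiv ℝ u x (EuclideanSpace.single j 1)
            * fderiv ℝ φ x (EuclideanSpace.single i 1) = 0) →
    (∀ φ : EuclideanSpace ℝ (Fin n) → ℝ,
        ContDiff ℝ ((⊤ : ℕ∞) : WithTop ℕ∞) φ → HasCompactSupport φ → tsupport φ ⊆ Ω →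
        ∫ x, ∑ i, ∑ j, A x i j * fderiv ℝ v x (EuclideanSpace.single j 1)
            * fderiv ℝ φ x (EuclideanSpace.single i 1) = 0) →
  ∀ (S Sig : Set (EuclideanSpace ℝ (Fin n))),
    S ⊆ Ω → IsConnected S →
    (∀ p ∈ S, ∃ (U : Set (EuclideanSpace ℝ (Fin n))) (f : EuclideanSpace ℝ (Fin n) → ℝ),
        IsOpen U ∧ p ∈ U ∧ ContDiff ℝ ((⊤ : ℕ∞) : WithTop ℕ∞) f ∧
        (∀ x ∈ U, fderiv ℝ f x ≠ 0) ∧ S ∩ U = {x | x ∈ U ∧ f x = 0}) →
    Sig ⊆ S → Sig.Nonempty → Sig ≠ S →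
    (∃ O : Set (EuclideanSpace ℝ (Fin n)), IsOpen O ∧ Sig = S ∩ O) →
    (∀ x ∈ S, u x = 0) →
    (∀ x ∈ Sig, v x = 0) →
    ∀ x ∈ S, v x = 0) := by
  intro H
  open Pool.Agent.helper31.EllipticCex in
  have key := H 2 le_rfl Om isOpen_Om isConnected_Om A 2 16 (by norm_num)
    (fun x _ i j => A_symm x i j) (fun x hx ξ => A_elliptic hx ξ)
    (fun x hx y hy i j => A_lip hx hy i j)
    (fun q => q 1) v (co 1).contDiff.contDiffOn contDiff_v.contDiffOn
    (by
      rintro ⟨c, hc⟩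
      have h1 := hc 0 (by simp [Om])
      have h2 := hc (EuclideanSpace.single 1 (1 / 8)) (by
        simp only [Om, Metric.mem_ball, dist_zero_right, PiLp.norm_single]
        rw [Real.norm_eq_abs, abs_of_pos] <;> norm_num)
      simp at h1 h2
      rw [← h1] at h2
      norm_num at h2)
    (by
      rintro ⟨c, hc⟩
      have h1 := hc 0 (by simp [Om])
      have h2 := hc (EuclideanSpace.single 0 (-1 / 8))
        (pt_mem (t := -1 / 8) (by rw [abs_lt]; constructor <;> norm_num)).1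
      have h3 : v (0 : P) = 0 := by simp [v]
      rw [v_neg (by norm_num)] at h2
      rw [h3] at h1
      rw [← h1] at h2
      norm_num at h2)
    (fun φ h1 h2 _ => weak_u φ h1 h2)
    (fun φ h1 h2 h3 => weak_v φ h1 h2 h3)
    S Sig (fun p hp => hp.1) isConnected_S
    (by
      intro p hp
      refine ⟨Om, fun q => q 1, isOpen_Om, hp.1, (co 1).contDiff, ?_, ?_⟩
      · intro x _ h
        have h1 := congrArg (fun L => L (EuclideanSpace.single 1 (1 : ℝ))) h
        simp only [(hasFDerivAt_co 1 x).fderiv] at h1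
        simp at h1
      · ext q
        constructor
        · rintro ⟨h1, h2⟩
          exact ⟨h2, h1.2⟩
        · rintro ⟨h1, h2⟩
          exact ⟨⟨h1, h2⟩, h1⟩)
    (fun p hp => hp.1)
    ⟨EuclideanSpace.single 0 (1 / 8),
      pt_mem (by rw [abs_lt]; constructor <;> norm_num), by simp⟩
    (by
      intro h
      have h1 : (EuclideanSpace.single 0 (-1 / 8) : P) ∈ S :=
        pt_mem (by rw [abs_lt]; constructor <;> norm_num)
      rw [← h] at h1
      have h2 := h1.2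
      simp at h2
      norm_num at h2)
    ⟨{p | 0 < p 0}, isOpen_lt continuous_const (co 0).continuous, by
      ext p; simp [Sig]⟩
    (fun p hp => hp.2)
    (fun p hp => v_zero_of hp.2 hp.1.2)
    (EuclideanSpace.single 0 (-1 / 8))
    (pt_mem (by rw [abs_lt]; constructor <;> norm_num))
  open Pool.Agent.helper31.EllipticCex in
  rw [v_neg (by norm_num)] at key
  norm_num at key

end Pool.Agent.S04054
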