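import Pool.Statements.S04502
import Pool.Agent.helper41.Cubic.Kill

set_option autoImplicit false
open Pool Pool.MP_43750c_an

namespace Pool.Agent.S04502

open Function Pool.Agent.helper41.Cubic

/-- The negation of the preceding statement: For every smooth metric on the torus, given by a periodic positive-definite cometric, if its geodesic flow has a nonzero cubic-in-momenta smooth integral, then it has a nonzero linear-in-momenta integral, i.e. a nonzero Killing vector field. -/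
theorem result :
    ¬ (∀ a b c : ℝ → ℝ → ℝ,
    ContDiff ℝ ((⊤ : ℕ∞) : WithTop ℕ∞) (Function.uncurry a) →
    ContDiff ℝ ((⊤ : ℕ∞) : WithTop ℕ∞) (Function.uncurry b) →
    ContDiff ℝ ((⊤ : ℕ∞) : WithTop ℕ∞) (Function.uncurry c) →
    (∀ x y : ℝ, a (x + 1) y = a x y ∧ a x (y + 1) = a x y) →
    (∀ x y : ℝ, b (x + 1) y = b x y ∧ b x (y + 1) = b x y) →
    (∀ x y : ℝ, c (x + 1) y = c x y ∧ c x (y + 1) = c x y) →
    (∀ x y : ℝ, 0 < a x y ∧ 0 < a x y * c x y - b x y ^ 2) →
    (∃ A B C D : ℝ → ℝ → ℝ,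
      ContDiff ℝ ((⊤ : ℕ∞) : WithTop ℕ∞) (Function.uncurry A) ∧
      ContDiff ℝ ((⊤ : ℕ∞) : WithTop ℕ∞) (Function.uncurry B) ∧
      ContDiff ℝ ((⊤ : ℕ∞) : WithTop ℕ∞) (Function.uncurry C) ∧
      ContDiff ℝ ((⊤ : ℕ∞) : WithTop ℕ∞) (Function.uncurry D) ∧
      (∀ x y : ℝ, A (x + 1) y = A x y ∧ A x (y + 1) = A x y) ∧
      (∀ x y : ℝ, B (x + 1) y = B x y ∧ B x (y + 1) = B x y) ∧
      (∀ x y : ℝ, C (x + 1) y = C x y ∧ C x (y + 1) = C x y) ∧
      (∀ x y : ℝ, D (x + 1) y = D x y ∧ D x (y + 1) = D x y) ∧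
      (∃ x y : ℝ, A x y ≠ 0 ∨ B x y ≠ 0 ∨ C x y ≠ 0 ∨ D x y ≠ 0) ∧
      ∀ x y p q : ℝ,
        (2 * a x y * p + 2 * b x y * q) *
            deriv (fun t => A t y * p ^ 3 + B t y * p ^ 2 * q + C t y * p * q ^ 2 + D t y * q ^ 3) x
          + (2 * b x y * p + 2 * c x y * q) *
            deriv (fun t => A x t * p ^ 3 + B x t * p ^ 2 * q + C x t * p * q ^ 2 + D x t * q ^ 3) y
          - deriv (fun t => a t y * p ^ 2 + 2 * b t y * p * q + c t y * q ^ 2) x *
            (3 * A x y * p ^ 2 + 2 * B x y * p * q + C x y * q ^ 2)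
          - deriv (fun t => a x t * p ^ 2 + 2 * b x t * p * q + c x t * q ^ 2) y *
            (B x y * p ^ 2 + 2 * C x y * p * q + 3 * D x y * q ^ 2) = 0) →
    ∃ X Y : ℝ → ℝ → ℝ,
      ContDiff ℝ ((⊤ : ℕ∞) : WithTop ℕ∞) (Function.uncurry X) ∧
      ContDiff ℝ ((⊤ : ℕ∞) : WithTop ℕ∞) (Function.uncurry Y) ∧
      (∀ x y : ℝ, X (x + 1) y = X x y ∧ X x (y + 1) = X x y) ∧
      (∀ x y : ℝ, Y (x + 1) y = Y x y ∧ Y x (y + 1) = Y x y) ∧
      (∃ x y : ℝ, X x y ≠ 0 ∨ Y x y ≠ 0) ∧
      ∀ x y p q : ℝ,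
        (2 * a x y * p + 2 * b x y * q) * deriv (fun t => X t y * p + Y t y * q) x
          + (2 * b x y * p + 2 * c x y * q) * deriv (fun t => X x t * p + Y x t * q) y
          - deriv (fun t => a t y * p ^ 2 + 2 * b t y * p * q + c t y * q ^ 2) x * X x y
          - deriv (fun t => a x t * p ^ 2 + 2 * b x t * p * q + c x t * q ^ 2) y * Y x y = 0) := by
  intro H
  obtain ⟨g, hg⟩ := exists_slope
  have cE : ContDiff ℝ ((⊤ : ℕ∞) : WithTop ℕ∞) (EF g) :=
    contDiff_iff_contDiffAt.2 fun z => (good_EF hg z).1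
  set K : ℝ → ℝ → ℝ := fun x y => (EF g (x, y)).1 with hK
  set M : ℝ → ℝ → ℝ := fun x y => (EF g (x, y)).2.1 with hM
  set N : ℝ → ℝ → ℝ := fun x y => (EF g (x, y)).2.2 with hN
  have cK : ContDiff ℝ ((⊤ : ℕ∞) : WithTop ℕ∞) (uncurry K) := contDiff_fst.comp cE
  have cM : ContDiff ℝ ((⊤ : ℕ∞) : WithTop ℕ∞) (uncurry M) :=
    contDiff_fst.comp (contDiff_snd.comp cE)
  have cN : ContDiff ℝ ((⊤ : ℕ∞) : WithTop ℕ∞) (uncurry N) :=
    contDiff_snd.comp (contDiff_snd.comp cE)
  have K1 : ∀ x y, HasDerivAt (fun t => K t y) (D1 K x y) x :=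
    deriv_fst_of_contDiff top_ne_zero' cK
  have K2 : ∀ x y, HasDerivAt (fun t => K x t) (D2 K x y) y :=
    deriv_snd_of_contDiff top_ne_zero' cK
  have M1 : ∀ x y, HasDerivAt (fun t => M t y) (D1 M x y) x :=
    deriv_fst_of_contDiff top_ne_zero' cM
  have M2 : ∀ x y, HasDerivAt (fun t => M x t) (D2 M x y) y :=
    deriv_snd_of_contDiff top_ne_zero' cM
  have N1 : ∀ x y, HasDerivAt (fun t => N t y) (D1 N x y) x :=
    deriv_fst_of_contDiff top_ne_zero' cN
  have N2 : ∀ x y, HasDerivAt (fun t => N x t) (D2 N x y) y :=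
    deriv_snd_of_contDiff top_ne_zero' cN
  have hd : ∀ z, HasFDerivAt (EF g) (fderiv ℝ (EF g) z) z := fun z =>
    (cE.differentiable (by simp) z).hasFDerivAt
  have pK : ∀ x y : ℝ, K (x + 1) y = K x y ∧ K x (y + 1) = K x y := fun x y =>
    ⟨by simp only [hK, EF_add_fst], by simp only [hK, EF_add_snd]⟩
  have pM : ∀ x y : ℝ, M (x + 1) y = M x y ∧ M x (y + 1) = M x y := fun x y =>
    ⟨by simp only [hM, EF_add_fst], by simp only [hM, EF_add_snd]⟩
  have pN : ∀ x y : ℝ, N (x + 1) y = N x y ∧ N x (y + 1) = N x y := fun x y =>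
    ⟨by simp only [hN, EF_add_fst], by simp only [hN, EF_add_snd]⟩
  have Kpos : ∀ x y, 0 < K x y := fun x y => EF_pos hg (x, y)
  -- identification of derivatives
  have fK : ∀ z, fderiv ℝ (uncurry K) z = (ContinuousLinearMap.fst ℝ ℝ (ℝ × ℝ)).comp
      (fderiv ℝ (EF g) z) := fun z =>
    ((ContinuousLinearMap.fst ℝ ℝ (ℝ × ℝ)).hasFDerivAt.comp z (hd z)).fderiv
  have fM : ∀ z, fderiv ℝ (uncurry M) z = ((ContinuousLinearMap.fst ℝ ℝ ℝ).comp
      (ContinuousLinearMap.snd ℝ ℝ (ℝ × ℝ))).comp (fderiv ℝ (EF g) z) := fun z =>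
    (((ContinuousLinearMap.fst ℝ ℝ ℝ).comp
      (ContinuousLinearMap.snd ℝ ℝ (ℝ × ℝ))).hasFDerivAt.comp z (hd z)).fderiv
  have fN : ∀ z, fderiv ℝ (uncurry N) z = ((ContinuousLinearMap.snd ℝ ℝ ℝ).comp
      (ContinuousLinearMap.snd ℝ ℝ (ℝ × ℝ))).comp (fderiv ℝ (EF g) z) := fun z =>
    (((ContinuousLinearMap.snd ℝ ℝ ℝ).comp
      (ContinuousLinearMap.snd ℝ ℝ (ℝ × ℝ))).hasFDerivAt.comp z (hd z)).fderiv
  have pde : ∀ x y p q : ℝ,
      K x y * ((2 * p - q) * (D1 M x y * p + D1 N x y * q) +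
        (2 * q - p) * (D2 M x y * p + D2 N x y * q)) -
      D1 K x y * ((2 * p * q - q ^ 2) + M x y * (p ^ 2 - p * q + q ^ 2) +
        (M x y * p + N x y * q) * (2 * p - q)) -
      D2 K x y * ((p ^ 2 - 2 * p * q) + N x y * (p ^ 2 - p * q + q ^ 2) +
        (M x y * p + N x y * q) * (2 * q - p)) = 0 := by
    intro x y p q
    have h := (good_EF hg (x, y)).2 p q
    have a1 : D1 K x y = (fderiv ℝ (EF g) (x, y) (1, 0)).1 := by
      unfold D1; rw [fK]; rfl
    have a2 : D2 K x y = (fderiv ℝ (EF g) (x, y) (0, 1)).1 := by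
      unfold D2; rw [fK]; rfl
    have a3 : D1 M x y = (fderiv ℝ (EF g) (x, y) (1, 0)).2.1 := by
      unfold D1; rw [fM]; rfl
    have a4 : D2 M x y = (fderiv ℝ (EF g) (x, y) (0, 1)).2.1 := by
      unfold D2; rw [fM]; rfl
    have a5 : D1 N x y = (fderiv ℝ (EF g) (x, y) (1, 0)).2.2 := by
      unfold D1; rw [fN]; rfl
    have a6 : D2 N x y = (fderiv ℝ (EF g) (x, y) (0, 1)).2.2 := by
      unfold D2; rw [fN]; rfl
    rw [a1, a2, a3, a4, a5, a6]
    exact h
  -- derivative of the cometric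
  have dH1 : ∀ x y p q : ℝ, deriv (fun t => K t y * p ^ 2 + 2 * (-(1 / 2) * K t y) * p * q +
      K t y * q ^ 2) x = D1 K x y * (p ^ 2 - p * q + q ^ 2) := by
    intro x y p q
    have h := (K1 x y).mul_const (p ^ 2 - p * q + q ^ 2)
    rw [← h.deriv]
    congr 1
    funext t; ring
  have dH2 : ∀ x y p q : ℝ, deriv (fun t => K x t * p ^ 2 + 2 * (-(1 / 2) * K x t) * p * q +
      K x t * q ^ 2) y = D2 K x y * (p ^ 2 - p * q + q ^ 2) := by
    intro x y p q
    have h := (K2 x y).mul_const (p ^ 2 - p * q + q ^ 2)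
    rw [← h.deriv]
    congr 1
    funext t; ring
  have dF1 : ∀ x y p q : ℝ, deriv (fun t => M t y * p ^ 3 + (1 - M t y + N t y) * p ^ 2 * q +
      (-1 + M t y - N t y) * p * q ^ 2 + N t y * q ^ 3) x =
      (D1 M x y * p + D1 N x y * q) * (p ^ 2 - p * q + q ^ 2) := by
    intro x y p q
    have h := ((((M1 x y).mul_const p).add ((N1 x y).mul_const q)).mul_const
      (p ^ 2 - p * q + q ^ 2)).add_const (p ^ 2 * q - p * q ^ 2)
    rw [← h.deriv]
    congr 1
    funext t; simp only [Pi.add_apply]; ring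
  have dF2 : ∀ x y p q : ℝ, deriv (fun t => M x t * p ^ 3 + (1 - M x t + N x t) * p ^ 2 * q +
      (-1 + M x t - N x t) * p * q ^ 2 + N x t * q ^ 3) y =
      (D2 M x y * p + D2 N x y * q) * (p ^ 2 - p * q + q ^ 2) := by
    intro x y p q
    have h := ((((M2 x y).mul_const p).add ((N2 x y).mul_const q)).mul_const
      (p ^ 2 - p * q + q ^ 2)).add_const (p ^ 2 * q - p * q ^ 2)
    rw [← h.deriv]
    congr 1
    funext t; simp only [Pi.add_apply]; ring
  obtain ⟨X, Y, cX, cY, pX, pY, hne, hXY⟩ := H K (fun x y => -(1 / 2) * K x y) K cK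
    (contDiff_const.mul cK) cK pK (fun x y => by simp only [(pK x y).1, (pK x y).2, and_self]) pK
    (fun x y => ⟨Kpos x y, by nlinarith [mul_pos (Kpos x y) (Kpos x y)]⟩)
    ⟨M, fun x y => 1 - M x y + N x y, fun x y => -1 + M x y - N x y, N, cM,
      (contDiff_const.sub cM).add cN, (contDiff_const.add cM).sub cN, cN, pM,
      (fun x y => by simp only [(pM x y).1, (pM x y).2, (pN x y).1, (pN x y).2, and_self]),
      (fun x y => by simp only [(pM x y).1, (pM x y).2, (pN x y).1, (pN x y).2, and_self]), pN,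
      ⟨0, 0, by
        by_contra hcon
        simp only [not_or, not_not] at hcon
        obtain ⟨h1, h2, h3, h4⟩ := hcon
        rw [h1, h4] at h2
        norm_num at h2⟩, by
        intro x y p q
        rw [dF1, dF2, dH1, dH2]
        linear_combination (p ^ 2 - p * q + q ^ 2) * pde x y p q⟩
  -- the linear integral
  have X1 : ∀ x y, HasDerivAt (fun t => X t y) (D1 X x y) x :=
    deriv_fst_of_contDiff top_ne_zero' cX
  have X2 : ∀ x y, HasDerivAt (fun t => X x t) (D2 X x y) y :=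
    deriv_snd_of_contDiff top_ne_zero' cX
  have Y1 : ∀ x y, HasDerivAt (fun t => Y t y) (D1 Y x y) x :=
    deriv_fst_of_contDiff top_ne_zero' cY
  have Y2 : ∀ x y, HasDerivAt (fun t => Y x t) (D2 Y x y) y :=
    deriv_snd_of_contDiff top_ne_zero' cY
  have lin : ∀ x y p q : ℝ, K x y * ((2 * p - q) * (D1 X x y * p + D1 Y x y * q) +
      (2 * q - p) * (D2 X x y * p + D2 Y x y * q)) -
      (p ^ 2 - p * q + q ^ 2) * (D1 K x y * X x y + D2 K x y * Y x y) = 0 := by
    intro x y p q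
    have h := hXY x y p q
    rw [dH1, dH2] at h
    have e1 : deriv (fun t => X t y * p + Y t y * q) x = D1 X x y * p + D1 Y x y * q :=
      (((X1 x y).mul_const p).add ((Y1 x y).mul_const q)).deriv
    have e2 : deriv (fun t => X x t * p + Y x t * q) y = D2 X x y * p + D2 Y x y * q :=
      (((X2 x y).mul_const p).add ((Y2 x y).mul_const q)).deriv
    rw [e1, e2] at h
    linear_combination h
  have cr : ∀ x y, D2 Y x y = D1 X x y + D1 Y x y ∧ D2 X x y = - D1 Y x y := by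
    intro x y
    have l1 := lin x y 1 0
    have l2 := lin x y 0 1
    have l3 := lin x y 1 1
    have hk := (Kpos x y).ne'
    have m1 : K x y * (2 * D1 X x y - D2 X x y + D1 Y x y - 2 * D2 Y x y) = 0 := by
      linear_combination l1 - l2
    have m2 : K x y * (D1 X x y - 2 * D2 X x y - D1 Y x y - D2 Y x y) = 0 := by
      linear_combination l1 - l3
    have n1 := (mul_eq_zero.mp m1).resolve_left hk
    have n2 := (mul_eq_zero.mp m2).resolve_left hk
    constructor <;> linarith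
  have hconst := const_of_cr cX cY pX pY (fun x y => (cr x y).1) (fun x y => (cr x y).2)
  set c1 := X 0 0 with hc1
  set c2 := Y 0 0 with hc2
  have hzero : ∀ x y, c1 * D1 K x y + c2 * D2 K x y = 0 := by
    intro x y
    have dx : D1 X x y = 0 := by
      have : HasDerivAt (fun t => X t y) 0 x := by
        have e : (fun t => X t y) = fun _ => c1 := by funext t; exact (hconst t y).1
        rw [e]; exact hasDerivAt_const _ _
      exact (X1 x y).unique this
    have dx2 : D2 X x y = 0 := by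
      have : HasDerivAt (fun t => X x t) 0 y := by
        have e : (fun t => X x t) = fun _ => c1 := by funext t; exact (hconst x t).1
        rw [e]; exact hasDerivAt_const _ _
      exact (X2 x y).unique this
    have h := lin x y 1 0
    rw [dx, dx2, (hconst x y).1, (hconst x y).2] at h
    linear_combination -h
  have z2 : c2 = 0 := beam_lemma hg K1 K2 (fun x y hx hy => (EF_beam hg hx hy).1) hzero
  have z1 : c1 = 0 := by
    refine beam_lemma hg (u := fun x y => K y x) (u1 := fun x y => D2 K y x)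
      (u2 := fun x y => D1 K y x) (c1 := c2) (c2 := c1) (fun x y => K2 y x) (fun x y => K1 y x)
      (fun x y hx hy => (EF_beam hg hx hy).2) ?_
    intro x y
    linear_combination hzero y x
  obtain ⟨x, y, h | h⟩ := hne
  · exact h (by rw [(hconst x y).1]; exact z1)
  · exact h (by rw [(hconst x y).2]; exact z2)

end Pool.Agent.S04502
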