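import Pool.Statements.S04693
import Pool.Agent.helper34.PiBase

set_option autoImplicit false
open Pool Pool.MP_53fbd4_an

namespace Pool.Agent.S04693

/-- For every real Banach space with a 1-unconditional basis, the closed unit ball in the relative weak topology has a countable family of nonempty relatively open sets such that every nonempty relatively open subset of the ball contains one of them. -/
theorem result :
    ∀ (X : Type) [NormedAddCommGroup X] [NormedSpace ℝ X] [CompleteSpace X] (e : ℕ → X),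
      (∀ x : X, ∃! a : ℕ → ℝ, HasSum (fun n => a n • e n) x) →
      (∀ (s : Finset ℕ) (a ε : ℕ → ℝ), (∀ n, ε n = 1 ∨ ε n = -1) →
          ‖∑ n ∈ s, (ε n * a n) • e n‖ ≤ ‖∑ n ∈ s, a n • e n‖) →
      ∃ U : ℕ → Set (WeakSpace ℝ X),
        (∀ n, IsOpen (U n) ∧
            (U n ∩ (toWeakSpace ℝ X) '' Metric.closedBall (0 : X) 1).Nonempty) ∧
        ∀ V : Set (WeakSpace ℝ X), IsOpen V →
          (V ∩ (toWeakSpace ℝ X) '' Metric.closedBall (0 : X) 1).Nonempty →
            ∃ n, U n ∩ (toWeakSpace ℝ X) '' Metric.closedBall (0 : X) 1 ⊆ V := by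
  intro X _ _ _ e hb hu
  have hu' : Pool.Agent.helper34.PiBase.Unc e := hu
  -- the countable family of rational boxes
  let box : ℕ × ℕ × (ℕ →₀ ℚ) → Set (WeakSpace ℝ X) := fun p =>
    {x | ∀ n < p.1, |Pool.Agent.helper34.PiBase.coefL hb hu' n ((toWeakSpace ℝ X).symm x)
      - (p.2.2 n : ℝ)| < 1 / ((p.2.1 : ℝ) + 1)}
  have hboxopen : ∀ p, IsOpen (box p) := by
    intro p
    have h1 : box p = ⋂ n ∈ Finset.range p.1,
        {x | |Pool.Agent.helper34.PiBase.coefL hb hu' n ((toWeakSpace ℝ X).symm x)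
          - (p.2.2 n : ℝ)| < 1 / ((p.2.1 : ℝ) + 1)} := by
      ext x
      simp [box]
    rw [h1]
    refine isOpen_biInter_finset (fun n _ => ?_)
    have hc : Continuous (fun x : WeakSpace ℝ X =>
        Pool.Agent.helper34.PiBase.coefL hb hu' n ((toWeakSpace ℝ X).symm x)) :=
      WeakBilin.eval_continuous (topDualPairing ℝ X).flip
        (Pool.Agent.helper34.PiBase.coefL hb hu' n)
    exact isOpen_lt ((hc.sub continuous_const).abs) continuous_const
  set B : Set (WeakSpace ℝ X) := (toWeakSpace ℝ X) '' Metric.closedBall (0 : X) 1 with hB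
  let S : Set (ℕ × ℕ × (ℕ →₀ ℚ)) := {p | (box p ∩ B).Nonempty}
  have hSne : S.Nonempty := by
    refine ⟨(0, 0, 0), ?_⟩
    refine ⟨toWeakSpace ℝ X 0, ?_, 0, by simp, rfl⟩
    intro n hn
    exact absurd hn (Nat.not_lt_zero n)
  obtain ⟨g, hg⟩ := (Set.to_countable S).exists_eq_range hSne
  refine ⟨fun n => box (g n), ?_, ?_⟩
  · intro n
    refine ⟨hboxopen _, ?_⟩
    have : g n ∈ S := by rw [hg]; exact ⟨n, rfl⟩
    exact this
  · intro V hV hVne
    obtain ⟨w0, hw0V, x₀, hx₀, rfl⟩ := hVne
    rw [mem_closedBall_zero_iff] at hx₀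
    -- basic neighbourhood
    obtain ⟨O, hO, hOV⟩ := isOpen_induced_iff.mp hV
    have hmem : (fun f : StrongDual ℝ X => f x₀) ∈ O := by
      have h := hw0V
      rw [← hOV] at h
      exact h
    obtain ⟨I, u, hu1, hu2⟩ := isOpen_pi_iff.mp hO _ hmem
    -- common radius
    obtain ⟨ε, hε, hεu⟩ : ∃ ε > 0, ∀ f ∈ I, ∀ t : ℝ, |t - f x₀| < ε → t ∈ u f := by
      classical
      have h1 : ∀ f ∈ I, ∃ ε > 0, Metric.ball (f x₀) ε ⊆ u f := by
        intro f hf
        exact Metric.isOpen_iff.mp (hu1 f hf).1 _ (hu1 f hf).2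
      choose! ε hε1 hε2 using h1
      rcases I.eq_empty_or_nonempty with h | h
      · exact ⟨1, one_pos, by simp [h]⟩
      · obtain ⟨f₀, hf₀, hmin⟩ := I.exists_min_image ε h
        refine ⟨ε f₀, hε1 f₀ hf₀, ?_⟩
        intro f hf t ht
        apply hε2 f hf
        rw [Metric.mem_ball, Real.dist_eq]
        exact ht.trans_le (hmin f hf)
    obtain ⟨a, N, r, ha1, hr, hbox⟩ :=
      Pool.Agent.helper34.PiBase.exists_box hb hu' I (fun f : StrongDual ℝ X => f) x₀ hx₀ ε hε
    -- rational approximation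
    obtain ⟨m, hm⟩ := exists_nat_one_div_lt (show 0 < r / 2 by positivity)
    have hq : ∀ n, ∃ q : ℚ, |a n - (q : ℝ)| < 1 / ((m : ℝ) + 1) := by
      intro n
      obtain ⟨q, hq1, hq2⟩ := exists_rat_btwn
        (show a n - 1 / ((m : ℝ) + 1) < a n by
          have : (0 : ℝ) < 1 / ((m : ℝ) + 1) := by positivity
          linarith)
      refine ⟨q, ?_⟩
      rw [abs_lt]
      constructor <;> linarith [show (0 : ℝ) < 1 / ((m : ℝ) + 1) by positivity]
    choose q hq using hq
    let Q : ℕ →₀ ℚ := Finsupp.onFinset (Finset.range N) (fun n => if n < N then q n else 0)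
      (by intro n hn; by_contra h; rw [Finset.mem_range] at h; simp [h] at hn)
    have hQ : ∀ n < N, Q n = q n := by
      intro n hn
      simp [Q, hn]
    have hpS : (N, m, Q) ∈ S := by
      refine ⟨toWeakSpace ℝ X (Pool.Agent.helper34.PiBase.E e a), ?_, _, ?_, rfl⟩
      · intro n hn
        simp only at hn
        rw [LinearEquiv.symm_apply_apply, Pool.Agent.helper34.PiBase.coefL_apply,
          Pool.Agent.helper34.PiBase.coef_E]
        simp only
        rw [hQ n hn]
        exact hq n
      · rw [mem_closedBall_zero_iff]; exact ha1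
    obtain ⟨k, hk⟩ : (N, m, Q) ∈ Set.range g := by rw [← hg]; exact hpS
    refine ⟨k, ?_⟩
    simp only [hk]
    rintro _ ⟨hx1, y, hy, rfl⟩
    rw [mem_closedBall_zero_iff] at hy
    have hclose : ∀ n < N, |Pool.Agent.helper34.PiBase.coef hb y n - a n| < r := by
      intro n hn
      have h1 := hx1 n hn
      rw [LinearEquiv.symm_apply_apply, Pool.Agent.helper34.PiBase.coefL_apply] at h1
      simp only at h1
      rw [hQ n hn] at h1
      have h2 := hq n
      calc _ ≤ |Pool.Agent.helper34.PiBase.coef hb y n - (q n : ℝ)| + |(q n : ℝ) - a n| :=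
            abs_sub_le _ _ _
        _ < r := by rw [abs_sub_comm (q n : ℝ)]; linarith
    have h3 := hbox y hy hclose
    rw [← hOV]
    change (fun f : StrongDual ℝ X => f y) ∈ O
    apply hu2
    intro f hf
    apply hεu f hf
    have := h3 f hf
    rwa [map_sub] at this

end Pool.Agent.S04693
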