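import Pool.Statements.S04706
import Pool.Agent.helper35.HardyNoUncond

set_option autoImplicit false
open scoped ENNReal
open Pool Pool.MP_552283_an

namespace Pool.Agent.S04706

/-- The negation of the preceding statement: For every p with 1<p<∞, p≠2, the Hardy space H^p of the infinite torus (L^p functions with no negative Fourier modes, equivalent to H^p of Dirichlet series) has a sequence e such that every element has a unique unconditionally convergent expansion in e. -/
theorem result :
    ¬ (∀ (p : ℝ≥0∞) [Fact (1 ≤ p)], 1 < p → p ≠ ⊤ → p ≠ 2 →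
      ∃ e : ℕ → MeasureTheory.Lp ℂ p
          (MeasureTheory.Measure.infinitePi
            (fun _ : ℕ => (AddCircle.haarAddCircle : MeasureTheory.Measure (AddCircle (1 : ℝ))))),
        (∀ n, ∀ α : ℕ →₀ ℤ, (∃ i, α i < 0) →
          ∫ ω, (e n : (ℕ → AddCircle (1 : ℝ)) → ℂ) ω *
              ∏ i ∈ α.support, fourier (-(α i)) (ω i)
            ∂(MeasureTheory.Measure.infinitePi
              (fun _ : ℕ => (AddCircle.haarAddCircle : MeasureTheory.Measure (AddCircle (1 : ℝ))))) = 0) ∧
        ∀ f : MeasureTheory.Lp ℂ p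
            (MeasureTheory.Measure.infinitePi
              (fun _ : ℕ => (AddCircle.haarAddCircle : MeasureTheory.Measure (AddCircle (1 : ℝ))))),
          (∀ α : ℕ →₀ ℤ, (∃ i, α i < 0) →
            ∫ ω, (f : (ℕ → AddCircle (1 : ℝ)) → ℂ) ω *
                ∏ i ∈ α.support, fourier (-(α i)) (ω i)
              ∂(MeasureTheory.Measure.infinitePi
                (fun _ : ℕ => (AddCircle.haarAddCircle : MeasureTheory.Measure (AddCircle (1 : ℝ))))) = 0) →
          ∃! c : ℕ → ℂ, HasSum (fun n => c n • e n) f) := by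
  intro hall
  have hfact : Fact ((1 : ℝ≥0∞) ≤ 5600) := ⟨by norm_num⟩
  have hptop : (5600 : ℝ≥0∞) ≠ ⊤ := by norm_num
  obtain ⟨e, he, hbasis⟩ := hall 5600 (by norm_num) hptop (by norm_num)
  have he' : ∀ n, e n ∈ Helper35.hardy 5600 hptop := fun n =>
    (Helper35.mem_hardy hptop (e n)).mpr (he n)
  refine Helper35.no_uncond_basis (p := 5600) hptop le_rfl (fun n => ⟨e n, he' n⟩) ?_
  intro x
  obtain ⟨c, hc, huniq⟩ := hbasis x.1 ((Helper35.mem_hardy hptop x.1).mp x.2)
  have hiff : ∀ d : ℕ → ℂ, HasSum (fun n => d n • (⟨e n, he' n⟩ : Helper35.hardy 5600 hptop)) x ↔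
      HasSum (fun n => d n • e n) x.1 := by
    intro d
    exact (Topology.IsInducing.subtypeVal.hasSum_iff
      (g := (Helper35.hardy 5600 hptop).subtype)
      (fun n => d n • (⟨e n, he' n⟩ : Helper35.hardy 5600 hptop)) x).symm
  exact ⟨c, (hiff c).mpr hc, fun d hd => huniq d ((hiff d).mp hd)⟩

end Pool.Agent.S04706
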