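import Pool.Statements.S05002
import Pool.Agent.helper36.RFinal

set_option autoImplicit false
open MeasureTheory
open Pool Pool.MP_6fecbe_an

namespace Pool.Agent.S05002

/-- The negation of the preceding statement: In dimension d≥2, for bounded mean-zero Ω on the sphere and b in BMO, there is C such that for every A₂ weight w with constant at most A, the principal-value commutator [b,T_Ω] satisfies ‖[b,T_Ω]f‖_{L²(w)} ≤ C·A²·‖f‖_{L²(w)} for bounded compactly supported f. -/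
theorem result :
    ¬ (∀ (d : ℕ), 2 ≤ d →
  ∀ (Ω : EuclideanSpace ℝ (Fin d) → ℝ), Measurable Ω → (∃ M : ℝ, ∀ y, |Ω y| ≤ M) →
    (∫ y in {y : EuclideanSpace ℝ (Fin d) | 1 < ‖y‖ ∧ ‖y‖ < 2}, Ω (‖y‖⁻¹ • y)) = 0 →
  ∀ (b : EuclideanSpace ℝ (Fin d) → ℝ), MeasureTheory.LocallyIntegrable b MeasureTheory.volume →
    (∃ M : ℝ, ∀ (x : EuclideanSpace ℝ (Fin d)) (r : ℝ), 0 < r →
      (⨍ y in Metric.ball x r, |b y - ⨍ z in Metric.ball x r, b z|) ≤ M) →
  ∃ C : ℝ, ∀ (w : EuclideanSpace ℝ (Fin d) → ℝ) (A : ℝ),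
    MeasureTheory.LocallyIntegrable w MeasureTheory.volume →
    MeasureTheory.LocallyIntegrable (fun x => (w x)⁻¹) MeasureTheory.volume →
    (∀ᵐ x ∂MeasureTheory.volume, 0 < w x) →
    (∀ (x : EuclideanSpace ℝ (Fin d)) (r : ℝ), 0 < r →
      (⨍ y in Metric.ball x r, w y) * (⨍ y in Metric.ball x r, (w y)⁻¹) ≤ A) →
    ∀ (f g : EuclideanSpace ℝ (Fin d) → ℝ), Measurable f → HasCompactSupport f →
      (∃ K : ℝ, ∀ x, |f x| ≤ K) →
      (∀ᵐ x ∂MeasureTheory.volume, Filter.Tendsto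
        (fun ε : ℝ => ∫ y in {y : EuclideanSpace ℝ (Fin d) | ε < dist x y},
          (b x - b y) * (Ω (‖x - y‖⁻¹ • (x - y)) / ‖x - y‖ ^ d) * f y)
        (nhdsWithin 0 (Set.Ioi 0)) (nhds (g x))) →
      ∫⁻ x, ENNReal.ofReal ((g x) ^ 2 * w x)
        ≤ ENNReal.ofReal (C * A ^ 4) * ∫⁻ x, ENNReal.ofReal ((f x) ^ 2 * w x)) := by
  intro h
  obtain ⟨C, hC⟩ := h 2 le_rfl helper36.R.Om helper36.R.Om_meas helper36.R.Om_bounded
    helper36.R.Om_mean_zero helper36.R.b helper36.R.b_locallyIntegrable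
    ⟨24, fun x r hr => helper36.R.b_bmo x hr⟩
  -- choose the configuration
  obtain ⟨n, hn⟩ := exists_nat_gt (C * 83521 ^ 4)
  have h1 := hC (helper36.R.ww n) (helper36.R.AA n) (helper36.R.ww_locallyIntegrable n)
    (helper36.R.ww_inv_locallyIntegrable n)
    (Filter.Eventually.of_forall (helper36.R.ww_pos n))
    (fun x r hr => helper36.R.ww_A2 n x hr)
    (helper36.R.ff n) (helper36.R.gg n) (helper36.R.ff_meas n) (helper36.R.ff_compact n)
    ⟨1, fun x => by
      unfold helper36.R.ff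
      rw [abs_of_nonneg (helper36.R.ind_nonneg _ _)]
      exact helper36.R.ind_le_one _ _⟩
    (Filter.Eventually.of_forall (helper36.R.pv_tendsto n))
  have h2 := helper36.R.final_numeric n C h1
  have h3 : (n : ℝ) ≤ (helper36.R.mm n : ℝ) ^ 4 := by
    have := helper36.R.M_ge n
    have h4 : n ≤ (helper36.R.mm n) ^ 4 := by omega
    exact_mod_cast h4
  linarith

end Pool.Agent.S05002
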