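import Pool.Statements.S05015
import Pool.Agent.helper71.AL.Final
import Pool.Agent.helper71.AL.Basis

set_option autoImplicit false
open Pool Pool.MP_70ce06_an

namespace Pool.Agent.S05015

/-- For every real Banach space with a Schauder basis: if all sequences in its n-th asymptotic structure have Banach–Mazur distance to ℓ₁ⁿ bounded by a uniform K, then they are all uniformly equivalent to the unit vector basis of ℓ₁ⁿ. -/
theorem result :
  ∀ (X : Type) [NormedAddCommGroup X] [NormedSpace ℝ X] [CompleteSpace X] (e : ℕ → X),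
    (∀ x : X, ∃! c : ℕ → ℝ,
      Filter.Tendsto (fun m => ∑ i ∈ Finset.range m, c i • e i) Filter.atTop (nhds x)) →
    ∀ S : (n : ℕ) → ((Fin n → ℝ) → ℝ) → Prop,
    (∀ (n : ℕ) (N : (Fin n → ℝ) → ℝ), S n N ↔
      ((∀ a b : Fin n → ℝ, N (a + b) ≤ N a + N b) ∧
       (∀ (c : ℝ) (a : Fin n → ℝ), N (c • a) = |c| * N a) ∧
       (∀ a : Fin n → ℝ, N a = 0 → a = 0) ∧
       (∀ i : Fin n, N (Pi.single i (1 : ℝ)) = 1) ∧
       ∀ ε : ℝ, 0 < ε → ∃ f : (Fin n → ℕ) → Fin n → X,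
         (∀ k k' : Fin n → ℕ, ∀ i : Fin n, (∀ j : Fin n, j ≤ i → k j = k' j) → f k i = f k' i) ∧
         (∀ (k : Fin n → ℕ) (i : Fin n), ‖f k i‖ = 1 ∧
            f k i ∈ closure ((Submodule.span ℝ (e '' Set.Ici (k i)) : Submodule ℝ X) : Set X)) ∧
         ∀ k : Fin n → ℕ, ∃ A B : ℝ, 0 < A ∧ 0 < B ∧ A * B ≤ 1 + ε ∧
           ∀ a : Fin n → ℝ, N a ≤ A * ‖∑ i, a i • f k i‖ ∧ ‖∑ i, a i • f k i‖ ≤ B * N a)) →
    (∃ K : ℝ, ∀ (n : ℕ) (N : (Fin n → ℝ) → ℝ), S n N →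
      ∃ T : (Fin n → ℝ) ≃ₗ[ℝ] (Fin n → ℝ), ∃ A B : ℝ, 0 < A ∧ 0 < B ∧ A * B ≤ K ∧
        ∀ a : Fin n → ℝ, N a ≤ A * ∑ i, |T a i| ∧ ∑ i, |T a i| ≤ B * N a) →
    ∃ K : ℝ, ∀ (n : ℕ) (N : (Fin n → ℝ) → ℝ), S n N →
      ∃ A B : ℝ, 0 < A ∧ 0 < B ∧ A * B ≤ K ∧
        ∀ a : Fin n → ℝ, N a ≤ A * ∑ i, |a i| ∧ ∑ i, |a i| ≤ B * N a := by
  intro X _ _ _ e he S hS hK0
  obtain ⟨K0, hK0⟩ := hK0
  obtain ⟨C, Pr, hC1, hPb, hPl, hPz⟩ := Pool.Agent.helper71.AL.exists_proj e he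
  have hPr : Pool.Agent.helper71.AL.Proj (Pool.Agent.helper71.AL.Tl e) C Pr :=
    { one_le := hC1
      bound := hPb
      lim := hPl
      zero := hPz
      anti := Pool.Agent.helper71.AL.Tl_anti e }
  have hSA : ∀ (n : ℕ) (N : (Fin n → ℝ) → ℝ),
      S n N ↔ Pool.Agent.helper71.AL.Asy (Pool.Agent.helper71.AL.Tl e) n N := by
    intro n N
    rw [hS]
    unfold Pool.Agent.helper71.AL.Asy
    refine and_congr Iff.rfl (and_congr Iff.rfl (and_congr Iff.rfl (and_congr Iff.rfl ?_)))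
    refine forall_congr' fun ε => forall_congr' fun _ => exists_congr fun f => ?_
    constructor
    · rintro ⟨h1, h2, h3⟩
      exact ⟨⟨h1, fun k i => (h2 k i).1, fun k i => (h2 k i).2⟩, h3⟩
    · rintro ⟨h1, h3⟩
      exact ⟨h1.dep, fun k i => ⟨h1.norm_eq k i, h1.mem k i⟩, h3⟩
  set K : ℝ := max K0 1 with hK
  have hK1 : 1 ≤ K := le_max_right _ _
  have H : ∀ (J : ℕ) (N : (Fin J → ℝ) → ℝ),
      Pool.Agent.helper71.AL.Asy (Pool.Agent.helper71.AL.Tl e) J N →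
        Pool.Agent.helper71.AL.Iso K N := by
    intro J N hN
    obtain ⟨T, A, B, hA, hB, hAB, hT⟩ := hK0 J N ((hSA J N).2 hN)
    exact ⟨T, A, B, hA, hB, hAB.trans (le_max_left _ _), hT⟩
  set D : ℝ := 2400 * ((16 * K ^ 3) * (8 * C * (16 * K ^ 3) ^ 3 * K ^ 3)) ^ 2 * K ^ 2 with hD
  obtain ⟨m, hm⟩ := exists_nat_gt D
  have hD0 : 0 ≤ D := by positivity
  have hm0 : (0 : ℝ) < m := lt_of_le_of_lt hD0 hm
  have hd : 0 < m ^ 2 := by
    have : 0 < m := by exact_mod_cast hm0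
    positivity
  have key : ∀ (n : ℕ) (N : (Fin n → ℝ) → ℝ), S n N → ∀ a : Fin n → ℝ,
      ∑ i, |a i| ≤ 8 * (m : ℝ) ^ 2 * N a := by
    intro n N hN a
    by_contra hcon
    push Not at hcon
    have hN' := (hSA n N).1 hN
    obtain ⟨hadd, hsm, hz, hone, hstr⟩ := hN'
    have hN0 : ∀ a, 0 ≤ N a := by
      intro a
      have h1 := hadd a ((-1 : ℝ) • a)
      have h2 := hsm (-1) a
      have h3 := hsm 0 a
      rw [zero_smul, abs_zero, zero_mul] at h3
      rw [h2, neg_one_smul, add_neg_cancel, h3] at h1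
      norm_num at h1
      linarith
    have hs0 : 0 < ∑ i, |a i| := lt_of_le_of_lt (mul_nonneg (by positivity) (hN0 a)) hcon
    have hn : 0 < n := by
      rcases Nat.eq_zero_or_pos n with h | h
      · subst h
        simp at hs0
      · exact h
    obtain ⟨f, hf, hfk⟩ := hstr 1 one_pos
    set s : ℝ := ∑ i, |a i| with hs
    have ha1 : ∑ i, |(s⁻¹ • a) i| = 1 := by
      simp only [Pi.smul_apply, smul_eq_mul, abs_mul, ← Finset.mul_sum]
      rw [abs_of_pos (inv_pos.2 hs0), ← hs, inv_mul_cancel₀ hs0.ne']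
    have hNa : N (s⁻¹ • a) ≤ 1 / (8 * (m : ℝ) ^ 2) := by
      rw [hsm, abs_of_pos (inv_pos.2 hs0), inv_mul_le_iff₀ hs0, mul_one_div,
        le_div_iff₀ (by positivity)]
      linarith
    have hEa : Pool.Agent.helper71.AL.EE f (s⁻¹ • a) ≤ 1 / (2 * ((m ^ 2 : ℕ) : ℝ)) := by
      have h1 := Pool.Agent.helper71.AL.EE_le hf (v := s⁻¹ • a)
        (B := 2 * (1 / (8 * (m : ℝ) ^ 2))) (by
        intro k
        obtain ⟨A, B, hA, hB, hAB, hk⟩ := hfk k
        have h2 := (hk (Pi.single ⟨0, hn⟩ 1)).1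
        rw [hone, Finset.sum_eq_single ⟨0, hn⟩, Pi.single_eq_same, one_smul, hf.norm_eq,
          mul_one] at h2
        · have h3 : B ≤ 2 := by nlinarith
          have h4 := (hk (s⁻¹ • a)).2
          have h5 := hN0 (s⁻¹ • a)
          calc _ ≤ B * N (s⁻¹ • a) := h4
            _ ≤ 2 * (1 / (8 * (m : ℝ) ^ 2)) := by
              apply mul_le_mul h3 hNa h5 (by norm_num)
        · intro i _ hi
          rw [Pi.single_eq_of_ne hi, zero_smul]
        · intro h; exact absurd (Finset.mem_univ _) h)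
      refine h1.trans (le_of_eq ?_)
      push_cast
      field_simp
      norm_num
    have hfin := Pool.Agent.helper71.AL.final_bound H hK1 hf hPr hn (s⁻¹ • a) ha1 hd hEa
    rw [← hD] at hfin
    push_cast at hfin
    rw [Real.sqrt_sq hm0.le] at hfin
    linarith
  refine ⟨8 * (m : ℝ) ^ 2, fun n N hN => ⟨1, 8 * (m : ℝ) ^ 2, one_pos, by positivity, by simp,
    fun a => ⟨?_, key n N hN a⟩⟩⟩
  obtain ⟨hadd, hsm, hz, hone, hstr⟩ := (hSA n N).1 hN
  have h1 : ∀ s : Finset (Fin n), N (∑ i ∈ s, a i • (Pi.single i (1 : ℝ) : Fin n → ℝ)) ≤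
      ∑ i ∈ s, |a i| := by
    intro s
    induction s using Finset.induction_on with
    | empty =>
      have h3 := hsm 0 0
      rw [zero_smul, abs_zero, zero_mul] at h3
      simp [h3]
    | insert i s hi ih =>
      rw [Finset.sum_insert hi, Finset.sum_insert hi]
      refine (hadd _ _).trans ?_
      rw [hsm, hone, mul_one]
      linarith
  have h2 : a = ∑ i, a i • (Pi.single i (1 : ℝ) : Fin n → ℝ) := by
    funext j
    rw [Finset.sum_apply, Finset.sum_eq_single j]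
    · simp
    · intro i _ hi
      simp [Ne.symm hi]
    · intro h; exact absurd (Finset.mem_univ _) h
  rw [one_mul]
  conv_lhs => rw [h2]
  exact h1 _

end Pool.Agent.S05015
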