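import Pool.Statements.S05212
import Pool.Agent.helper38.NullSeriesMeasure

set_option autoImplicit false
open Real
open Pool Pool.MP_807847_an

namespace Pool.Agent.S05212

open Finset Filter Topology
open Pool.Agent.helper38.NullSeries

theorem partial_sum_eq (α : ℕ → ℝ) (h0 : α 0 = 0) (f : ℤ → ℂ) (c : ℕ → ℝ)
    (hf : ∀ n : ℕ, f n + f (-(n:ℤ)) = ((2 * c n : ℝ) : ℂ)) (N : ℕ) :
    ∑ n ∈ Finset.Icc (-(N : ℤ)) (N : ℤ), ((α n.natAbs : ℝ) : ℂ) * f n =
      ((2 * ∑ n ∈ Finset.range (N + 1), α n * c n : ℝ) : ℂ) := by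
  induction N with
  | zero => simp [h0]
  | succ N ih =>
    have h1 : Finset.Icc (-((N + 1 : ℕ) : ℤ)) ((N + 1 : ℕ) : ℤ) =
        insert (-((N + 1 : ℕ) : ℤ)) (insert ((N + 1 : ℕ) : ℤ) (Finset.Icc (-(N : ℤ)) (N : ℤ))) := by
      ext x
      simp only [Finset.mem_Icc, Finset.mem_insert]
      push_cast
      omega
    rw [h1, Finset.sum_insert, Finset.sum_insert, ih, Finset.sum_range_succ _ (N + 1)]
    · have h2 := hf (N + 1)
      have h3 : (-((N + 1 : ℕ) : ℤ)).natAbs = N + 1 := by omega
      have h4 : (((N + 1 : ℕ) : ℤ)).natAbs = N + 1 := by omega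
      rw [h3, h4, ← add_assoc, ← mul_add, add_comm (f _) (f _), h2]
      push_cast
      ring
    · simp
    · simp only [Finset.mem_insert, Finset.mem_Icc]
      push_cast
      omega

/-- The negation of the preceding statement: If a_n → 0, the symmetric partial sums of ∑ a_n e^{int} tend to 0 on a closed set F of the circle, and μ is a finite positive measure carried by F with ∑∣μ̂(n)∣∣a_{-n}∣ finite, then ∑ μ̂(n) a_{-n} = 0. -/
theorem result :
    ¬ (∀ (a : ℤ → ℂ) (F : Set (AddCircle (2 * π))) (μ : MeasureTheory.Measure (AddCircle (2 * π))),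
      Filter.Tendsto a Filter.cofinite (nhds 0) →
      IsClosed F →
      (∀ t ∈ F, Filter.Tendsto
        (fun N : ℕ => ∑ n ∈ Finset.Icc (-(N : ℤ)) (N : ℤ), a n * fourier n t)
        Filter.atTop (nhds 0)) →
      MeasureTheory.IsFiniteMeasure μ →
      μ Fᶜ = 0 →
      Summable (fun n : ℤ => ‖∫ t, fourier (-n) t ∂μ‖ * ‖a (-n)‖) →
      ∑' n : ℤ, (∫ t, fourier (-n) t ∂μ) * a (-n) = 0) := by
  intro H
  obtain ⟨α, hα0, hαt, hsum0, hsumj, hsummable, hne⟩ := main_sequence
  have key := H (fun n => ((α n.natAbs : ℝ) : ℂ)) FF mu ?_ FF_closed ?_ inferInstance mu_compl ?_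
  · -- contradiction
    apply hne
    have hterm : ∀ n : ℤ, (∫ t, (fourier (-n) t : ℂ) ∂mu) * ((α (-n).natAbs : ℝ) : ℂ) =
        ((2 * (α n.natAbs * mm n.natAbs) : ℝ) : ℂ) := by
      intro n
      rw [integral_mu, Int.natAbs_neg]
      push_cast; ring
    have hs : Summable (fun n : ℕ => α n * mm n) := by
      apply Summable.of_norm
      refine hsummable.congr (fun n => ?_)
      rw [Real.norm_eq_abs, abs_mul]
    have hs2 : Summable (fun n : ℤ => (2 * (α n.natAbs * mm n.natAbs) : ℝ)) := by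
      apply Summable.of_nat_of_neg
      · simpa using hs.mul_left 2
      · simpa using hs.mul_left 2
    have h1 : ∑' n : ℤ, (2 * (α n.natAbs * mm n.natAbs) : ℝ) = 0 := by
      have h2 : ∑' n : ℤ, (((2 * (α n.natAbs * mm n.natAbs) : ℝ)) : ℂ) = 0 := by
        rw [← key]
        exact tsum_congr (fun n => (hterm n).symm)
      rw [← Complex.ofReal_tsum] at h2
      exact_mod_cast h2
    have h3 := hs2.hasSum.nat_add_neg
    rw [h1] at h3
    have h4 : HasSum (fun n : ℕ => 4 * (α n * mm n)) 0 := by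
      have h5 : (fun n : ℕ => (2 * (α ((n:ℤ)).natAbs * mm ((n:ℤ)).natAbs) : ℝ) +
          (2 * (α ((-(n:ℤ))).natAbs * mm ((-(n:ℤ))).natAbs) : ℝ)) =
          fun n : ℕ => 4 * (α n * mm n) := by
        funext n
        rw [Int.natAbs_neg, Int.natAbs_natCast]; ring
      rw [h5] at h3
      simpa [hα0] using h3
    have h5 := (hs.hasSum.mul_left 4).unique h4
    linarith
  · -- coefficients tend to zero
    have h1 : Filter.Tendsto Int.natAbs Filter.cofinite Filter.atTop := by
      rw [← Nat.cofinite_eq_atTop]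
      apply Filter.Tendsto.cofinite_of_finite_preimage_singleton
      intro b
      apply Set.Finite.subset (Set.finite_Icc (-(b:ℤ)) b)
      intro x hx
      simp only [Set.mem_preimage, Set.mem_singleton_iff] at hx
      rw [Set.mem_Icc]
      omega
    have h2 := hαt.comp h1
    have h3 := (Complex.continuous_ofReal.tendsto 0).comp h2
    rw [Complex.ofReal_zero] at h3
    exact h3
  · -- pointwise convergence
    have hgen : ∀ (t : AddCircle (2 * π)) (c : ℕ → ℝ),
        (∀ n : ℕ, (fourier (n:ℤ) t : ℂ) + fourier (-(n:ℤ)) t = ((2 * c n : ℝ) : ℂ)) →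
        Tendsto (fun N => ∑ n ∈ range N, α n * c n) atTop (𝓝 0) →
        Filter.Tendsto (fun N : ℕ => ∑ n ∈ Finset.Icc (-(N : ℤ)) (N : ℤ),
          ((α n.natAbs : ℝ) : ℂ) * fourier n t) Filter.atTop (nhds 0) := by
      intro t c hc hlim
      have h1 : (fun N : ℕ => ∑ n ∈ Finset.Icc (-(N : ℤ)) (N : ℤ),
          ((α n.natAbs : ℝ) : ℂ) * fourier n t) =
          fun N : ℕ => ((2 * ∑ n ∈ Finset.range (N + 1), α n * c n : ℝ) : ℂ) := by
        funext N
        exact partial_sum_eq α hα0 (fun n => fourier n t) c hc N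
      rw [h1]
      have h2 := ((hlim.comp (tendsto_add_atTop_nat 1)).const_mul 2)
      have h3 := (Complex.continuous_ofReal.tendsto _).comp h2
      simpa [Function.comp_def] using h3
    intro t ht
    have hcase : t = 0 ∨ (∃ j, t = TT j) ∨ (∃ j, t = - TT j) := by
      rcases ht with h | h
      · rcases h with h | ⟨j, hj⟩
        · exact Or.inl h
        · exact Or.inr (Or.inl ⟨j, hj.symm⟩)
      · rcases h with h | ⟨j, hj⟩
        · exact Or.inl h
        · exact Or.inr (Or.inr ⟨j, hj.symm⟩)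
    rcases hcase with rfl | ⟨j, rfl⟩ | ⟨j, rfl⟩
    · apply hgen 0 (fun _ => 1)
      · intro n
        rw [fourier_eval_zero, fourier_eval_zero]; norm_num
      · simpa using hsum0
    · apply hgen (TT j) (fun n => Real.cos (n * tt j))
      · intro n
        have h1 := fourier_add_TT (n:ℤ) j
        have h2 : (fourier (-(n:ℤ)) (TT j) : ℂ) = fourier (n:ℤ) (- TT j) := by
          rw [fourier_TT, fourier_neg_TT]; congr 1; push_cast; ring
        rw [h2, h1]; push_cast; rfl
      · exact hsumj j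
    · apply hgen (- TT j) (fun n => Real.cos (n * tt j))
      · intro n
        have h1 := fourier_add_TT (n:ℤ) j
        have h2 : (fourier (-(n:ℤ)) (- TT j) : ℂ) = fourier (n:ℤ) (TT j) := by
          rw [fourier_TT, fourier_neg_TT]; congr 1; push_cast; ring
        rw [h2, add_comm, h1]; push_cast; rfl
      · exact hsumj j
  · -- summability
    have hterm : ∀ n : ℤ, ‖∫ t, (fourier (-n) t : ℂ) ∂mu‖ * ‖((α (-n).natAbs : ℝ) : ℂ)‖ =
        2 * (|α n.natAbs| * |mm n.natAbs|) := by
      intro n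
      rw [integral_mu, Int.natAbs_neg, Complex.norm_real, Complex.norm_real, Real.norm_eq_abs,
        Real.norm_eq_abs, abs_mul, abs_of_pos (by norm_num : (0:ℝ) < 2)]
      ring
    have h1 : (fun n : ℤ => ‖∫ t, (fourier (-n) t : ℂ) ∂mu‖ * ‖((α (-n).natAbs : ℝ) : ℂ)‖) =
        fun n : ℤ => 2 * (|α n.natAbs| * |mm n.natAbs|) := funext hterm
    have h2 : Summable (fun n : ℤ => 2 * (|α n.natAbs| * |mm n.natAbs|)) := by
      apply Summable.of_nat_of_neg
      · simpa using hsummable.mul_left 2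
      · simpa using hsummable.mul_left 2
    rw [← h1] at h2
    exact h2

end Pool.Agent.S05212
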