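import Pool.Statements.S05334
import Pool.Agent.helper17.Disc.F

set_option autoImplicit false
open Pool Pool.MP_8bf294_an

namespace Pool.Agent.S05334

/-- The negation of the preceding statement: For all d,r ≥ 1 there is C>0 such that for every m ≥ 1, any m points in [0,1]^d and real weights, some t in [0,1]^d makes ∣Σ w_μ Π_j (t_j−ξ_j)_+^{r−1}/(r−1)! − Π_j t_j^r/r!∣ at least C (log m)^{d−1}/m^r. -/
theorem result :
    ¬ (∀ d r : ℕ, 1 ≤ d → 1 ≤ r →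
      ∃ C : ℝ, 0 < C ∧
        ∀ m : ℕ, 1 ≤ m →
          ∀ ξ : Fin m → Fin d → ℝ, (∀ μ j, ξ μ j ∈ Set.Icc (0:ℝ) 1) →
            ∀ w : Fin m → ℝ,
              ∃ t : Fin d → ℝ, (∀ j, t j ∈ Set.Icc (0:ℝ) 1) ∧
                C * (Real.log (m:ℝ)) ^ (d - 1) / (m:ℝ) ^ r ≤
                  |(∑ μ : Fin m, w μ * ∏ j : Fin d,
                      (if ξ μ j < t j then (t j - ξ μ j) ^ (r - 1) / ((r - 1).factorial : ℝ) else 0))
                    - ∏ j : Fin d, (t j ^ r / (r.factorial : ℝ))|) := by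
  intro h
  obtain ⟨C, hC, h⟩ := h 3 1 (by norm_num) le_rfl
  -- a large prime
  obtain ⟨b, hb, hlog⟩ : ∃ b : ℕ, b.Prime ∧ 22 / C + 1 ≤ Real.log b := by
    have h1 := (Real.tendsto_log_atTop.comp
      (tendsto_natCast_atTop_atTop (R := ℝ))).eventually_ge_atTop (22 / C + 1)
    obtain ⟨N, hN⟩ := Filter.eventually_atTop.1 h1
    obtain ⟨b, hb1, hb2⟩ := Nat.exists_infinite_primes N
    exact ⟨b, hb2, hN b hb1⟩
  set n : ℕ := b ^ 5 with hn
  obtain ⟨p, hp1, -, hp3⟩ := Pool.Agent.helper82.Disc.core3 b hb n le_rfl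
  have hb0 : 0 < b := hb.pos
  have hn0 : (0 : ℝ) < n := by
    rw [hn]
    exact_mod_cast Nat.pow_pos hb0
  have hm1 : 1 ≤ b ^ n := Nat.one_le_pow _ _ hb0
  have hM : (0 : ℝ) < (b : ℝ) ^ n := by positivity
  obtain ⟨t, ht, h4⟩ := h (b ^ n) hm1 p (fun μ j => ⟨(hp1 μ j).1, (hp1 μ j).2.le⟩)
    (fun _ => 1 / (b : ℝ) ^ n)
  have h5 := hp3 t ht
  have h6 : (∑ μ : Fin (b ^ n), (1 / (b : ℝ) ^ n) * ∏ j : Fin 3,
      (if p μ j < t j then (t j - p μ j) ^ (1 - 1) / (((1 - 1 : ℕ)).factorial : ℝ) else 0)) =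
      (1 / (b : ℝ) ^ n) *
        ((Finset.univ.filter (fun i => ∀ j, p i j < t j)).card : ℝ) := by
    rw [← Finset.mul_sum, Finset.card_filter]
    push_cast
    congr 1
    refine Finset.sum_congr rfl (fun μ _ => ?_)
    by_cases h7 : ∀ j, p μ j < t j
    · rw [if_pos h7]
      refine Finset.prod_eq_one (fun j _ => ?_)
      rw [if_pos (h7 j)]
      simp
    · rw [if_neg h7]
      push Not at h7
      obtain ⟨j, hj⟩ := h7
      exact Finset.prod_eq_zero (Finset.mem_univ j) (if_neg (not_lt.2 hj))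
  have h7 : ∏ j : Fin 3, (t j ^ 1 / ((1 : ℕ).factorial : ℝ)) = ∏ j, t j := by
    refine Finset.prod_congr rfl (fun j _ => ?_)
    simp
  rw [h6, h7] at h4
  have h8 : (1 / (b : ℝ) ^ n) *
        ((Finset.univ.filter (fun i => ∀ j, p i j < t j)).card : ℝ) - ∏ j, t j =
      (1 / (b : ℝ) ^ n) * (((Finset.univ.filter (fun i => ∀ j, p i j < t j)).card : ℝ) -
        (b : ℝ) ^ n * ∏ j, t j) := by
    field_simp
  rw [h8, abs_mul, abs_of_pos (by positivity : (0 : ℝ) < 1 / (b : ℝ) ^ n)] at h4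
  have h9 : C * Real.log ((b ^ n : ℕ) : ℝ) ^ (3 - 1) / ((b ^ n : ℕ) : ℝ) ^ 1 ≤
      (1 / (b : ℝ) ^ n) * (21 * (n : ℝ) ^ 2) :=
    h4.trans (mul_le_mul_of_nonneg_left h5 (by positivity))
  have h10 : C * Real.log ((b ^ n : ℕ) : ℝ) ^ (3 - 1) / ((b ^ n : ℕ) : ℝ) ^ 1 =
      (1 / (b : ℝ) ^ n) * (C * ((n : ℝ) * Real.log b) ^ 2) := by
    push_cast
    rw [Real.log_pow]
    field_simp
  rw [h10] at h9
  have h11 : C * ((n : ℝ) * Real.log b) ^ 2 ≤ 21 * (n : ℝ) ^ 2 :=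
    le_of_mul_le_mul_left h9 (by positivity)
  have h12 : (C * Real.log b ^ 2) * (n : ℝ) ^ 2 ≤ 21 * (n : ℝ) ^ 2 := by
    calc (C * Real.log b ^ 2) * (n : ℝ) ^ 2 = C * ((n : ℝ) * Real.log b) ^ 2 := by ring
      _ ≤ _ := h11
  have h13 : C * Real.log b ^ 2 ≤ 21 := le_of_mul_le_mul_right h12 (by positivity)
  have h14 : 0 < 22 / C := by positivity
  have h15 : 22 / C ≤ Real.log b ^ 2 := by nlinarith
  have h16 : 22 ≤ C * Real.log b ^ 2 := by
    calc (22 : ℝ) = C * (22 / C) := by field_simp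
      _ ≤ _ := mul_le_mul_of_nonneg_left h15 hC.le
  linarith

end Pool.Agent.S05334
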