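import Pool.Statements.S05410
import Pool.Agent.helper94.Pendulum

set_option autoImplicit false
open Pool Pool.MP_9251a8_an

namespace Pool.Agent.S05410

/-- The negation of the preceding statement: For n≥1 and smooth V(u,x) 1-periodic in all variables: if every slope α admits a ℤⁿ⁺¹-invariant family of smooth minimizers of ∫½∣∇u∣²−V(u,x) of slope α whose graphs pass exactly once through each point, then V does not depend on u. -/
theorem result :
    ¬ (∀ n : ℕ, 1 ≤ n → ∀ V : ℝ → (Fin n → ℝ) → ℝ,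
    ContDiff ℝ (⊤ : ℕ∞) (fun p : ℝ × (Fin n → ℝ) => V p.1 p.2) →
    (∀ (u : ℝ) (x : Fin n → ℝ), V (u + 1) x = V u x) →
    (∀ (u : ℝ) (x : Fin n → ℝ) (i : Fin n), V u (x + (Pi.single i (1 : ℝ) : Fin n → ℝ)) = V u x) →
    (∀ α : Fin n → ℝ, ∃ F : Set ((Fin n → ℝ) → ℝ),
      (∀ u ∈ F, ContDiff ℝ (⊤ : ℕ∞) u ∧
        (∀ φ : (Fin n → ℝ) → ℝ, ContDiff ℝ (⊤ : ℕ∞) φ → HasCompactSupport φ →
          ∀ R : ℝ, tsupport φ ⊆ Metric.ball (0 : Fin n → ℝ) R →
            ∫ x in Metric.ball (0 : Fin n → ℝ) R,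
                ((1 / 2 : ℝ) * ∑ i : Fin n, (fderiv ℝ u x (Pi.single i (1 : ℝ))) ^ 2 - V (u x) x) ≤
            ∫ x in Metric.ball (0 : Fin n → ℝ) R,
                ((1 / 2 : ℝ) * ∑ i : Fin n,
                    (fderiv ℝ (fun y => u y + φ y) x (Pi.single i (1 : ℝ))) ^ 2
                  - V (u x + φ x) x)) ∧
        (∃ C : ℝ, ∀ x : Fin n → ℝ, |u x - ∑ i : Fin n, α i * x i| ≤ C)) ∧
      (∀ u ∈ F, ∀ k : Fin n → ℤ, ∀ l : ℤ,
        (fun x : Fin n → ℝ => u (x + fun i => (k i : ℝ)) + (l : ℝ)) ∈ F) ∧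
      (∀ x : Fin n → ℝ, ∀ y : ℝ, ∃! u : (Fin n → ℝ) → ℝ, u ∈ F ∧ u x = y)) →
    ∀ u₁ u₂ : ℝ, ∀ x : Fin n → ℝ, V u₁ x = V u₂ x) := by
  intro H
  have h := H 1 le_rfl (fun u _ => Pool.Agent.helper94.Pendulum.V u)
    (by unfold Pool.Agent.helper94.Pendulum.V; fun_prop)
    (fun u _ => by
      unfold Pool.Agent.helper94.Pendulum.V
      rw [mul_add, mul_one, Real.cos_add_two_pi])
    (fun _ _ _ => rfl)
    (fun α => Pool.Agent.helper94.Pendulum.exists_minimal_foliation le_rfl α)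
    0 (1 / 2) 0
  have h1 : Pool.Agent.helper94.Pendulum.V 0 = 1 := by
    simp [Pool.Agent.helper94.Pendulum.V]
  have h2 : Pool.Agent.helper94.Pendulum.V (1 / 2) = -1 := by
    unfold Pool.Agent.helper94.Pendulum.V
    rw [show 2 * Real.pi * (1 / 2) = Real.pi by ring, Real.cos_pi]
  simp only [h1, h2] at h
  norm_num at h

end Pool.Agent.S05410
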