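import Pool.Statements.S05829
-- import your own Pool.Agent.* helpers here
import Pool.Agent.helper52.FD.All

set_option autoImplicit false
open Filter
open Pool Pool.MP_af9036_an

namespace Pool.Agent.S05829

/-- For every n ≥ 2, every c whose critical orbit under z^n+c does not tend to infinity is a limit of parameters c' for which z^n+c' has a periodic point whose cycle multiplier has modulus < 1. -/
theorem result :
    ∀ n : ℕ, 2 ≤ n → ∀ c : ℂ,
      ¬ Tendsto (fun k : ℕ => ‖(fun z : ℂ => z ^ n + c)^[k] 0‖) atTop atTop →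
      ∀ ε : ℝ, 0 < ε → ∃ c' : ℂ, dist c' c < ε ∧
        ∃ z : ℂ, ∃ k : ℕ, 0 < k ∧
          (fun w : ℂ => w ^ n + c')^[k] z = z ∧
          ‖deriv ((fun w : ℂ => w ^ n + c')^[k]) z‖ < 1 := by
  intro n hn c hc ε hε
  have h : c ∈ closure (Pool.Agent.helper16.Multibrot.hyperbolic n) := FD.FIN_f n hn c hc
  rw [Metric.mem_closure_iff] at h
  obtain ⟨c', hc', hd⟩ := h ε hε
  obtain ⟨z, k, hk, h1, h2⟩ := hc'
  exact ⟨c', by rwa [dist_comm], z, k, hk, h1, h2⟩

end Pool.Agent.S05829
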