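import Pool.Statements.S07035
import Pool.Agent.helper4.Pack.Final

set_option autoImplicit false
open Pool Pool.MP_086921_co

namespace Pool.Agent.S07035

/-- For every k there is N such that for all n ≥ N, any k graphs on n vertices each with at most n−k edges can be relabeled by permutations of the vertex set so that no two share an edge. -/
theorem result :
    ∀ k : ℕ, ∃ N : ℕ, ∀ n : ℕ, N ≤ n →
      ∀ G : Fin k → SimpleGraph (Fin n),
        (∀ i, Nat.card (G i).edgeSet ≤ n - k) →
        ∃ σ : Fin k → Equiv.Perm (Fin n),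
          ∀ i j : Fin k, i ≠ j →
            Disjoint ((G i).map (σ i).toEmbedding) ((G j).map (σ j).toEmbedding) := by
  intro k
  obtain ⟨N, hN⟩ := Pool.Agent.helper4.Pack.packing k
  refine ⟨N + k, ?_⟩
  intro n hn G hG
  obtain ⟨σ, hσ⟩ := hN n (by omega) G (fun l => by
    rw [Pool.Agent.helper4.Pack.sum_dg_eq]
    have := hG l
    omega)
  refine ⟨σ, ?_⟩
  intro i j hij
  rw [disjoint_iff_inf_le]
  intro a b hab
  rw [SimpleGraph.inf_adj, SimpleGraph.map_adj, SimpleGraph.map_adj] at hab
  obtain ⟨⟨u, v, huv, hua, hvb⟩, ⟨u', v', hu'v', hua', hvb'⟩⟩ := hab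
  refine (hσ i j hij u' v' hu'v' ?_).elim
  have e1 : (σ i).symm (σ j u') = u := by
    rw [Equiv.symm_apply_eq]
    exact (hua'.trans hua.symm)
  have e2 : (σ i).symm (σ j v') = v := by
    rw [Equiv.symm_apply_eq]
    exact (hvb'.trans hvb.symm)
  rw [e1, e2]
  exact huv

end Pool.Agent.S07035
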