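import Pool.Statements.S07485
-- import your own Pool.Agent.* helpers here
import Pool.Agent.helper24.Welsh.MainT
import Pool.Agent.helper39.Welsh.TL
import Pool.Agent.helper52.Welsh.TR

set_option autoImplicit false
open Pool Pool.MP_1cfd26_co

namespace Pool.Agent.S07485

/-- Every finite matroid with at least two elements that is representable over every field, simple, and connected, with every cocircuit of size at least (r+1)/2 (r the rank), has a circuit with exactly r+1 elements. -/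
theorem result :
  ∀ (α : Type) [Finite α] (M : Matroid α),
    (∀ (𝔽 : Type) [Field 𝔽], ∃ (n : ℕ) (v : α → (Fin n → 𝔽)),
        ∀ I : Set α, M.Indep I ↔ (I ⊆ M.E ∧ LinearIndependent 𝔽 (fun x : I => v x))) →
    (∀ e ∈ M.E, ∀ f ∈ M.E, M.Indep {e, f}) →
    (∀ e ∈ M.E, ∀ f ∈ M.E, e ≠ f → ∃ C, M.IsCircuit C ∧ e ∈ C ∧ f ∈ C) →
    M.E.Nontrivial →
    ∀ B, M.IsBase B →
    (∀ K, M.IsCocircuit K → B.ncard + 1 ≤ 2 * K.ncard) →
    ∃ C, M.IsCircuit C ∧ C.ncard = B.ncard + 1 := by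
  intro α _ M hrep hsimple hconn hnt B hB hK
  have : Fact (Nat.Prime 2) := ⟨Nat.prime_two⟩
  have : Fact (Nat.Prime 3) := ⟨Nat.prime_three⟩
  obtain ⟨n, v, hv⟩ := hrep (ZMod 2)
  obtain ⟨m, w, hw⟩ := hrep (ZMod 3)
  refine Pool.Agent.helper24.Welsh.translate M v hv hsimple hconn hnt B hB hK ?_
  intro G hG1 hG2 h1 h2 h3 h4 h5 h6
  have hreg := Pool.Agent.helper24.Welsh.reg_of_two_reps M.E v w (by
    intro I hI
    have a := hv I
    have b := hw I
    constructor
    · intro h; exact (b.1 (a.2 ⟨hI, h⟩)).2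
    · intro h; exact (a.1 (b.2 ⟨hI, h⟩)).2) G hG1
  refine Pool.Agent.helper24.Welsh.mainT B.ncard ⊥ G h1 h2 h3 hreg ?_ h5 ?_
  · rw [h4]; simp
  · intro H _ hH; exact h6 H hH

end Pool.Agent.S07485
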