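import Pool.Statements.S07735
import Pool.Agent.helper23.F2.Fin

set_option autoImplicit false
open Pool Pool.MP_26dbae_co

namespace Pool.Agent.S07735

/-- For each rational r in (1,2) there is a bipartite H such that the least number of colours in a proper edge-colouring of K_n with no two vertex-disjoint colour-isomorphic copies of H is Θ(n^r). -/
theorem result :
    ∀ r : ℚ, 1 < r → r < 2 →
      ∃ k : ℕ, ∃ H : SimpleGraph (Fin k), H.Colorable 2 ∧
        ∃ c C : ℝ, 0 < c ∧ 0 < C ∧ ∃ N : ℕ, ∀ n : ℕ, N ≤ n →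
          (∃ m : ℕ, (m : ℝ) ≤ C * (n : ℝ) ^ (r : ℝ) ∧
            ∃ χ : Fin n → Fin n → Fin m,
              (∀ a b : Fin n, χ a b = χ b a) ∧
              (∀ a b d : Fin n, a ≠ b → a ≠ d → b ≠ d → χ a b ≠ χ a d) ∧
              ¬ ∃ φ ψ : Fin k → Fin n, Function.Injective φ ∧ Function.Injective ψ ∧
                  (∀ u v : Fin k, φ u ≠ ψ v) ∧
                  ∀ u v : Fin k, H.Adj u v → χ (φ u) (φ v) = χ (ψ u) (ψ v)) ∧
          (∀ m : ℕ, ∀ χ : Fin n → Fin n → Fin m,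
              (∀ a b : Fin n, χ a b = χ b a) →
              (∀ a b d : Fin n, a ≠ b → a ≠ d → b ≠ d → χ a b ≠ χ a d) →
              (¬ ∃ φ ψ : Fin k → Fin n, Function.Injective φ ∧ Function.Injective ψ ∧
                  (∀ u v : Fin k, φ u ≠ ψ v) ∧
                  ∀ u v : Fin k, H.Adj u v → χ (φ u) (φ v) = χ (ψ u) (ψ v)) →
              c * (n : ℝ) ^ (r : ℝ) ≤ (m : ℝ)) := by
  intro r h1 h2
  obtain ⟨k, H, hH, c, C, hc, hC, N, hN⟩ := Pool.Agent.F2T.all_FN r h1 h2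
  refine ⟨k, H, hH, c, C, hc, hC, N, ?_⟩
  intro n hn
  obtain ⟨⟨m, hm, χ, hχ, hT⟩, hl⟩ := hN n hn
  refine ⟨⟨m, hm, χ, hχ.symm, hχ.proper, hT⟩, ?_⟩
  intro m' χ' hs hp hT'
  exact hl m' χ' ⟨hs, hp⟩ hT'

end Pool.Agent.S07735
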