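import Pool.Statements.S08263
import Pool.Agent.helper13.GL.Final
-- import your own Pool.Agent.* helpers here

set_option autoImplicit false
open Pool Pool.MP_3dba9c_co

namespace Pool.Agent.S08263

/-- In the plane, if distinct x,y are globally linked in a finite graph G, then either xy is an edge or x,y lie in a vertex set W whose induced subgraph is rigid and stays rigid after deleting any one edge. -/
theorem result :
  ∀ (V : Type) [Fintype V] (G : SimpleGraph V) (x y : V), x ≠ y →
    (∀ p : V → ℂ,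
        AlgebraicIndependent ℚ (fun i : V ⊕ V => Sum.elim (fun v => (p v).re) (fun v => (p v).im) i) →
        ∀ q : V → ℂ, (∀ u v : V, G.Adj u v → dist (q u) (q v) = dist (p u) (p v)) →
          dist (q x) (q y) = dist (p x) (p y)) →
    G.Adj x y ∨
    ∃ W : Finset V, x ∈ W ∧ y ∈ W ∧
      (∀ p : V → ℂ,
        AlgebraicIndependent ℚ (fun i : V ⊕ V => Sum.elim (fun v => (p v).re) (fun v => (p v).im) i) →
        ∃ ε : ℝ, 0 < ε ∧ ∀ q : V → ℂ,
          (∀ u ∈ W, ∀ v ∈ W, G.Adj u v → dist (q u) (q v) = dist (p u) (p v)) →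
          (∀ v ∈ W, dist (p v) (q v) < ε) →
          ∀ u ∈ W, ∀ v ∈ W, dist (q u) (q v) = dist (p u) (p v)) ∧
      (∀ a ∈ W, ∀ b ∈ W, G.Adj a b →
        ∀ p : V → ℂ,
          AlgebraicIndependent ℚ (fun i : V ⊕ V => Sum.elim (fun v => (p v).re) (fun v => (p v).im) i) →
          ∃ ε : ℝ, 0 < ε ∧ ∀ q : V → ℂ,
            (∀ u ∈ W, ∀ v ∈ W, G.Adj u v → s(u, v) ≠ s(a, b) →
              dist (q u) (q v) = dist (p u) (p v)) →
            (∀ v ∈ W, dist (p v) (q v) < ε) →
            ∀ u ∈ W, ∀ v ∈ W, dist (q u) (q v) = dist (p u) (p v)) := by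
  intro V _ G x y hxy hGL
  exact Pool.Agent.helper13.GL.final G x y hxy hGL

end Pool.Agent.S08263
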