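import Pool.Statements.S08750
import Pool.Agent.helper14.XG.Final

set_option autoImplicit false
open Pool Pool.MP_51d945_co

namespace Pool.Agent.S08750

/-- The negation of the preceding statement: For every finite bipartite graph L with parts X, Y there are C, N such that for n ≥ N, any n-by-n bipartite graph with no copy of L having X on the left and Y on the right has at most C·ex(n,L) edges. -/
theorem result :
    ¬ (∀ (X Y : Type) [Fintype X] [Fintype Y] (R : X → Y → Prop),
      ∃ C : ℝ, ∃ N : ℕ, ∀ n : ℕ, N ≤ n → ∀ B : Finset (Fin n × Fin n),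
        (¬ ∃ f : X ↪ Fin n, ∃ g : Y ↪ Fin n, ∀ x y, R x y → (f x, g y) ∈ B) →
        (B.card : ℝ) ≤ C * (SimpleGraph.extremalNumber n
          (SimpleGraph.fromRel
            (fun a b : X ⊕ Y => ∃ x y, a = Sum.inl x ∧ b = Sum.inr y ∧ R x y)) : ℝ)) := Pool.Agent.XG.m_FIN

end Pool.Agent.S08750
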