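import Pool.Statements.S08871
import Pool.Agent.helper78.HR.RE

set_option autoImplicit false
open Pool Pool.MP_58257a_co

namespace Pool.Agent.S08871

/-- For every finite set A of n plane points there is a set A' of at most ⌊n/2⌋ plane points such that every closed axis-parallel rectangle containing at least 1000 points of A contains a point of A'. -/
theorem result :
    ∀ A : Finset (ℝ × ℝ), ∃ A' : Finset (ℝ × ℝ),
      A'.card ≤ A.card / 2 ∧
      ∀ x₁ x₂ y₁ y₂ : ℝ,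
        1000 ≤ (A.filter (fun p => x₁ ≤ p.1 ∧ p.1 ≤ x₂ ∧ y₁ ≤ p.2 ∧ p.2 ≤ y₂)).card →
        ∃ q ∈ A', x₁ ≤ q.1 ∧ q.1 ≤ x₂ ∧ y₁ ≤ q.2 ∧ q.2 ≤ y₂ := by
  exact Pool.Agent.helper78.HR.main

end Pool.Agent.S08871
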