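import Pool.Statements.S10106

set_option autoImplicit false
open Pool Pool.MP_8f9b2f_co

namespace Pool.Agent.S10106

/-- Flip the coordinates in `I`. -/
def flip {n : ℕ} (I : Finset (Fin n)) (x : Fin n → Bool) : Fin n → Bool :=
  fun i => if i ∈ I then !(x i) else x i

lemma flip_flip {n : ℕ} (I : Finset (Fin n)) (x : Fin n → Bool) : flip I (flip I x) = x := by
  funext i
  by_cases h : i ∈ I <;> simp [flip, h]

lemma flip_inj {n : ℕ} (I : Finset (Fin n)) {x y : Fin n → Bool} (h : flip I x = flip I y) :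
    x = y := by
  rw [← flip_flip I x, h, flip_flip]

/-- If the flips of `A` indexed by `ι` are pairwise disjoint (as witnessed by a labelling `c`),
then `|ι| |A| ≤ 2 ^ n`. -/
lemma mul_card_le {n : ℕ} {ι : Type} [Fintype ι] (A : Finset (Fin n → Bool))
    (I : ι → Finset (Fin n))
    (c : (Fin n → Bool) → ι) (hc : ∀ x ∈ A, ∀ k, c (flip (I k) x) = k) :
    Fintype.card ι * A.card ≤ 2 ^ n := by
  have h1 : (A ×ˢ (Finset.univ : Finset ι)).card ≤
      (Finset.univ : Finset (Fin n → Bool)).card := by
    apply Finset.card_le_card_of_injOn (fun p => flip (I p.2) p.1)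
    · intro p _
      exact Finset.mem_coe.2 (Finset.mem_univ _)
    · rintro ⟨x, k⟩ hx ⟨y, l⟩ hy hxy
      simp only [Finset.coe_product, Set.mem_prod, Finset.mem_coe, Finset.mem_univ,
        and_true] at hx hy
      simp only at hxy
      have hk := hc x hx k
      have hl := hc y hy l
      rw [hxy, hl] at hk
      subst hk
      have := flip_inj _ hxy
      rw [this]
  rw [Finset.card_product, Finset.card_univ, Finset.card_univ] at h1
  simp only [Fintype.card_pi, Fintype.card_bool, Finset.prod_const, Finset.card_univ,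
    Fintype.card_fin] at h1
  rw [mul_comm]
  exact h1

/-- Number of ones of `x` inside `I`. -/
def cnt {n : ℕ} (I : Finset (Fin n)) (x : Fin n → Bool) : ℕ := (I.filter (fun i => x i = true)).card

lemma cnt_flip_self {n : ℕ} (I : Finset (Fin n)) (J : Finset (Fin n)) (h : I ⊆ J)
    (x : Fin n → Bool) : cnt I x + cnt I (flip J x) = I.card := by
  unfold cnt
  have : (I.filter (fun i => flip J x i = true)) = I.filter (fun i => ¬ (x i = true)) := by
    apply Finset.filter_congr
    intro i hi
    simp [flip, h hi]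
  rw [this]
  exact Finset.card_filter_add_card_filter_not _

lemma cnt_flip_disj {n : ℕ} (I : Finset (Fin n)) (J : Finset (Fin n)) (h : ∀ i ∈ I, i ∉ J)
    (x : Fin n → Bool) : cnt I (flip J x) = cnt I x := by
  unfold cnt
  congr 1
  apply Finset.filter_congr
  intro i hi
  simp [flip, h i hi]

lemma cnt_le_dist {n : ℕ} (I : Finset (Fin n)) (x : Fin n → Bool) :
    cnt I x ≤ hammingDist (fun _ => false) x := by
  unfold cnt hammingDist
  apply Finset.card_le_card
  intro i hi
  simp only [Finset.mem_filter, Finset.mem_univ, true_and] at hi ⊢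
  simp [hi.2]

/-- left half and right half of the coordinates -/
def L (m : ℕ) : Finset (Fin (4 * m)) := Finset.univ.filter (fun i => i.val < 2 * m)
def R (m : ℕ) : Finset (Fin (4 * m)) := Finset.univ.filter (fun i => ¬ i.val < 2 * m)

lemma card_L (m : ℕ) : (L m).card = 2 * m := by
  unfold L
  rw [Fin.card_filter_val_lt]
  omega

lemma card_R (m : ℕ) : (R m).card = 2 * m := by
  have h := Finset.card_filter_add_card_filter_not (s := (Finset.univ : Finset (Fin (4*m))))
    (fun i => i.val < 2 * m)
  have h2 := card_L m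
  unfold L at h2
  unfold R
  rw [h2] at h
  simp at h
  simp
  omega

/-- the deep set -/
def A (m : ℕ) : Finset (Fin (4 * m) → Bool) :=
  Finset.univ.filter (fun x => cnt (L m) x < m ∧ cnt (R m) x < m)

lemma card_A (m : ℕ) : 4 * (A m).card ≤ 2 ^ (4 * m) := by
  have := mul_card_le (ι := Bool × Bool) (A m)
    (fun p => (if p.1 then L m else ∅) ∪ (if p.2 then R m else ∅))
    (fun x => (decide (m < cnt (L m) x), decide (m < cnt (R m) x))) ?_
  · simpa using this
  · intro x hx ⟨a, b⟩
    simp only [A, Finset.mem_filter, Finset.mem_univ, true_and] at hx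
    obtain ⟨hL, hR⟩ := hx
    have cL := card_L m
    have cR := card_R m
    have dLR : ∀ i ∈ L m, i ∉ R m := by
      intro i hi hi'
      simp only [L, R, Finset.mem_filter, Finset.mem_univ, true_and] at hi hi'
      exact hi' hi
    have dRL : ∀ i ∈ R m, i ∉ L m := fun i hi hi' => dLR i hi' hi
    have e1 := cnt_flip_self (L m) (L m) (Finset.Subset.refl _) x
    have e2 := cnt_flip_self (R m) (R m) (Finset.Subset.refl _) x
    have e3 := cnt_flip_disj (L m) (R m) dLR x
    have e4 := cnt_flip_disj (R m) (L m) dRL x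
    have e5 := cnt_flip_self (L m) (L m ∪ R m) Finset.subset_union_left x
    have e6 := cnt_flip_self (R m) (L m ∪ R m) Finset.subset_union_right x
    have e7 := cnt_flip_disj (L m) ∅ (fun i _ => Finset.notMem_empty i) x
    have e8 := cnt_flip_disj (R m) ∅ (fun i _ => Finset.notMem_empty i) x
    cases a <;> cases b
    · simp only [Bool.false_eq_true, if_false, Finset.union_empty]
      rw [e7, e8]
      simp
      omega
    · simp only [Bool.false_eq_true, if_false, if_true, Finset.empty_union]
      rw [e3]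
      simp
      omega
    · simp only [Bool.false_eq_true, if_false, if_true, Finset.union_empty]
      rw [e4]
      simp
      omega
    · simp only [if_true]
      simp
      omega


/-- the dominating set -/
def D {n : ℕ} (a b c : Fin n) : Finset (Fin n → Bool) :=
  Finset.univ.filter (fun x => x a = x b ∧ x b = x c)

lemma flip_singleton_self {n : ℕ} (a : Fin n) (x : Fin n → Bool) :
    flip {a} x a = !(x a) := by simp [flip]

lemma flip_singleton_ne {n : ℕ} (a b : Fin n) (h : b ≠ a) (x : Fin n → Bool) :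
    flip {a} x b = x b := by simp [flip, h]

lemma flip_empty {n : ℕ} (x : Fin n → Bool) : flip ∅ x = x := by
  funext i; simp [flip]

lemma card_D {n : ℕ} (a b c : Fin n) (hab : a ≠ b) (hbc : b ≠ c) (hac : a ≠ c) :
    4 * (D a b c).card ≤ 2 ^ n := by
  have := mul_card_le (ι := Fin 4) (D a b c)
    (fun k => if k = 0 then ∅ else if k = 1 then {a} else if k = 2 then {b} else {c})
    (fun x => if x a = x b then (if x b = x c then 0 else 3) else (if x b = x c then 1 else 2)) ?_
  · simpa using this
  · intro x hx k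
    simp only [D, Finset.mem_filter, Finset.mem_univ, true_and] at hx
    obtain ⟨h1, h2⟩ := hx
    fin_cases k
    · simp [flip_empty, h1, h2]
    · simp only [Fin.mk_one, Fin.isValue, one_ne_zero, if_false, if_true]
      rw [flip_singleton_self, flip_singleton_ne a b hab.symm, flip_singleton_ne a c hac.symm,
        h1, h2]
      cases x c <;> simp
    · simp only [Fin.reduceFinMk, Fin.isValue, Fin.reduceEq, if_false, if_true]
      rw [flip_singleton_self, flip_singleton_ne b a hab, flip_singleton_ne b c hbc.symm,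
        h1, h2]
      cases x c <;> simp
    · simp only [Fin.reduceFinMk, Fin.isValue, Fin.reduceEq, if_false]
      rw [flip_singleton_self, flip_singleton_ne c a hac, flip_singleton_ne c b hbc,
        h1, h2]
      cases x c <;> simp

lemma dist_flip_singleton {n : ℕ} (a : Fin n) (x : Fin n → Bool) :
    hammingDist x (flip {a} x) = 1 := by
  unfold hammingDist
  rw [Finset.card_eq_one]
  refine ⟨a, ?_⟩
  ext i
  simp only [Finset.mem_filter, Finset.mem_univ, true_and, Finset.mem_singleton]
  constructor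
  · intro h
    by_contra hne
    exact h (flip_singleton_ne a i hne x).symm
  · rintro rfl
    rw [flip_singleton_self]
    cases x i <;> simp

/-- every vertex outside `D` has a neighbour in `D` -/
lemma exists_nbr {n : ℕ} (a b c : Fin n) (hab : a ≠ b) (hbc : b ≠ c) (hac : a ≠ c)
    (x : Fin n → Bool) (hx : x ∉ D a b c) :
    ∃ z ∈ D a b c, hammingDist x z = 1 := by
  simp only [D, Finset.mem_filter, Finset.mem_univ, true_and] at hx
  by_cases h1 : x a = x b
  · refine ⟨flip {c} x, ?_, dist_flip_singleton c x⟩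
    simp only [D, Finset.mem_filter, Finset.mem_univ, true_and]
    rw [flip_singleton_self, flip_singleton_ne c a hac, flip_singleton_ne c b hbc]
    have h2 : x b ≠ x c := fun h => hx ⟨h1, h⟩
    rw [h1]
    revert h2
    cases x b <;> cases x c <;> simp
  · by_cases h2 : x b = x c
    · refine ⟨flip {a} x, ?_, dist_flip_singleton a x⟩
      simp only [D, Finset.mem_filter, Finset.mem_univ, true_and]
      rw [flip_singleton_self, flip_singleton_ne a b hab.symm, flip_singleton_ne a c hac.symm]
      rw [h2] at h1 ⊢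
      revert h1
      cases x a <;> cases x c <;> simp
    · refine ⟨flip {b} x, ?_, dist_flip_singleton b x⟩
      simp only [D, Finset.mem_filter, Finset.mem_univ, true_and]
      rw [flip_singleton_self, flip_singleton_ne b a hab, flip_singleton_ne b c hbc.symm]
      revert h1 h2
      cases x a <;> cases x b <;> cases x c <;> simp

/-- For every `m ≥ 1` there is a balanced set `F` in the cube of dimension `4 m` that contains
all points of weight `< m`, and such that each point outside `F` has a neighbour in `F`. -/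
lemma exists_F (m : ℕ) (hm : 1 ≤ m) : ∃ F : Finset (Fin (4 * m) → Bool),
    2 * F.card = 2 ^ (4 * m) ∧
    (∀ x, x ∉ F → m ≤ hammingDist (fun _ => false) x) ∧
    (∀ x, x ∉ F → ∃ z ∈ F, hammingDist x z = 1) := by
  let a : Fin (4 * m) := ⟨0, by omega⟩
  let b : Fin (4 * m) := ⟨1, by omega⟩
  let c : Fin (4 * m) := ⟨2, by omega⟩
  have hab : a ≠ b := by simp [a, b]
  have hbc : b ≠ c := by simp [b, c]
  have hac : a ≠ c := by simp [a, c]
  have hA := card_A m
  have hD := card_D a b c hab hbc hac
  obtain ⟨M, hM⟩ : ∃ M, 4 * m = M + 1 := ⟨4 * m - 1, by omega⟩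
  have hp : 2 ^ (4 * m) = 2 * 2 ^ M := by rw [hM, pow_succ]; ring
  have hle : (A m ∪ D a b c).card ≤ 2 ^ M := by
    have := Finset.card_union_le (A m) (D a b c)
    omega
  have hcard : 2 ^ M ≤ (Finset.univ : Finset (Fin (4 * m) → Bool)).card := by
    simp
    omega
  obtain ⟨F, hF1, hF2, hF3⟩ := Finset.exists_subsuperset_card_eq
    (Finset.subset_univ (A m ∪ D a b c)) hle hcard
  refine ⟨F, ?_, ?_, ?_⟩
  · rw [hF3, hp]
  · intro x hx
    have hxA : x ∉ A m := fun h => hx (hF1 (Finset.mem_union_left _ h))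
    simp only [A, Finset.mem_filter, Finset.mem_univ, true_and, not_and_or, not_lt] at hxA
    rcases hxA with h | h
    · exact h.trans (cnt_le_dist _ _)
    · exact h.trans (cnt_le_dist _ _)
  · intro x hx
    have hxD : x ∉ D a b c := fun h => hx (hF1 (Finset.mem_union_right _ h))
    obtain ⟨z, hz, hd⟩ := exists_nbr a b c hab hbc hac x hxD
    exact ⟨z, hF1 (Finset.mem_union_right _ hz), hd⟩

/-- The core: for every `m ≥ 1` there are balanced `f, g` in dimension `4 m` such that every
mapping from `f` to `g` has both Lipschitz constants at least `m`. -/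
lemma core (m : ℕ) (hm : 1 ≤ m) : ∃ f g : (Fin (4 * m) → Bool) → Bool,
    2 * (Finset.univ.filter (fun x => f x = true)).card = 2 ^ (4 * m) ∧
    2 * (Finset.univ.filter (fun x => g x = true)).card = 2 ^ (4 * m) ∧
    ∀ φ : (Fin (4 * m) → Bool) ≃ (Fin (4 * m) → Bool), (∀ x, g (φ x) = f x) →
      ∀ C₁ C₂ : ℝ,
        (∀ x y, (hammingDist (φ x) (φ y) : ℝ) ≤ C₁ * (hammingDist x y : ℝ)) →
        (∀ x y, (hammingDist (φ.symm x) (φ.symm y) : ℝ) ≤ C₂ * (hammingDist x y : ℝ)) →
        (m : ℝ) ≤ C₁ ∧ (m : ℝ) ≤ C₂ := by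
  obtain ⟨F, hF, hdeep, hnbr⟩ := exists_F m hm
  have h0 : (fun _ => false : Fin (4 * m) → Bool) ∈ F := by
    by_contra h
    have := hdeep _ h
    rw [hammingDist_self] at this
    omega
  refine ⟨fun x => decide (x ∈ F), fun x => !decide (x ∈ F), ?_, ?_, ?_⟩
  · simpa using hF
  · have h1 := Finset.card_filter_add_card_filter_not
      (s := (Finset.univ : Finset (Fin (4 * m) → Bool))) (fun x => x ∈ F)
    have h2 : (Finset.univ.filter (fun x : Fin (4 * m) → Bool => x ∈ F)) = F := by
      ext; simp
    rw [h2] at h1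
    have h3 : (Finset.univ.filter (fun x : Fin (4 * m) → Bool => (!decide (x ∈ F)) = true))
      = Finset.univ.filter (fun x => ¬ x ∈ F) := by
      ext; simp
    rw [h3]
    have h4 : (Finset.univ : Finset (Fin (4 * m) → Bool)).card = 2 ^ (4 * m) := by simp
    omega
  · intro φ hφ C₁ C₂ hC₁ hC₂
    have key : ∀ x, (φ x ∉ F ↔ x ∈ F) := by
      intro x
      have := hφ x
      simp only at this
      by_cases h1 : φ x ∈ F <;> by_cases h2 : x ∈ F <;> simp_all
    constructor
    · -- `0 = φ x`, `x ∉ F`
      set x := φ.symm (fun _ => false) with hx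
      have hφx : φ x = fun _ => false := by rw [hx, Equiv.apply_symm_apply]
      have hxF : x ∉ F := by
        intro h
        exact ((key x).2 h) (by rw [hφx]; exact h0)
      obtain ⟨z, hz, hd⟩ := hnbr x hxF
      have hzF : φ z ∉ F := (key z).2 hz
      have h1 := hdeep _ hzF
      have h2 := hC₁ x z
      rw [hφx, hd] at h2
      have h3 : (m : ℝ) ≤ (hammingDist (fun _ => false) (φ z) : ℝ) := by exact_mod_cast h1
      simpa using h3.trans h2
    · set w := φ (fun _ => false) with hw
      have hwF : w ∉ F := (key _).2 h0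
      obtain ⟨v, hv, hd⟩ := hnbr w hwF
      have hvF : φ.symm v ∉ F := by
        intro h
        have := (key (φ.symm v)).2 h
        rw [Equiv.apply_symm_apply] at this
        exact this hv
      have h1 := hdeep _ hvF
      have h2 := hC₂ w v
      have hsw : φ.symm w = fun _ => false := by rw [hw, Equiv.symm_apply_apply]
      rw [hsw, hd] at h2
      have h3 : (m : ℝ) ≤ (hammingDist (fun _ => false) (φ.symm v) : ℝ) := by exact_mod_cast h1
      simpa using h3.trans h2

theorem result :
    ¬ (∃ α : ℝ, α < 2 ∧ ∃ K : ℝ, ∀ n : ℕ, 1 ≤ n → ∀ f g : (Fin n → Bool) → Bool,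
      2 * (Finset.univ.filter (fun x => f x = true)).card = 2 ^ n →
      2 * (Finset.univ.filter (fun x => g x = true)).card = 2 ^ n →
      ∃ φ : (Fin n → Bool) ≃ (Fin n → Bool), (∀ x, g (φ x) = f x) ∧
        ∃ C₁ C₂ : ℝ, 0 ≤ C₁ ∧ 0 ≤ C₂ ∧
          (∀ x y, (hammingDist (φ x) (φ y) : ℝ) ≤ C₁ * (hammingDist x y : ℝ)) ∧
          (∀ x y, (hammingDist (φ.symm x) (φ.symm y) : ℝ) ≤ C₂ * (hammingDist x y : ℝ)) ∧
          C₁ * C₂ ≤ K * (n : ℝ) ^ α) := by
  rintro ⟨α, hα, K, h⟩
  -- choose `m` large
  have hlim : Filter.Tendsto (fun m : ℕ => ((4 * m : ℕ) : ℝ) ^ (2 - α)) Filter.atTop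
      Filter.atTop := by
    have h1 : Filter.Tendsto (fun m : ℕ => ((4 * m : ℕ) : ℝ)) Filter.atTop Filter.atTop := by
      apply tendsto_natCast_atTop_atTop.comp
      exact Filter.tendsto_id.const_mul_atTop' (by norm_num)
    exact (tendsto_rpow_atTop (by linarith)).comp h1
  obtain ⟨m, hm1, hm2⟩ := ((Filter.eventually_ge_atTop 1).and
    (hlim.eventually_gt_atTop (16 * K))).exists
  obtain ⟨f, g, hf, hg, hfg⟩ := core m hm1
  obtain ⟨φ, hφ, C₁, C₂, hC₁0, hC₂0, hC₁, hC₂, hC⟩ := h (4 * m) (by omega) f g hf hg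
  obtain ⟨h1, h2⟩ := hfg φ hφ C₁ C₂ hC₁ hC₂
  have hmpos : (0 : ℝ) < m := by exact_mod_cast hm1
  have hm4 : (0 : ℝ) < ((4 * m : ℕ) : ℝ) := by push_cast; linarith
  have h3 : (m : ℝ) * m ≤ C₁ * C₂ := mul_le_mul h1 h2 hmpos.le hC₁0
  have h4 : ((4 * m : ℕ) : ℝ) ^ α * ((4 * m : ℕ) : ℝ) ^ (2 - α) = 16 * ((m : ℝ) * m) := by
    rw [← Real.rpow_add hm4]
    have : α + (2 - α) = ((2 : ℕ) : ℝ) := by push_cast; ring
    rw [this, Real.rpow_natCast]
    push_cast
    ring
  have h5 : (0 : ℝ) < ((4 * m : ℕ) : ℝ) ^ α := Real.rpow_pos_of_pos hm4 α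
  have h6 : ((4 * m : ℕ) : ℝ) ^ α * (16 * K) <
      ((4 * m : ℕ) : ℝ) ^ α * ((4 * m : ℕ) : ℝ) ^ (2 - α) :=
    mul_lt_mul_of_pos_left hm2 h5
  rw [h4] at h6
  nlinarith [h3, hC, h6]

end Pool.Agent.S10106
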