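import Pool.Statements.S11295
import Pool.Agent.helper22.PlanarRecolour

set_option autoImplicit false
open Pool Pool.MP_c468e8_co

namespace Pool.Agent.S11295

/-- There is a constant C such that in every finite planar graph on n vertices, any two proper 8-colourings are linked by at most C·n proper colourings, each differing from the previous one at one vertex or fewer. -/
theorem result :
    ∃ C : ℕ, ∀ (V : Type) [Fintype V] (G : SimpleGraph V),
      (∃ f : V → ℂ, Function.Injective f ∧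
        ∃ γ : V → V → unitInterval → ℂ,
          (∀ u v : V, G.Adj u v →
            Continuous (γ u v) ∧ Function.Injective (γ u v) ∧
              γ u v 0 = f u ∧ γ u v 1 = f v) ∧
          (∀ (u v w : V) (t : unitInterval), G.Adj u v → t ≠ 0 → t ≠ 1 →
            γ u v t ≠ f w) ∧
          (∀ (u v x y : V) (a b : unitInterval), G.Adj u v → G.Adj x y →
            Sym2.mk (u, v) ≠ Sym2.mk (x, y) →
            a ≠ 0 → a ≠ 1 → b ≠ 0 → b ≠ 1 → γ u v a ≠ γ x y b)) →
      ∀ c₁ c₂ : V → Fin 8,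
        (∀ u v : V, G.Adj u v → c₁ u ≠ c₁ v) →
        (∀ u v : V, G.Adj u v → c₂ u ≠ c₂ v) →
        ∃ m : ℕ, m ≤ C * Fintype.card V ∧
          ∃ seq : ℕ → V → Fin 8, seq 0 = c₁ ∧ seq m = c₂ ∧
            (∀ i ≤ m, ∀ u v : V, G.Adj u v → seq i u ≠ seq i v) ∧
            (∀ i < m, ∃ w : V, ∀ v : V, v ≠ w → seq (i + 1) v = seq i v) := by
  refine ⟨392, fun V _ G ⟨f, hf, γ, h1, h2, h3⟩ c₁ c₂ hc₁ hc₂ => ?_⟩
  have hD : Pool.Agent.helper22.PlanarRec.Drawn G := by
    refine ⟨f, hf, γ, fun u v huv => ?_, h2, fun u v x y a b huv hxy hux _ _ _ ha0 ha1 hb0 hb1 => ?_⟩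
    · obtain ⟨a, _, b, c⟩ := h1 u v huv
      exact ⟨a, b, c⟩
    · refine h3 u v x y a b huv hxy (fun hs => ?_) ha0 ha1 hb0 hb1
      have h4 := congrFun hs (u, v)
      rw [Sym2.eq_iff] at h4
      have h5 : (u, v) = (x, y) := by
        rcases h4 with ⟨h, -⟩ | ⟨-, h⟩ <;> exact h
      exact hux (congrArg Prod.fst h5)
  obtain ⟨m, hm, seq, h⟩ := Pool.Agent.helper22.PlanarRec.recolour (r := 7) le_rfl G hD c₁ c₂ hc₁ hc₂
  exact ⟨m, by omega, seq, h⟩

end Pool.Agent.S11295
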