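import Pool.Statements.S11381
import Pool.Agent.helper19.FixedPolytopeReal

set_option autoImplicit false
set_option maxHeartbeats 4000000
open scoped Pointwise
open Pool Pool.MP_c81765_co

namespace Pool.Agent.S11381

open Pool.Agent.H19 Polynomial

lemma charpoly_hatM {n : ℕ} (A : Matrix (Fin n) (Fin n) ℤ) (τ : Fin n → ℤ) :
    (hatM A τ).charpoly = A.charpoly * (X - C 1) := by
  rw [hatM, Matrix.charpoly_fromBlocks_zero₂₁, Matrix.charpoly_one]
  simp

lemma hatM_pow_eq_one {n : ℕ} {G : Type} [Group G] [Fintype G]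
    (ρ : G →* Matrix.GeneralLinearGroup (Fin n) ℤ) (t : G → (Fin n → ℤ))
    (ht : ∀ g h : G, t (g * h) = (ρ g).val.mulVec (t h) + t g) (g : G) :
    (hatM (ρ g).val (t g)) ^ (Fintype.card G) = 1 := by
  have h1 : t 1 = 0 := by
    have := ht 1 1
    rw [mul_one, map_one] at this
    simp only [Units.val_one, Matrix.one_mulVec] at this
    exact (left_eq_add.mp this)
  have h2 : ∀ j : ℕ, (hatM (ρ g).val (t g)) ^ j = hatM (ρ (g ^ j)).val (t (g ^ j)) := by
    intro j
    induction j with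
    | zero =>
      rw [pow_zero, pow_zero, map_one, h1]
      exact hatM_one.symm
    | succ j ih =>
      rw [pow_succ', ih, hatM_mul, pow_succ', map_mul, ht]
      rfl
  rw [h2, pow_card_eq_one, map_one, h1]
  exact hatM_one

theorem main_thm {n : ℕ} (A : Matrix (Fin n) (Fin n) ℤ) (τ : Fin n → ℤ) (m : ℕ) (hm : 0 < m)
    (hM : (hatM A τ) ^ m = 1) (S : Finset (Fin n → ℤ)) (P : Set (Fin n → ℝ))
    (hP : P = convexHull ℝ ((fun (z : Fin n → ℤ) (i : Fin n) => (z i : ℝ)) ''
      (S : Set (Fin n → ℤ))))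
    (haff : affineSpan ℝ P = ⊤) (hinv : TR A τ '' P = P)
    (Pg : Set (Fin n → ℝ)) (hPg : Pg = {x | x ∈ P ∧ TR A τ x = x})
    (ind : ℕ) (hind : ind = sInf {k : ℕ | 0 < k ∧ ∃ z : Fin n → ℤ,
        (fun i => (z i : ℝ)) ∈ affineSpan ℝ ((k : ℝ) • Pg)})
    (d : ℕ) (hd : d = Module.finrank ℝ (affineSpan ℝ Pg).direction)
    (D : ℤ) (hD : D = Polynomial.eval 1 (Polynomial.divByMonic A.charpoly
            ((Polynomial.X - Polynomial.C (1 : ℤ)) ^ (A.charpoly.rootMultiplicity 1)))) :
    ∃ N : ℕ, Filter.Tendsto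
        (fun m : ℕ => (d.factorial : ℝ) *
          ((Set.ncard {z : Fin n → ℤ |
              (fun i => (z i : ℝ)) ∈ (((m * ind : ℕ) : ℝ)) • Pg} : ℝ) /
            (((m * ind : ℕ) : ℝ)) ^ d) * (D : ℝ) / (ind : ℝ))
        Filter.atTop (nhds (N : ℝ)) := by
  classical
  have hconv : Convex ℝ P := by rw [hP]; exact convex_convexHull ℝ _
  have hinv' : ∀ x ∈ P, TR A τ x ∈ P := by
    intro x hx
    have : TR A τ x ∈ TR A τ '' P := ⟨x, hx, rfl⟩
    rwa [hinv] at this
  have hspan : affineSpan ℝ Pg = fixA A τ := by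
    rw [hPg]
    exact affineSpan_fixed A τ m hm hM P hconv haff hinv'
  have hmemiff := mem_affineSpan_smul_iff A τ Pg hspan
  -- P is nonempty
  have hSne : S.Nonempty := by
    rw [Finset.nonempty_iff_ne_empty]
    rintro rfl
    rw [hP] at haff
    simp only [Finset.coe_empty, Set.image_empty, convexHull_empty, AffineSubspace.span_empty]
      at haff
    exact AffineSubspace.bot_ne_top ℝ (Fin n → ℝ) (Fin n → ℝ) haff
  obtain ⟨v₀, hv₀⟩ := hSne
  -- the index
  have hset : {k : ℕ | 0 < k ∧ ∃ z : Fin n → ℤ,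
        (fun i => (z i : ℝ)) ∈ affineSpan ℝ ((k : ℝ) • Pg)}
      = {k : ℕ | 0 < k ∧ ∃ z : Fin n → ℤ, homZ z k ∈ fixZ (hatM A τ)} := by
    ext k
    constructor
    · rintro ⟨hk, z, hz⟩
      exact ⟨hk, z, (hmemiff k hk z).mp hz⟩
    · rintro ⟨hk, z, hz⟩
      exact ⟨hk, z, (hmemiff k hk z).mpr hz⟩
  have hne : {k : ℕ | 0 < k ∧ ∃ z : Fin n → ℤ, homZ z k ∈ fixZ (hatM A τ)}.Nonempty := by
    refine ⟨m, hm, ?_⟩
    set w : Fin n ⊕ Unit → ℤ := ∑ j ∈ Finset.range m, ((hatM A τ) ^ j).mulVec (homZ v₀ 1) with hw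
    have hw1 : w ∈ fixZ (hatM A τ) := by
      rw [mem_fixZ, hw, Matrix.mulVec_sum]
      have h1 : ∀ j, (hatM A τ).mulVec (((hatM A τ) ^ j).mulVec (homZ v₀ 1)) =
          ((hatM A τ) ^ (j + 1)).mulVec (homZ v₀ 1) := by
        intro j
        rw [Matrix.mulVec_mulVec, pow_succ']
      simp_rw [h1]
      have h2 := Finset.sum_range_succ' (fun j => ((hatM A τ) ^ j).mulVec (homZ v₀ 1)) m
      have h3 := Finset.sum_range_succ (fun j => ((hatM A τ) ^ j).mulVec (homZ v₀ 1)) m
      rw [h3] at h2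
      rw [hM, pow_zero] at h2
      exact (add_right_cancel h2).symm
    have hlast : ∀ j : ℕ, (((hatM A τ) ^ j).mulVec (homZ v₀ 1)) (Sum.inr ()) = 1 := by
      intro j
      induction j with
      | zero => simp
      | succ j ih =>
        rw [pow_succ', ← Matrix.mulVec_mulVec]
        rw [homZ_eta (((hatM A τ) ^ j).mulVec (homZ v₀ 1)), hatM_mulVec, homZ_inr, ih]
    have hw2 : w (Sum.inr ()) = m := by
      rw [hw, Finset.sum_apply]
      simp_rw [hlast]
      simp
    rw [homZ_eta w, hw2] at hw1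
    exact ⟨_, hw1⟩
  rw [hset] at hind
  have hmem := Nat.sInf_mem hne
  rw [← hind] at hmem
  obtain ⟨hind0, z₀, hz₀⟩ := hmem
  have hmin : ∀ (k : ℕ), 0 < k → ∀ z, homZ z k ∈ fixZ (hatM A τ) → ind ≤ k := by
    intro k hk z hz
    rw [hind]
    exact Nat.sInf_le ⟨hk, z, hz⟩
  -- bases
  let b := Module.Free.chooseBasis ℤ (fixZ A)
  set κ := Module.Free.ChooseBasisIndex ℤ (fixZ A) with hκ
  obtain ⟨e, he1, he2⟩ := exists_basis A τ z₀ ind hind0 hz₀ hmin b
  obtain ⟨D', q, p, hD'pos, hqD', hchar, hpe, havg, hint⟩ :=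
    exists_adapted_real (hatM A τ) m hm hM e
  -- the determinant
  have hDD' : D = D' := by
    rw [charpoly_hatM, Fintype.card_sum, Fintype.card_unit, pow_succ] at hchar
    have h1 : A.charpoly * (X - C 1) = ((X - C 1) ^ (Fintype.card κ) * q) * (X - C 1) := by
      rw [hchar]; ring
    have h2 : A.charpoly = (X - C 1) ^ (Fintype.card κ) * q :=
      mul_right_cancel₀ (X_sub_C_ne_zero 1) h1
    have hq0 : q ≠ 0 := by
      rintro rfl
      rw [eval_zero] at hqD'
      omega
    have hroot : rootMultiplicity 1 A.charpoly = Fintype.card κ := by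
      rw [h2, rootMultiplicity_mul (mul_ne_zero (pow_ne_zero _ (X_sub_C_ne_zero 1)) hq0),
        rootMultiplicity_X_sub_C_pow, rootMultiplicity_eq_zero, add_zero]
      rw [IsRoot.def, hqD']
      omega
    rw [hD, hroot, h2, mul_divByMonic_cancel_left _ ((monic_X_sub_C 1).pow _), hqD']
  -- real coordinates
  set t : ℝ := (ind : ℝ) with ht
  have ht0 : t ≠ 0 := by rw [ht]; exact_mod_cast hind0.ne'
  have htpos : 0 < t := by rw [ht]; exact_mod_cast hind0
  let Φ : (κ → ℝ) →ₗ[ℝ] (Fin n → ℝ) :=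
    ∑ i, (LinearMap.proj i : (κ → ℝ) →ₗ[ℝ] ℝ).smulRight (castV (b i : Fin n → ℤ))
  have hΦ : ∀ c, Φ c = ∑ i, c i • castV (b i : Fin n → ℤ) := by
    intro c; simp [Φ]
  let psi : (κ → ℝ) →ᵃ[ℝ] (Fin n → ℝ) :=
    (t⁻¹ • Φ).toAffineMap + AffineMap.const ℝ (κ → ℝ) (t⁻¹ • castV z₀)
  have hpsi_apply : ∀ c, psi c = t⁻¹ • (Φ c + castV z₀) := by
    intro c
    simp [psi]
  have hpsi_lin : psi.linear = t⁻¹ • Φ := by
    simp [psi]
  let qv : (Fin n → ℝ) → (κ → ℝ) := fun x i => t * p (hom x) (Sum.inl i)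
  have hcomp : ∀ x : Fin n → ℝ, ∀ k, ∑ i, p (hom x) (Sum.inl i) * (e (Sum.inl i) : Fin n ⊕ Unit → ℤ) k
      + p (hom x) (Sum.inr ()) * (e (Sum.inr ()) : Fin n ⊕ Unit → ℤ) k = hom (beta A τ m x) k := by
    intro x k
    have h1 := havg (hom x)
    rw [← hom_beta A τ m hm, Fintype.sum_sum_type] at h1
    have h2 := congrFun h1 k
    simp only [Pi.add_apply, Finset.sum_apply, Pi.smul_apply, smul_eq_mul, castV,
      Finset.univ_unique, Finset.sum_singleton] at h2
    exact h2
  have hinr : ∀ x : Fin n → ℝ, p (hom x) (Sum.inr ()) * t = 1 := by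
    intro x
    have h1 := hcomp x (Sum.inr ())
    rw [he2] at h1
    simp only [he1, homZ_inr, Int.cast_zero, mul_zero, Finset.sum_const_zero, zero_add,
      Int.cast_natCast, hom_inr] at h1
    exact h1
  have hpsi_qv : ∀ x : Fin n → ℝ, psi (qv x) = beta A τ m x := by
    intro x
    funext k
    have h1 := hcomp x (Sum.inl k)
    rw [he2] at h1
    simp only [he1, homZ_inl, hom_inl] at h1
    have h2 : p (hom x) (Sum.inr ()) = t⁻¹ := by
      exact eq_inv_of_mul_eq_one_left (hinr x)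
    rw [h2] at h1
    rw [← h1, hpsi_apply, hΦ]
    simp only [Pi.smul_apply, Pi.add_apply, Finset.sum_apply, smul_eq_mul, castV, qv, mul_add,
      Finset.mul_sum]
    congr 1
    refine Finset.sum_congr rfl fun i _ => ?_
    field_simp
  have hhomq : ∀ x : Fin n → ℝ, hom (qv x) = t • p (hom x) := by
    intro x
    funext j
    rcases j with j | j
    · simp [qv]
    · have := hinr x
      simp only [hom_inr, Pi.smul_apply, smul_eq_mul]
      rw [mul_comm]
      exact this.symm
  have hΦinj : Function.Injective Φ := by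
    rw [← LinearMap.ker_eq_bot, LinearMap.ker_eq_bot']
    intro c hc
    have h1 : ∑ i, c i • castV (e (Sum.inl i) : Fin n ⊕ Unit → ℤ) = 0 := by
      funext k
      rw [hΦ] at hc
      rcases k with k | k
      · have := congrFun hc k
        simp only [Finset.sum_apply, Pi.smul_apply, smul_eq_mul, castV, Pi.zero_apply] at this
        simp only [Finset.sum_apply, Pi.smul_apply, smul_eq_mul, castV, Pi.zero_apply, he1,
          homZ_inl]
        exact this
      · simp [castV, he1]
    have h2 := congrArg p h1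
    rw [map_sum, map_zero] at h2
    simp only [map_smul, hpe] at h2
    funext i
    have := congrFun h2 (Sum.inl i)
    simp only [Finset.sum_apply, Pi.smul_apply, smul_eq_mul, Pi.zero_apply] at this
    rw [Finset.sum_eq_single i] at this
    · simpa using this
    · intro i' _ hi'
      rw [Pi.single_eq_of_ne]
      · simp
      · intro h; exact hi' (Sum.inl_injective h).symm
    · intro h; exact absurd (Finset.mem_univ i) h
  have hpsi_inj : Function.Injective psi := by
    intro c c' h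
    rw [hpsi_apply, hpsi_apply] at h
    have h1 := smul_right_injective (Fin n → ℝ) (inv_ne_zero ht0) h
    exact hΦinj (add_right_cancel h1)
  -- psi parametrises the fixed space
  have hpsi_fix : ∀ x, TR A τ x = x → psi (qv x) = x := fun x hx => by
    rw [hpsi_qv, beta_of_fixed A τ m hm x hx]
  have hpsi_mem : ∀ c, TR A τ (psi c) = psi c := by
    intro c
    rw [fix_iff]
    have h1 : hom (psi c) = t⁻¹ • (∑ i, c i • castV (e (Sum.inl i) : Fin n ⊕ Unit → ℤ) +
        castV (e (Sum.inr ()) : Fin n ⊕ Unit → ℤ)) := by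
      funext k
      rcases k with k | k
      · rw [hom_inl, hpsi_apply, hΦ]
        simp [castV, he1, he2, Finset.sum_apply]
      · simp [castV, he1, he2, Finset.sum_apply, ← ht, ht0]
    rw [h1, Matrix.mulVec_smul, Matrix.mulVec_add, Matrix.mulVec_sum]
    congr 2
    · refine Finset.sum_congr rfl fun i _ => ?_
      rw [Matrix.mulVec_smul, rM_mulVec, mem_fixZ.mp (e (Sum.inl i)).2]
    · rw [rM_mulVec, mem_fixZ.mp (e (Sum.inr ())).2]
  -- the dimension
  have hdim : d = Fintype.card κ := by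
    rw [hd, hspan]
    have h1 : fixA A τ = (⊤ : AffineSubspace ℝ (κ → ℝ)).map psi := by
      ext x
      rw [mem_fixA, AffineSubspace.mem_map]
      constructor
      · intro hx
        exact ⟨qv x, trivial, hpsi_fix x hx⟩
      · rintro ⟨c, -, rfl⟩
        exact hpsi_mem c
    rw [h1, AffineSubspace.map_direction, AffineSubspace.direction_top, Submodule.map_top,
      hpsi_lin, LinearMap.finrank_range_of_inj]
    · simp
    · intro c c' h
      rw [LinearMap.smul_apply, LinearMap.smul_apply] at h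
      exact hΦinj (smul_right_injective (Fin n → ℝ) (inv_ne_zero ht0) h)
  -- the polytope in coordinates
  have hPrange : P = convexHull ℝ (Set.range fun v : S => castV v.1) := by
    rw [hP]
    congr 1
    ext x
    constructor
    · rintro ⟨z, hz, rfl⟩
      exact ⟨⟨z, hz⟩, rfl⟩
    · rintro ⟨⟨z, hz⟩, rfl⟩
      exact ⟨z, hz, rfl⟩
  set pts : S → (κ → ℝ) := fun v => qv (castV v.1) with hpts
  have hqcomb : ∀ (w : S → ℝ) (x : Fin n → ℝ), ∑ v, w v • hom (castV v.1) = hom x →
      ∑ v, w v • hom (pts v) = hom (qv x) := by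
    intro w x hx
    simp only [hpts, hhomq]
    rw [← hx, map_sum, Finset.smul_sum]
    refine Finset.sum_congr rfl fun v _ => ?_
    rw [map_smul, smul_comm]
  set Kp : Set (κ → ℝ) := convexHull ℝ (Set.range pts) with hKp
  have hKmem : ∀ c, c ∈ Kp ↔ psi c ∈ Pg := by
    intro c
    constructor
    · intro hc
      rw [hKp, mem_hull_iff] at hc
      obtain ⟨w, hw0, hw1⟩ := hc
      -- the point x
      set x : Fin n → ℝ := ∑ v : S, w v • castV v.1 with hx
      have hwsum := ((sum_hom_iff pts w c).mp hw1).2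
      have hhx : ∑ v : S, w v • hom (castV v.1) = hom x :=
        (sum_hom_iff (fun v : S => castV v.1) w x).mpr ⟨rfl, hwsum⟩
      have h1 := hqcomb w x hhx
      rw [hw1] at h1
      have h2 : c = qv x := by
        funext i
        exact congrFun h1 (Sum.inl i)
      have hxP : x ∈ P := by
        rw [hPrange, mem_hull_iff]
        exact ⟨w, hw0, hhx⟩
      rw [h2, hpsi_qv, hPg]
      exact ⟨beta_mem A τ m hm P hconv hinv' x hxP, beta_fixed A τ m hm hM x⟩
    · intro hc
      rw [hPg] at hc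
      obtain ⟨hcP, hcT⟩ := hc
      have h1 : qv (psi c) = c := hpsi_inj (hpsi_fix _ hcT)
      rw [hPrange, mem_hull_iff] at hcP
      obtain ⟨w, hw0, hw1⟩ := hcP
      rw [hKp, mem_hull_iff]
      refine ⟨w, hw0, ?_⟩
      rw [hqcomb w (psi c) hw1, h1]
  -- lattice points
  have hcount : ∀ m' : ℕ, 0 < m' →
      (Set.ncard {z : Fin n → ℤ | (fun i => (z i : ℝ)) ∈ (((m' * ind : ℕ) : ℝ)) • Pg}) =
      Nat.card ↑(Kp ∩ (m' : ℝ)⁻¹ • (Submodule.span ℤ (Set.range (Pi.basisFun ℝ κ)) :
        Set (κ → ℝ))) := by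
    intro m' hm'
    have hm'R : (m' : ℝ) ≠ 0 := by exact_mod_cast hm'.ne'
    have hmt : ((m' * ind : ℕ) : ℝ) = (m' : ℝ) * t := by push_cast; rfl
    have hmt0 : (m' : ℝ) * t ≠ 0 := mul_ne_zero hm'R ht0
    let Φa : (κ → ℤ) → (Fin n → ℤ) := fun a => (m' : ℤ) • z₀ + ∑ i, a i • (b i : Fin n → ℤ)
    let Ψ : (κ → ℤ) → (κ → ℝ) := fun a => (m' : ℝ)⁻¹ • castV a
    have hrel : ∀ a, castV (Φa a) = ((m' : ℝ) * t) • psi (Ψ a) := by
      intro a
      rw [hpsi_apply, hΦ]
      funext k
      simp only [castV, Φa, Ψ, Pi.add_apply, Pi.smul_apply, Finset.sum_apply, smul_eq_mul,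
        Int.cast_add, Int.cast_mul, Int.cast_sum, Int.cast_natCast]
      have h1 : ∑ i, (m' : ℝ)⁻¹ * (a i : ℝ) * (((b i : Fin n → ℤ) k : ℤ) : ℝ) =
          (m' : ℝ)⁻¹ * ∑ i, (a i : ℝ) * (((b i : Fin n → ℤ) k : ℤ) : ℝ) := by
        rw [Finset.mul_sum]
        exact Finset.sum_congr rfl fun i _ => by ring
      rw [h1]
      field_simp
      ring
    have hΨinj : Function.Injective Ψ := by
      intro a a' h
      exact castV_injective (smul_right_injective (κ → ℝ) (inv_ne_zero hm'R) h)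
    have hΦainj : Function.Injective Φa := by
      intro a a' h
      have h1 : castV (Φa a) = castV (Φa a') := by rw [h]
      rw [hrel, hrel] at h1
      exact hΨinj (hpsi_inj (smul_right_injective (Fin n → ℝ) hmt0 h1))
    set As : Set (κ → ℤ) := {a | Ψ a ∈ Kp} with hAs
    have him1 : Φa '' As =
        {z : Fin n → ℤ | (fun i => (z i : ℝ)) ∈ (((m' * ind : ℕ) : ℝ)) • Pg} := by
      ext z
      constructor
      · rintro ⟨a, ha, rfl⟩
        have h1 : psi (Ψ a) ∈ Pg := (hKmem _).mp ha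
        change castV (Φa a) ∈ (((m' * ind : ℕ) : ℝ)) • Pg
        rw [hrel, hmt]
        exact Set.smul_mem_smul_set h1
      · intro hz
        have hz' : castV z ∈ (((m' * ind : ℕ) : ℝ)) • Pg := hz
        have hfix : homZ z ((m' * ind : ℕ) : ℤ) ∈ fixZ (hatM A τ) :=
          (hmemiff (m' * ind) (Nat.mul_pos hm' hind0) z).mp (subset_affineSpan ℝ _ hz)
        have hy : z - (m' : ℤ) • z₀ ∈ fixZ A := by
          have h1 := mem_fixZ_hatM.mp hfix
          have h2 := mem_fixZ_hatM.mp hz₀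
          have h3 : A.mulVec z = z - ((m' * ind : ℕ) : ℤ) • τ := by
            rw [eq_sub_iff_add_eq]; exact h1
          have h4 : A.mulVec z₀ = z₀ - (ind : ℤ) • τ := by
            rw [eq_sub_iff_add_eq]; exact h2
          rw [mem_fixZ, Matrix.mulVec_sub, Matrix.mulVec_smul, h3, h4, smul_sub, smul_smul]
          push_cast
          abel
        set a : κ → ℤ := fun i => b.repr ⟨z - (m' : ℤ) • z₀, hy⟩ i with ha
        have hza : Φa a = z := by
          have h1 := b.sum_repr ⟨z - (m' : ℤ) • z₀, hy⟩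
          have h2 := congrArg Subtype.val h1
          rw [Submodule.coe_sum] at h2
          simp only [Submodule.coe_smul] at h2
          change (m' : ℤ) • z₀ + ∑ i, a i • (b i : Fin n → ℤ) = z
          rw [h2]
          abel
        refine ⟨a, ?_, hza⟩
        rw [hmt] at hz'
        obtain ⟨x, hx, hxz⟩ := Set.mem_smul_set.mp hz'
        have h5 : ((m' : ℝ) * t) • psi (Ψ a) = ((m' : ℝ) * t) • x := by
          rw [← hrel, hza, hxz]
        have h6 : psi (Ψ a) = x := smul_right_injective (Fin n → ℝ) hmt0 h5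
        change Ψ a ∈ Kp
        rw [hKmem, h6]
        exact hx
    have him2 : Ψ '' As = Kp ∩ (m' : ℝ)⁻¹ • (Submodule.span ℤ (Set.range (Pi.basisFun ℝ κ)) :
        Set (κ → ℝ)) := by
      ext c
      constructor
      · rintro ⟨a, ha, rfl⟩
        refine ⟨ha, Set.smul_mem_smul_set ?_⟩
        rw [SetLike.mem_coe, Module.Basis.mem_span_iff_repr_mem]
        intro i
        exact ⟨a i, by simp [castV]⟩
      · rintro ⟨hc, hc2⟩
        obtain ⟨y, hy, rfl⟩ := Set.mem_smul_set.mp hc2
        rw [SetLike.mem_coe, Module.Basis.mem_span_iff_repr_mem] at hy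
        choose a ha using hy
        have hya : castV a = y := by
          funext i
          have := ha i
          simpa [castV] using this
        refine ⟨a, ?_, ?_⟩
        · change (m' : ℝ)⁻¹ • castV a ∈ Kp
          rw [hya]; exact hc
        · change (m' : ℝ)⁻¹ • castV a = _
          rw [hya]
    rw [← him1, Set.ncard_image_of_injective _ hΦainj, Nat.card_coe_set_eq, ← him2,
      Set.ncard_image_of_injective _ hΨinj]
  -- the limit of lattice point counts
  have hKbdd : Bornology.IsBounded Kp :=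
    ((Set.finite_range pts).isCompact_convexHull ℝ).isBounded
  have hKconv : Convex ℝ Kp := convex_convexHull ℝ _
  have hKmeas : MeasurableSet Kp :=
    ((Set.finite_range pts).isCompact_convexHull ℝ).measurableSet
  have hKfront : MeasureTheory.volume (frontier Kp) = 0 := hKconv.addHaar_frontier _
  have hlim := tendsto_card_div_pow_atTop_volume Kp hKbdd hKmeas hKfront
  obtain ⟨T, hT⟩ := exists_hull_volume pts
  -- integrality
  choose zf hzf using fun σ : κ ⊕ Unit → S => hint (fun j => homZ (σ j).1 1)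
  refine ⟨∑ σ ∈ T, (zf σ).natAbs, ?_⟩
  have hfinal : ((d.factorial : ℝ) * D / (t ^ d * t)) * MeasureTheory.volume.real Kp =
      ((∑ σ ∈ T, (zf σ).natAbs : ℕ) : ℝ) := by
    have h1 : (d.factorial : ℝ) * MeasureTheory.volume.real Kp =
        t ^ (d + 1) * ∑ σ ∈ T, |(Matrix.of fun (j a : κ ⊕ Unit) =>
          p (castV (homZ (σ j).1 1)) a).det| := by
      rw [hdim, hT, Finset.mul_sum]
      refine Finset.sum_congr rfl fun σ _ => ?_
      have h2 : (Matrix.of fun (j i : κ ⊕ Unit) => hom (pts (σ j)) i) =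
          t • (Matrix.of fun (j a : κ ⊕ Unit) => p (castV (homZ (σ j).1 1)) a) := by
        ext j i
        simp only [Matrix.of_apply, Matrix.smul_apply, hpts, hhomq, hom_castV, Pi.smul_apply]
      rw [h2, Matrix.det_smul, abs_mul, abs_pow, abs_of_pos htpos, Fintype.card_sum,
        Fintype.card_unit]
    have h3 : (D : ℝ) * ∑ σ ∈ T, |(Matrix.of fun (j a : κ ⊕ Unit) =>
          p (castV (homZ (σ j).1 1)) a).det| = ((∑ σ ∈ T, (zf σ).natAbs : ℕ) : ℝ) := by
      rw [Finset.mul_sum, Nat.cast_sum]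
      refine Finset.sum_congr rfl fun σ _ => ?_
      have h4 : (0 : ℝ) < D' := by exact_mod_cast hD'pos
      rw [hDD']
      have h5 := hzf σ
      rw [Nat.cast_natAbs, Int.cast_abs, ← h5, abs_mul, abs_of_pos h4]
    calc ((d.factorial : ℝ) * D / (t ^ d * t)) * MeasureTheory.volume.real Kp
        = ((d.factorial : ℝ) * MeasureTheory.volume.real Kp) * D / (t ^ d * t) := by ring
      _ = (D : ℝ) * ∑ σ ∈ T, |(Matrix.of fun (j a : κ ⊕ Unit) =>
          p (castV (homZ (σ j).1 1)) a).det| := by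
          rw [h1]
          generalize (∑ σ ∈ T, |(Matrix.of fun (j a : κ ⊕ Unit) =>
            p (castV (homZ (σ j).1 1)) a).det|) = X
          rw [pow_succ]
          have h6 : t ^ d * t ≠ 0 := mul_ne_zero (pow_ne_zero _ ht0) ht0
          field_simp
      _ = _ := h3
  rw [← hfinal]
  have hlim2 := hlim.const_mul ((d.factorial : ℝ) * D / (t ^ d * t))
  refine hlim2.congr' ?_
  filter_upwards [Filter.eventually_gt_atTop 0] with m' hm'
  rw [← hcount m' hm', hdim]
  have hm'R : (m' : ℝ) ≠ 0 := by exact_mod_cast hm'.ne'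
  generalize ((Set.ncard {z : Fin n → ℤ |
    (fun i => (z i : ℝ)) ∈ (((m' * ind : ℕ) : ℝ)) • Pg} : ℕ) : ℝ) = Y
  have h7 : ((m' * ind : ℕ) : ℝ) = (m' : ℝ) * t := by push_cast; rfl
  rw [h7, mul_pow]
  field_simp

/-- For a finite group acting by affine lattice maps on Z^n and a full-dimensional invariant lattice polytope P, each g gives (dim P^g)! times the lattice-normalized volume of P^g, times det(I−ρ(g)) off the fixed space, divided by ind(P^g): a natural number. -/
theorem result :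
    ∀ (n : ℕ) (G : Type) [Group G] [Fintype G]
      (ρ : G →* Matrix.GeneralLinearGroup (Fin n) ℤ) (t : G → (Fin n → ℤ)),
      (∀ g h : G, t (g * h) = (ρ g).val.mulVec (t h) + t g) →
      ∀ (S : Finset (Fin n → ℤ)) (P : Set (Fin n → ℝ)),
      P = convexHull ℝ ((fun (z : Fin n → ℤ) (i : Fin n) => (z i : ℝ)) '' (S : Set (Fin n → ℤ))) →
      affineSpan ℝ P = ⊤ →
      (∀ g : G, (fun x : Fin n → ℝ =>
          ((ρ g).val.map (Int.cast : ℤ → ℝ)).mulVec x + (fun i => (t g i : ℝ))) '' P = P) →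
      ∀ g : G,
      ∀ Pg : Set (Fin n → ℝ),
      Pg = {x : Fin n → ℝ | x ∈ P ∧
        ((ρ g).val.map (Int.cast : ℤ → ℝ)).mulVec x + (fun i => (t g i : ℝ)) = x} →
      ∀ ind : ℕ,
      ind = sInf {k : ℕ | 0 < k ∧ ∃ z : Fin n → ℤ,
        (fun i => (z i : ℝ)) ∈ affineSpan ℝ ((k : ℝ) • Pg)} →
      ∀ d : ℕ, d = Module.finrank ℝ (affineSpan ℝ Pg).direction →
      ∀ D : ℤ,
      D = Polynomial.eval 1 (Polynomial.divByMonic (ρ g).val.charpoly
            ((Polynomial.X - Polynomial.C (1 : ℤ)) ^ ((ρ g).val.charpoly.rootMultiplicity 1))) →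
      ∃ N : ℕ, Filter.Tendsto
        (fun m : ℕ => (d.factorial : ℝ) *
          ((Set.ncard {z : Fin n → ℤ |
              (fun i => (z i : ℝ)) ∈ (((m * ind : ℕ) : ℝ)) • Pg} : ℝ) /
            (((m * ind : ℕ) : ℝ)) ^ d) * (D : ℝ) / (ind : ℝ))
        Filter.atTop (nhds (N : ℝ)) := by
  intro n G _ _ ρ t ht S P hP haff hinv g Pg hPg ind hind d hd D hD
  exact main_thm (ρ g).val (t g) (Fintype.card G) Fintype.card_pos
    (hatM_pow_eq_one ρ t ht g) S P hP haff (hinv g) Pg hPg ind hind d hd D hD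

end Pool.Agent.S11381
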