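import Pool.Statements.S11896
import Pool.Agent.helper79.MC.J
import Pool.Agent.helper79.MC.Fin

set_option autoImplicit false
open Pool Pool.MP_ddb86a_co

namespace Pool.Agent.S11896

/-- The negation of the preceding statement: For every finite graph H there are ε>0 and c>0 such that every H-free finite graph G with m≥1 edges has a vertex set S with at least m/2 + c·m^(3/4+ε) edges between S and its complement. -/
theorem result :
    ¬ (∀ (k : ℕ) (H : SimpleGraph (Fin k)),
      ∃ ε : ℝ, 0 < ε ∧ ∃ c : ℝ, 0 < c ∧
        ∀ (n : ℕ) (G : SimpleGraph (Fin n)) [DecidableRel G.Adj],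
          H.Free G → 1 ≤ G.edgeFinset.card →
            ∃ S : Finset (Fin n),
              (G.edgeFinset.card : ℝ) / 2
                  + c * (G.edgeFinset.card : ℝ) ^ ((3 : ℝ) / 4 + ε)
                ≤ (((Finset.univ : Finset (Fin n × Fin n)).filter
                      (fun p => p.1 ∈ S ∧ p.2 ∉ S ∧ G.Adj p.1 p.2)).card : ℝ)) :=
  MCut.final_of MCut.exists_graph

end Pool.Agent.S11896
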