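import Pool.Statements.S12751
-- import your own Pool.Agent.* helpers here
import Pool.Agent.helper66.AZD.Main

set_option autoImplicit false
open Pool Pool.MP_0edc6b_gt

namespace Pool.Agent.S12751

open Set Filter Topology Pool.Agent.helper66.AZD in
/-- A subspace satisfying condition (R_2) is almost zero-dimensional. -/
theorem almostZeroDim_of_R2 {X : Type} [TopologicalSpace X] (A : Set X)
    (B : Set (Set ↥A)) (hB1 : ∀ U ∈ B, IsClosed U)
    (hB2 : ∀ p : ↥A, ∀ V ∈ nhds p, ∃ U ∈ B, U ⊆ V ∧ p ∈ interior U)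
    (hB3 : ∀ U ∈ B, ∀ W ∈ B, Disjoint U W → ∃ F : Set ↥A, IsClopen F ∧ U ⊆ F ∧ Disjoint F W) :
    AlmostZeroDim A := by
  intro a ha N hN
  have hN' : (Subtype.val ⁻¹' N : Set ↥A) ∈ 𝓝 (⟨a, ha⟩ : ↥A) :=
    continuous_subtype_val.continuousAt.preimage_mem_nhds hN
  obtain ⟨U, hUB, hUN, haU⟩ := hB2 ⟨a, ha⟩ _ hN'
  obtain ⟨O, hO, hOU⟩ := isOpen_induced_iff.1 (isOpen_interior (s := U))
  refine ⟨Subtype.val '' U, image_subset_iff.2 hUN, O, hO, ?_, ?_, ?_⟩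
  · have : (⟨a, ha⟩ : ↥A) ∈ Subtype.val ⁻¹' O := by rw [hOU]; exact haU
    exact this
  · rintro y ⟨hyO, hyA⟩
    have : (⟨y, hyA⟩ : ↥A) ∈ Subtype.val ⁻¹' O := hyO
    rw [hOU] at this
    exact ⟨⟨y, hyA⟩, interior_subset this, rfl⟩
  · intro z hz hzU
    have hzU' : (⟨z, hz⟩ : ↥A) ∉ U := fun h => hzU ⟨_, h, rfl⟩
    obtain ⟨W, hWB, hWU, hzW⟩ := hB2 ⟨z, hz⟩ Uᶜ ((hB1 U hUB).isOpen_compl.mem_nhds hzU')
    have hUW : Disjoint U W := by
      rw [Set.disjoint_left]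
      exact fun y hyU hyW => hWU hyW hyU
    obtain ⟨F, hF, hUF, hFW⟩ := hB3 U hUB W hWB hUW
    have hzF : (⟨z, hz⟩ : ↥A) ∉ F := fun h => Set.disjoint_left.1 hFW h (interior_subset hzW)
    refine ⟨Subtype.val '' Fᶜ, ⟨_, hzF, rfl⟩, ⟨?_, ?_⟩, ?_⟩
    · rintro x _ ⟨x', hx', rfl⟩
      exact mem_nhds_subtype_iff_nhdsWithin.1 (hF.1.isOpen_compl.mem_nhds hx')
    · intro x hx hxF
      have hxF' : (⟨x, hx⟩ : ↥A) ∈ F := by
        by_contra h
        exact hxF ⟨_, h, rfl⟩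
      have := mem_nhds_subtype_iff_nhdsWithin.1 (hF.2.mem_nhds hxF')
      filter_upwards [this] with y hy hy'
      obtain ⟨y1, hy1, rfl⟩ := hy
      obtain ⟨y2, hy2, h⟩ := hy'
      exact hy2 (Subtype.val_injective h ▸ hy1)
    · rw [Set.disjoint_left]
      rintro _ ⟨y1, hy1, rfl⟩ ⟨y2, hy2, h⟩
      exact hy1 (Subtype.val_injective h ▸ hUF hy2)

/-- If X is separable metric, C ⊆ X countable, and X minus C has a basis of closed sets any two disjoint members of which are separated by a clopen set, then X has dimension at most one (small open neighbourhoods with zero-dimensional frontiers). -/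
theorem result :
  ∀ (X : Type) [MetricSpace X] [TopologicalSpace.SeparableSpace X] (C : Set X),
    C.Countable →
    (∃ B : Set (Set ↥(Cᶜ : Set X)), (∀ U ∈ B, IsClosed U) ∧
      (∀ p : ↥(Cᶜ : Set X), ∀ V ∈ nhds p, ∃ U ∈ B, U ⊆ V ∧ p ∈ interior U) ∧
      (∀ U ∈ B, ∀ W ∈ B, Disjoint U W →
        ∃ F : Set ↥(Cᶜ : Set X), IsClopen F ∧ U ⊆ F ∧ Disjoint F W)) →
    ∀ x : X, ∀ V : Set X, IsOpen V → x ∈ V →
      ∃ U : Set X, IsOpen U ∧ x ∈ U ∧ U ⊆ V ∧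
        ∀ y : ↥(frontier U), ∀ O : Set ↥(frontier U), IsOpen O → y ∈ O →
          ∃ W : Set ↥(frontier U), IsClopen W ∧ y ∈ W ∧ W ⊆ O := by
  intro X _ _ C hC hB x V hV hx
  obtain ⟨B, hB1, hB2, hB3⟩ := hB
  haveI : SecondCountableTopology X := UniformSpace.secondCountable_of_separable X
  obtain ⟨U, hUo, hxU, hUV, hU⟩ := Pool.Agent.helper66.AZD.exists_frontier (A := Cᶜ) (C := C)
    (fun y hy => hy) hC (almostZeroDim_of_R2 Cᶜ B hB1 hB2 hB3) hV hx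
  refine ⟨U, hUo, hxU, hUV, ?_⟩
  intro y O hO hyO
  obtain ⟨δ, hδ, hδO⟩ := Metric.isOpen_iff.1 hO y hyO
  obtain ⟨m, hm⟩ := exists_nat_one_div_lt hδ
  obtain ⟨π, hπ1, hπ2⟩ := hU m
  have hev : ∀ z : ↥(frontier U), ∀ᶠ w in nhds z, π w.1 = π z.1 := fun z =>
    continuous_subtype_val.continuousAt.eventually (hπ1 z.1 z.2)
  refine ⟨Set.ofPred fun z => π z.1 = π y.1, ⟨?_, ?_⟩, rfl, ?_⟩
  · rw [← isOpen_compl_iff, isOpen_iff_mem_nhds]
    intro z hz
    filter_upwards [hev z] with w hw hw'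
    exact hz (hw.symm.trans hw')
  · rw [isOpen_iff_mem_nhds]
    intro z hz
    filter_upwards [hev z] with w hw
    exact hw.trans hz
  · intro z hz
    apply hδO
    have h1 : dist z.1 y.1 < 1 / ((m : ℝ) + 1) := hπ2 z.1 z.2 y.1 y.2 hz
    exact lt_trans h1 hm

end Pool.Agent.S12751
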