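import Pool.Statements.S13727
import Pool.Agent.helper53.DC.Asm
-- import your own Pool.Agent.* helpers here

set_option autoImplicit false
open Pool Pool.MP_a96873_gt

namespace Pool.Agent.S13727

/-- Every finitely generated Coxeter group whose word metric satisfies a Gromov four-point hyperbolicity condition has, for some n, a faithful homomorphism into O⁺(n,1) ≅ Isom(H^n) with discrete image. -/
theorem result :
    ∀ (k : ℕ) (M : CoxeterMatrix (Fin k)),
      (∃ δ : ℕ, ∀ x y z w : M.Group,
        M.toCoxeterSystem.length (x⁻¹ * z) + M.toCoxeterSystem.length (y⁻¹ * w) ≤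
          max (M.toCoxeterSystem.length (x⁻¹ * y) + M.toCoxeterSystem.length (z⁻¹ * w))
              (M.toCoxeterSystem.length (x⁻¹ * w) + M.toCoxeterSystem.length (y⁻¹ * z))
            + 2 * δ) →
      ∃ (n : ℕ) (ρ : M.Group →* Matrix (Fin (n + 1)) (Fin (n + 1)) ℝ),
        Function.Injective ρ ∧
        (∀ g : M.Group,
          (ρ g).transpose
              * Matrix.diagonal (fun i : Fin (n + 1) => if i = 0 then (-1 : ℝ) else 1)
              * ρ g
            = Matrix.diagonal (fun i : Fin (n + 1) => if i = 0 then (-1 : ℝ) else 1)) ∧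
        (∀ g : M.Group, 0 < ρ g 0 0) ∧
        DiscreteTopology (Set.range ρ) := by
  exact Pool.Agent.helper53.DC.final Pool.Agent.helper53.DC.Asm.a53_Z

end Pool.Agent.S13727
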