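import Pool.Statements.S13741
-- import your own Pool.Agent.* helpers here

set_option autoImplicit false
open Pool Pool.MP_abe51b_gt

namespace Pool.Agent.S13741

open scoped ContDiff

/-- the linear form with coefficient vector `a`. -/
noncomputable def lin (a : Fin 3 → ℝ) : (Fin 3 → ℝ) →L[ℝ] ℝ :=
  ∑ i, a i • ContinuousLinearMap.proj (R := ℝ) (φ := fun _ : Fin 3 => ℝ) i

lemma lin_apply (a v : Fin 3 → ℝ) : lin a v = a 0 * v 0 + a 1 * v 1 + a 2 * v 2 := by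
  simp [lin, Fin.sum_univ_three]

lemma second (F : (Fin 3 → ℝ) → ℝ) (D : Fin 3 → (Fin 3 → ℝ) → ℝ)
    (DD : Fin 3 → Fin 3 → (Fin 3 → ℝ) → ℝ)
    (h1 : ∀ y, y ≠ 0 → HasFDerivAt F (lin (fun i => D i y)) y)
    (h2 : ∀ i, ∀ y, y ≠ 0 → HasFDerivAt (D i) (lin (fun j => DD i j y)) y)
    (x : Fin 3 → ℝ) (hx : x ≠ 0) (i j : Fin 3) :
    fderiv ℝ (fderiv ℝ F) x (Pi.single j 1) (Pi.single i 1) = DD i j x := by
  have hev : fderiv ℝ F =ᶠ[nhds x] fun y => lin (fun i => D i y) := by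
    filter_upwards [isOpen_ne.mem_nhds hx] with y hy
    exact (h1 y hy).fderiv
  have h3 : HasFDerivAt (fun y => lin (fun i => D i y))
      (∑ i, (lin (fun j => DD i j x)).smulRight
        (ContinuousLinearMap.proj (R := ℝ) (φ := fun _ : Fin 3 => ℝ) i)) x := by
    unfold lin
    apply HasFDerivAt.fun_sum
    intro i _
    have := (h2 i x hx).smul_const
      (ContinuousLinearMap.proj (R := ℝ) (φ := fun _ : Fin 3 => ℝ) i)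
    simpa [lin] using this
  have h4 := (h3.congr_of_eventuallyEq hev).fderiv
  rw [h4]
  simp only [Fin.sum_univ_three]
  fin_cases i <;> fin_cases j <;> simp [lin_apply]

lemma quot (n : ℕ) {A S : (Fin 3 → ℝ) → ℝ} {a s : Fin 3 → ℝ} {y : Fin 3 → ℝ}
    (hA : HasFDerivAt A (lin a) y) (hS : HasFDerivAt S (lin s) y) (hpos : 0 < S y) :
    HasFDerivAt (fun y => A y / √(S y) ^ n)
      (lin (fun i => (a i * S y - (n : ℝ) / 2 * A y * s i) / √(S y) ^ (n + 2))) y := by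
  have h1 := (hS.sqrt hpos.ne').pow n
  have hsq : √(S y) ≠ 0 := (Real.sqrt_pos.2 hpos).ne'
  have h2 := hA.fun_mul ((hasDerivAt_inv (pow_ne_zero n hsq)).comp_hasFDerivAt y h1)
  refine h2.congr_fderiv ?_
  ext v
  have hS2 : S y = √(S y) ^ 2 := (Real.sq_sqrt hpos.le).symm
  simp only [Function.comp]
  clear h1 h2 hA hS
  generalize √(S y) = T at *
  rcases n with _ | n
  · simp [lin_apply]
    rw [hS2]
    field_simp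
  · simp [lin_apply]
    rw [hS2]
    field_simp
    ring

lemma dcoord (k : Fin 3) (y : Fin 3 → ℝ) :
    HasFDerivAt (fun y : Fin 3 → ℝ => y k) (lin (Pi.single k 1)) y := by
  refine (hasFDerivAt_apply k y).congr_fderiv ?_
  ext v
  fin_cases k <;> simp [lin_apply]

lemma dadd {f g : (Fin 3 → ℝ) → ℝ} {a b y : Fin 3 → ℝ}
    (hf : HasFDerivAt f (lin a) y) (hg : HasFDerivAt g (lin b) y) :
    HasFDerivAt (fun y => f y + g y) (lin (fun i => a i + b i)) y := by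
  refine (hf.fun_add hg).congr_fderiv ?_
  ext v
  simp [lin_apply]
  ring

lemma dsub {f g : (Fin 3 → ℝ) → ℝ} {a b y : Fin 3 → ℝ}
    (hf : HasFDerivAt f (lin a) y) (hg : HasFDerivAt g (lin b) y) :
    HasFDerivAt (fun y => f y - g y) (lin (fun i => a i - b i)) y := by
  refine (hf.fun_sub hg).congr_fderiv ?_
  ext v
  simp [lin_apply]
  ring

lemma dmul {f g : (Fin 3 → ℝ) → ℝ} {a b y : Fin 3 → ℝ}
    (hf : HasFDerivAt f (lin a) y) (hg : HasFDerivAt g (lin b) y) :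
    HasFDerivAt (fun y => f y * g y) (lin (fun i => a i * g y + f y * b i)) y := by
  refine (hf.fun_mul hg).congr_fderiv ?_
  ext v
  simp [lin_apply]
  ring

lemma dcmul (c : ℝ) {f : (Fin 3 → ℝ) → ℝ} {a y : Fin 3 → ℝ}
    (hf : HasFDerivAt f (lin a) y) :
    HasFDerivAt (fun y => c * f y) (lin (fun i => c * a i)) y := by
  refine (hf.const_mul c).congr_fderiv ?_
  ext v
  simp [lin_apply]
  ring

lemma dpow (n : ℕ) {f : (Fin 3 → ℝ) → ℝ} {a y : Fin 3 → ℝ}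
    (hf : HasFDerivAt f (lin a) y) :
    HasFDerivAt (fun y => f y ^ n) (lin (fun i => n * f y ^ (n - 1) * a i)) y := by
  refine (hf.pow n).congr_fderiv ?_
  ext v
  simp [lin_apply]
  ring

/-- squared length -/
def q (y : Fin 3 → ℝ) : ℝ := y 0 ^ 2 + y 1 ^ 2 + y 2 ^ 2

/-- `4 r^2 - z^2` -/
def S (y : Fin 3 → ℝ) : ℝ := 4 * y 0 ^ 2 + 4 * y 1 ^ 2 + 3 * y 2 ^ 2

lemma q_pos {y : Fin 3 → ℝ} (hy : y ≠ 0) : 0 < q y := by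
  unfold q
  by_contra h
  push Not at h
  apply hy
  have h0 : y 0 = 0 := by nlinarith [sq_nonneg (y 0), sq_nonneg (y 1), sq_nonneg (y 2)]
  have h1 : y 1 = 0 := by nlinarith [sq_nonneg (y 0), sq_nonneg (y 1), sq_nonneg (y 2)]
  have h2 : y 2 = 0 := by nlinarith [sq_nonneg (y 0), sq_nonneg (y 1), sq_nonneg (y 2)]
  ext i
  fin_cases i
  · exact h0
  · exact h1
  · exact h2

lemma S_pos {y : Fin 3 → ℝ} (hy : y ≠ 0) : 0 < S y := by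
  have := q_pos hy
  unfold q at this
  unfold S
  nlinarith [sq_nonneg (y 0), sq_nonneg (y 1), sq_nonneg (y 2)]

lemma dq (y : Fin 3 → ℝ) : HasFDerivAt q (lin (fun i => 2 * y i)) y := by
  have := dadd (dadd (dpow 2 (dcoord 0 y)) (dpow 2 (dcoord 1 y))) (dpow 2 (dcoord 2 y))
  refine this.congr_fderiv ?_
  congr 1
  ext i
  fin_cases i <;> simp

lemma dS (y : Fin 3 → ℝ) :
    HasFDerivAt S (lin ![8 * y 0, 8 * y 1, 6 * y 2]) y := by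
  have := dadd (dadd (dcmul 4 (dpow 2 (dcoord 0 y))) (dcmul 4 (dpow 2 (dcoord 1 y))))
    (dcmul 3 (dpow 2 (dcoord 2 y)))
  refine this.congr_fderiv ?_
  congr 1
  ext i
  fin_cases i <;> simp <;> ring

lemma dmon (c : ℝ) (a b d : ℕ) (y : Fin 3 → ℝ) :
    HasFDerivAt (fun y : Fin 3 → ℝ => c * (y 0 ^ a * y 1 ^ b * y 2 ^ d))
      (lin ![c * (a * y 0 ^ (a - 1) * y 1 ^ b * y 2 ^ d),
        c * (b * y 0 ^ a * y 1 ^ (b - 1) * y 2 ^ d),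
        c * (d * y 0 ^ a * y 1 ^ b * y 2 ^ (d - 1))]) y := by
  have h := dcmul c (dmul (dmul (dpow a (dcoord 0 y)) (dpow b (dcoord 1 y)))
    (dpow d (dcoord 2 y)))
  refine h.congr_fderiv ?_
  congr 1
  ext i
  fin_cases i
  all_goals
    simp [-mul_eq_mul_left_iff, -mul_eq_mul_right_iff]
    try ring

def A (y : Fin 3 → ℝ) : ℝ :=
  (6) * (y 0 ^ 4 * y 1 ^ 0 * y 2 ^ 0) + (12) * (y 0 ^ 2 * y 1 ^ 2 * y 2 ^ 0) + (6) * (y 0 ^ 2 * y 1 ^ 0 * y 2 ^ 2) + (6) * (y 0 ^ 0 * y 1 ^ 4 * y 2 ^ 0) + (6) * (y 0 ^ 0 * y 1 ^ 2 * y 2 ^ 2) + (1) * (y 0 ^ 0 * y 1 ^ 0 * y 2 ^ 4)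

lemma dA (y : Fin 3 → ℝ) :
    HasFDerivAt A (lin ![
      24 * y 0 ^ 3 + 24 * y 0 * y 1 ^ 2 + 12 * y 0 * y 2 ^ 2,
      24 * y 0 ^ 2 * y 1 + 24 * y 1 ^ 3 + 12 * y 1 * y 2 ^ 2,
      12 * y 0 ^ 2 * y 2 + 12 * y 1 ^ 2 * y 2 + 4 * y 2 ^ 3]) y := by
  have h := dadd (dadd (dadd (dadd (dadd (dmon (6) 4 0 0 y) (dmon (12) 2 2 0 y)) (dmon (6) 2 0 2 y)) (dmon (6) 0 4 0 y)) (dmon (6) 0 2 2 y)) (dmon (1) 0 0 4 y)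
  refine h.congr_fderiv ?_
  congr 1
  ext i
  fin_cases i <;> simp <;> ring

def D0 (y : Fin 3 → ℝ) : ℝ :=
  (24) * (y 0 ^ 5 * y 1 ^ 0 * y 2 ^ 0) + (48) * (y 0 ^ 3 * y 1 ^ 2 * y 2 ^ 0) + (48) * (y 0 ^ 3 * y 1 ^ 0 * y 2 ^ 2) + (24) * (y 0 ^ 1 * y 1 ^ 4 * y 2 ^ 0) + (48) * (y 0 ^ 1 * y 1 ^ 2 * y 2 ^ 2) + (24) * (y 0 ^ 1 * y 1 ^ 0 * y 2 ^ 4)

lemma dD0 (y : Fin 3 → ℝ) :
    HasFDerivAt D0 (lin ![
      120 * y 0 ^ 4 + 144 * y 0 ^ 2 * y 1 ^ 2 + 144 * y 0 ^ 2 * y 2 ^ 2 + 24 * y 1 ^ 4 + 48 * y 1 ^ 2 * y 2 ^ 2 + 24 * y 2 ^ 4,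
      96 * y 0 ^ 3 * y 1 + 96 * y 0 * y 1 ^ 3 + 96 * y 0 * y 1 * y 2 ^ 2,
      96 * y 0 ^ 3 * y 2 + 96 * y 0 * y 1 ^ 2 * y 2 + 96 * y 0 * y 2 ^ 3]) y := by
  have h := dadd (dadd (dadd (dadd (dadd (dmon (24) 5 0 0 y) (dmon (48) 3 2 0 y)) (dmon (48) 3 0 2 y)) (dmon (24) 1 4 0 y)) (dmon (48) 1 2 2 y)) (dmon (24) 1 0 4 y)
  refine h.congr_fderiv ?_
  congr 1
  ext i
  fin_cases i <;> simp <;> ring

def D1 (y : Fin 3 → ℝ) : ℝ :=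
  (24) * (y 0 ^ 4 * y 1 ^ 1 * y 2 ^ 0) + (48) * (y 0 ^ 2 * y 1 ^ 3 * y 2 ^ 0) + (48) * (y 0 ^ 2 * y 1 ^ 1 * y 2 ^ 2) + (24) * (y 0 ^ 0 * y 1 ^ 5 * y 2 ^ 0) + (48) * (y 0 ^ 0 * y 1 ^ 3 * y 2 ^ 2) + (24) * (y 0 ^ 0 * y 1 ^ 1 * y 2 ^ 4)

lemma dD1 (y : Fin 3 → ℝ) :
    HasFDerivAt D1 (lin ![
      96 * y 0 ^ 3 * y 1 + 96 * y 0 * y 1 ^ 3 + 96 * y 0 * y 1 * y 2 ^ 2,
      24 * y 0 ^ 4 + 144 * y 0 ^ 2 * y 1 ^ 2 + 48 * y 0 ^ 2 * y 2 ^ 2 + 120 * y 1 ^ 4 + 144 * y 1 ^ 2 * y 2 ^ 2 + 24 * y 2 ^ 4,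
      96 * y 0 ^ 2 * y 1 * y 2 + 96 * y 1 ^ 3 * y 2 + 96 * y 1 * y 2 ^ 3]) y := by
  have h := dadd (dadd (dadd (dadd (dadd (dmon (24) 4 1 0 y) (dmon (48) 2 3 0 y)) (dmon (48) 2 1 2 y)) (dmon (24) 0 5 0 y)) (dmon (48) 0 3 2 y)) (dmon (24) 0 1 4 y)
  refine h.congr_fderiv ?_
  congr 1
  ext i
  fin_cases i <;> simp <;> ring

def D2 (y : Fin 3 → ℝ) : ℝ :=
  (-6) * (y 0 ^ 4 * y 1 ^ 0 * y 2 ^ 1) + (-12) * (y 0 ^ 2 * y 1 ^ 2 * y 2 ^ 1) + (-2) * (y 0 ^ 2 * y 1 ^ 0 * y 2 ^ 3) + (-6) * (y 0 ^ 0 * y 1 ^ 4 * y 2 ^ 1) + (-2) * (y 0 ^ 0 * y 1 ^ 2 * y 2 ^ 3) + (3) * (y 0 ^ 0 * y 1 ^ 0 * y 2 ^ 5)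

lemma dD2 (y : Fin 3 → ℝ) :
    HasFDerivAt D2 (lin ![
      -24 * y 0 ^ 3 * y 2 - 24 * y 0 * y 1 ^ 2 * y 2 - 4 * y 0 * y 2 ^ 3,
      -24 * y 0 ^ 2 * y 1 * y 2 - 24 * y 1 ^ 3 * y 2 - 4 * y 1 * y 2 ^ 3,
      -6 * y 0 ^ 4 - 12 * y 0 ^ 2 * y 1 ^ 2 - 6 * y 0 ^ 2 * y 2 ^ 2 - 6 * y 1 ^ 4 - 6 * y 1 ^ 2 * y 2 ^ 2 + 15 * y 2 ^ 4]) y := by
  have h := dadd (dadd (dadd (dadd (dadd (dmon (-6) 4 0 1 y) (dmon (-12) 2 2 1 y)) (dmon (-2) 2 0 3 y)) (dmon (-6) 0 4 1 y)) (dmon (-2) 0 2 3 y)) (dmon (3) 0 0 5 y)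
  refine h.congr_fderiv ?_
  congr 1
  ext i
  fin_cases i <;> simp <;> ring

def H00 (y : Fin 3 → ℝ) : ℝ :=
  (96) * (y 0 ^ 4 * y 1 ^ 2 * y 2 ^ 0) + (-24) * (y 0 ^ 4 * y 1 ^ 0 * y 2 ^ 2) + (192) * (y 0 ^ 2 * y 1 ^ 4 * y 2 ^ 0) + (240) * (y 0 ^ 2 * y 1 ^ 2 * y 2 ^ 2) + (48) * (y 0 ^ 2 * y 1 ^ 0 * y 2 ^ 4) + (96) * (y 0 ^ 0 * y 1 ^ 6 * y 2 ^ 0) + (264) * (y 0 ^ 0 * y 1 ^ 4 * y 2 ^ 2) + (240) * (y 0 ^ 0 * y 1 ^ 2 * y 2 ^ 4) + (72) * (y 0 ^ 0 * y 1 ^ 0 * y 2 ^ 6)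

def H01 (y : Fin 3 → ℝ) : ℝ :=
  (-96) * (y 0 ^ 5 * y 1 ^ 1 * y 2 ^ 0) + (-192) * (y 0 ^ 3 * y 1 ^ 3 * y 2 ^ 0) + (-288) * (y 0 ^ 3 * y 1 ^ 1 * y 2 ^ 2) + (-96) * (y 0 ^ 1 * y 1 ^ 5 * y 2 ^ 0) + (-288) * (y 0 ^ 1 * y 1 ^ 3 * y 2 ^ 2) + (-192) * (y 0 ^ 1 * y 1 ^ 1 * y 2 ^ 4)

def H02 (y : Fin 3 → ℝ) : ℝ :=
  (24) * (y 0 ^ 5 * y 1 ^ 0 * y 2 ^ 1) + (48) * (y 0 ^ 3 * y 1 ^ 2 * y 2 ^ 1) + (-48) * (y 0 ^ 3 * y 1 ^ 0 * y 2 ^ 3) + (24) * (y 0 ^ 1 * y 1 ^ 4 * y 2 ^ 1) + (-48) * (y 0 ^ 1 * y 1 ^ 2 * y 2 ^ 3) + (-72) * (y 0 ^ 1 * y 1 ^ 0 * y 2 ^ 5)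

def H11 (y : Fin 3 → ℝ) : ℝ :=
  (96) * (y 0 ^ 6 * y 1 ^ 0 * y 2 ^ 0) + (192) * (y 0 ^ 4 * y 1 ^ 2 * y 2 ^ 0) + (264) * (y 0 ^ 4 * y 1 ^ 0 * y 2 ^ 2) + (96) * (y 0 ^ 2 * y 1 ^ 4 * y 2 ^ 0) + (240) * (y 0 ^ 2 * y 1 ^ 2 * y 2 ^ 2) + (240) * (y 0 ^ 2 * y 1 ^ 0 * y 2 ^ 4) + (-24) * (y 0 ^ 0 * y 1 ^ 4 * y 2 ^ 2) + (48) * (y 0 ^ 0 * y 1 ^ 2 * y 2 ^ 4) + (72) * (y 0 ^ 0 * y 1 ^ 0 * y 2 ^ 6)

def H12 (y : Fin 3 → ℝ) : ℝ :=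
  (24) * (y 0 ^ 4 * y 1 ^ 1 * y 2 ^ 1) + (48) * (y 0 ^ 2 * y 1 ^ 3 * y 2 ^ 1) + (-48) * (y 0 ^ 2 * y 1 ^ 1 * y 2 ^ 3) + (24) * (y 0 ^ 0 * y 1 ^ 5 * y 2 ^ 1) + (-48) * (y 0 ^ 0 * y 1 ^ 3 * y 2 ^ 3) + (-72) * (y 0 ^ 0 * y 1 ^ 1 * y 2 ^ 5)

def H22 (y : Fin 3 → ℝ) : ℝ :=
  (-24) * (y 0 ^ 6 * y 1 ^ 0 * y 2 ^ 0) + (-72) * (y 0 ^ 4 * y 1 ^ 2 * y 2 ^ 0) + (48) * (y 0 ^ 4 * y 1 ^ 0 * y 2 ^ 2) + (-72) * (y 0 ^ 2 * y 1 ^ 4 * y 2 ^ 0) + (96) * (y 0 ^ 2 * y 1 ^ 2 * y 2 ^ 2) + (72) * (y 0 ^ 2 * y 1 ^ 0 * y 2 ^ 4) + (-24) * (y 0 ^ 0 * y 1 ^ 6 * y 2 ^ 0) + (48) * (y 0 ^ 0 * y 1 ^ 4 * y 2 ^ 2) + (72) * (y 0 ^ 0 * y 1 ^ 2 * y 2 ^ 4)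

def Q (y : Fin 3 → ℝ) : ℝ :=
  (1) * (y 0 ^ 3 * y 1 ^ 0 * y 2 ^ 0) + (-3) * (y 0 ^ 1 * y 1 ^ 2 * y 2 ^ 0)

lemma dQ (y : Fin 3 → ℝ) :
    HasFDerivAt Q (lin ![
      3 * y 0 ^ 2 - 3 * y 1 ^ 2,
      -6 * y 0 * y 1,
      0]) y := by
  have h := dadd (dmon (1) 3 0 0 y) (dmon (-3) 1 2 0 y)
  refine h.congr_fderiv ?_
  congr 1
  ext i
  fin_cases i <;> simp <;> ring

def E0 (y : Fin 3 → ℝ) : ℝ :=
  (1) * (y 0 ^ 4 * y 1 ^ 0 * y 2 ^ 0) + (6) * (y 0 ^ 2 * y 1 ^ 2 * y 2 ^ 0) + (3) * (y 0 ^ 2 * y 1 ^ 0 * y 2 ^ 2) + (-3) * (y 0 ^ 0 * y 1 ^ 4 * y 2 ^ 0) + (-3) * (y 0 ^ 0 * y 1 ^ 2 * y 2 ^ 2)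

lemma dE0 (y : Fin 3 → ℝ) :
    HasFDerivAt E0 (lin ![
      4 * y 0 ^ 3 + 12 * y 0 * y 1 ^ 2 + 6 * y 0 * y 2 ^ 2,
      12 * y 0 ^ 2 * y 1 - 12 * y 1 ^ 3 - 6 * y 1 * y 2 ^ 2,
      6 * y 0 ^ 2 * y 2 - 6 * y 1 ^ 2 * y 2]) y := by
  have h := dadd (dadd (dadd (dadd (dmon (1) 4 0 0 y) (dmon (6) 2 2 0 y)) (dmon (3) 2 0 2 y)) (dmon (-3) 0 4 0 y)) (dmon (-3) 0 2 2 y)
  refine h.congr_fderiv ?_
  congr 1
  ext i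
  fin_cases i <;> simp <;> ring

def E1 (y : Fin 3 → ℝ) : ℝ :=
  (-8) * (y 0 ^ 3 * y 1 ^ 1 * y 2 ^ 0) + (-6) * (y 0 ^ 1 * y 1 ^ 1 * y 2 ^ 2)

lemma dE1 (y : Fin 3 → ℝ) :
    HasFDerivAt E1 (lin ![
      -24 * y 0 ^ 2 * y 1 - 6 * y 1 * y 2 ^ 2,
      -8 * y 0 ^ 3 - 6 * y 0 * y 2 ^ 2,
      -12 * y 0 * y 1 * y 2]) y := by
  have h := dadd (dmon (-8) 3 1 0 y) (dmon (-6) 1 1 2 y)
  refine h.congr_fderiv ?_
  congr 1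
  ext i
  fin_cases i <;> simp <;> ring

def E2 (y : Fin 3 → ℝ) : ℝ :=
  (-2) * (y 0 ^ 3 * y 1 ^ 0 * y 2 ^ 1) + (6) * (y 0 ^ 1 * y 1 ^ 2 * y 2 ^ 1)

lemma dE2 (y : Fin 3 → ℝ) :
    HasFDerivAt E2 (lin ![
      -6 * y 0 ^ 2 * y 2 + 6 * y 1 ^ 2 * y 2,
      12 * y 0 * y 1 * y 2,
      -2 * y 0 ^ 3 + 6 * y 0 * y 1 ^ 2]) y := by
  have h := dadd (dmon (-2) 3 0 1 y) (dmon (6) 1 2 1 y)
  refine h.congr_fderiv ?_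
  congr 1
  ext i
  fin_cases i <;> simp <;> ring

def K00 (y : Fin 3 → ℝ) : ℝ :=
  (-8) * (y 0 ^ 3 * y 1 ^ 2 * y 2 ^ 0) + (-2) * (y 0 ^ 3 * y 1 ^ 0 * y 2 ^ 2) + (24) * (y 0 ^ 1 * y 1 ^ 4 * y 2 ^ 0) + (30) * (y 0 ^ 1 * y 1 ^ 2 * y 2 ^ 2) + (6) * (y 0 ^ 1 * y 1 ^ 0 * y 2 ^ 4)

def K01 (y : Fin 3 → ℝ) : ℝ :=
  (8) * (y 0 ^ 4 * y 1 ^ 1 * y 2 ^ 0) + (-24) * (y 0 ^ 2 * y 1 ^ 3 * y 2 ^ 0) + (-6) * (y 0 ^ 2 * y 1 ^ 1 * y 2 ^ 2) + (-6) * (y 0 ^ 0 * y 1 ^ 3 * y 2 ^ 2) + (-6) * (y 0 ^ 0 * y 1 ^ 1 * y 2 ^ 4)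

def K02 (y : Fin 3 → ℝ) : ℝ :=
  (2) * (y 0 ^ 4 * y 1 ^ 0 * y 2 ^ 1) + (-24) * (y 0 ^ 2 * y 1 ^ 2 * y 2 ^ 1) + (-6) * (y 0 ^ 2 * y 1 ^ 0 * y 2 ^ 3) + (6) * (y 0 ^ 0 * y 1 ^ 4 * y 2 ^ 1) + (6) * (y 0 ^ 0 * y 1 ^ 2 * y 2 ^ 3)

def K11 (y : Fin 3 → ℝ) : ℝ :=
  (-8) * (y 0 ^ 5 * y 1 ^ 0 * y 2 ^ 0) + (24) * (y 0 ^ 3 * y 1 ^ 2 * y 2 ^ 0) + (-14) * (y 0 ^ 3 * y 1 ^ 0 * y 2 ^ 2) + (18) * (y 0 ^ 1 * y 1 ^ 2 * y 2 ^ 2) + (-6) * (y 0 ^ 1 * y 1 ^ 0 * y 2 ^ 4)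

def K12 (y : Fin 3 → ℝ) : ℝ :=
  (20) * (y 0 ^ 3 * y 1 ^ 1 * y 2 ^ 1) + (-12) * (y 0 ^ 1 * y 1 ^ 3 * y 2 ^ 1) + (12) * (y 0 ^ 1 * y 1 ^ 1 * y 2 ^ 3)

def K22 (y : Fin 3 → ℝ) : ℝ :=
  (-2) * (y 0 ^ 5 * y 1 ^ 0 * y 2 ^ 0) + (4) * (y 0 ^ 3 * y 1 ^ 2 * y 2 ^ 0) + (6) * (y 0 ^ 3 * y 1 ^ 0 * y 2 ^ 2) + (6) * (y 0 ^ 1 * y 1 ^ 4 * y 2 ^ 0) + (-18) * (y 0 ^ 1 * y 1 ^ 2 * y 2 ^ 2)

def HH : Fin 3 → Fin 3 → (Fin 3 → ℝ) → ℝ := ![![H00, H01, H02], ![H01, H11, H12], ![H02, H12, H22]]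
def KK : Fin 3 → Fin 3 → (Fin 3 → ℝ) → ℝ := ![![K00, K01, K02], ![K01, K11, K12], ![K02, K12, K22]]
def DN : Fin 3 → (Fin 3 → ℝ) → ℝ := ![D0, D1, D2]
def EN : Fin 3 → (Fin 3 → ℝ) → ℝ := ![E0, E1, E2]

lemma dF (y : Fin 3 → ℝ) (hy : y ≠ 0) :
    HasFDerivAt (fun y => A y / √(S y) ^ 3) (lin (fun i => DN i y / √(S y) ^ 5)) y := by
  refine (quot 3 (dA y) (dS y) (S_pos hy)).congr_fderiv ?_
  congr 1
  ext i
  fin_cases i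
  all_goals
    simp [DN]
    congr 1
    simp only [D0, D1, D2, A, S]
    ring

lemma dDN (i : Fin 3) (y : Fin 3 → ℝ) (hy : y ≠ 0) :
    HasFDerivAt (fun y => DN i y / √(S y) ^ 5) (lin (fun j => HH i j y / √(S y) ^ 7)) y := by
  fin_cases i
  · refine (quot 5 (dD0 y) (dS y) (S_pos hy)).congr_fderiv ?_
    congr 1
    ext j
    fin_cases j
    all_goals
      simp [HH]
      congr 1
      simp only [D0, S, H00, H01, H02]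
      ring
  · refine (quot 5 (dD1 y) (dS y) (S_pos hy)).congr_fderiv ?_
    congr 1
    ext j
    fin_cases j
    all_goals
      simp [HH]
      congr 1
      simp only [D1, S, H01, H11, H12]
      ring
  · refine (quot 5 (dD2 y) (dS y) (S_pos hy)).congr_fderiv ?_
    congr 1
    ext j
    fin_cases j
    all_goals
      simp [HH]
      congr 1
      simp only [D2, S, H02, H12, H22]
      ring

lemma dG (y : Fin 3 → ℝ) (hy : y ≠ 0) :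
    HasFDerivAt (fun y => Q y / √(q y) ^ 2) (lin (fun i => EN i y / √(q y) ^ 4)) y := by
  refine (quot 2 (dQ y) (dq y) (q_pos hy)).congr_fderiv ?_
  congr 1
  ext i
  fin_cases i
  all_goals
    simp [EN]
    congr 1
    simp only [E0, E1, E2, Q, q]
    ring

lemma dEN (i : Fin 3) (y : Fin 3 → ℝ) (hy : y ≠ 0) :
    HasFDerivAt (fun y => EN i y / √(q y) ^ 4) (lin (fun j => KK i j y / √(q y) ^ 6)) y := by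
  fin_cases i
  · refine (quot 4 (dE0 y) (dq y) (q_pos hy)).congr_fderiv ?_
    congr 1
    ext j
    fin_cases j
    all_goals
      simp [KK]
      congr 1
      simp only [E0, q, K00, K01, K02]
      ring
  · refine (quot 4 (dE1 y) (dq y) (q_pos hy)).congr_fderiv ?_
    congr 1
    ext j
    fin_cases j
    all_goals
      simp [KK]
      congr 1
      simp only [E1, q, K01, K11, K12]
      ring
  · refine (quot 4 (dE2 y) (dq y) (q_pos hy)).congr_fderiv ?_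
    congr 1
    ext j
    fin_cases j
    all_goals
      simp [KK]
      congr 1
      simp only [E2, q, K02, K12, K22]
      ring

/-- There is a 1-homogeneous function F on R^3, analytic off 0 and not linear, and a 1-homogeneous G, C^2 off 0, such that the mixed curvature (sigma_2 of Hessians) of F and G vanishes on the unit sphere while the curvature of G does not vanish identically there. -/
theorem result :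
    ∀ R : ((Fin 3 → ℝ) → ℝ) → (Fin 3 → ℝ) → ℝ,
      (R = fun F x => (1 / 2 : ℝ) * ∑ i : Fin 3, ∑ j : Fin 3,
          (fderiv ℝ (fderiv ℝ F) x (Pi.single i 1) (Pi.single i 1) *
              fderiv ℝ (fderiv ℝ F) x (Pi.single j 1) (Pi.single j 1) -
            fderiv ℝ (fderiv ℝ F) x (Pi.single i 1) (Pi.single j 1) *
              fderiv ℝ (fderiv ℝ F) x (Pi.single j 1) (Pi.single i 1))) →
      ∃ F : (Fin 3 → ℝ) → ℝ,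
        (∀ t : ℝ, 0 < t → ∀ x : Fin 3 → ℝ, F (t • x) = t * F x) ∧
        AnalyticOnNhd ℝ F {x : Fin 3 → ℝ | x ≠ 0} ∧
        (¬ ∃ a : Fin 3 → ℝ, ∀ x : Fin 3 → ℝ, F x = ∑ i : Fin 3, a i * x i) ∧
        ∃ G : (Fin 3 → ℝ) → ℝ,
          (∀ t : ℝ, 0 < t → ∀ x : Fin 3 → ℝ, G (t • x) = t * G x) ∧
          ContDiffOn ℝ 2 G {x : Fin 3 → ℝ | x ≠ 0} ∧
          (∀ x : Fin 3 → ℝ, ∑ i : Fin 3, x i ^ 2 = 1 →
            R (fun y => F y + G y) x - R F x - R G x = 0) ∧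
          ∃ x : Fin 3 → ℝ, ∑ i : Fin 3, x i ^ 2 = 1 ∧ R G x ≠ 0 := by
  intro R hR
  refine ⟨fun y => A y / √(S y) ^ 3, ?_, ?_, ?_, fun y => Q y / √(q y) ^ 2, ?_, ?_, ?_, ?_⟩
  · intro t ht x
    have h1 : A (t • x) = t ^ 4 * A x := by
      simp only [A, Pi.smul_apply, smul_eq_mul]
      ring
    have h2 : √(S (t • x)) = t * √(S x) := by
      have : S (t • x) = t ^ 2 * S x := by
        simp only [S, Pi.smul_apply, smul_eq_mul]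
        ring
      rw [this, Real.sqrt_mul (by positivity), Real.sqrt_sq ht.le]
    simp only [h1, h2]
    by_cases h3 : √(S x) = 0
    · simp [h3]
    · field_simp
  · intro x hx
    have hx' : x ≠ 0 := hx
    have hS : ContDiffAt ℝ ω (fun y : Fin 3 → ℝ => √(S y)) x := by
      have h1 : ContDiffAt ℝ ω S x := by
        unfold S
        fun_prop
      exact h1.sqrt (S_pos hx').ne'
    have hA : ContDiffAt ℝ ω A x := by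
      unfold A
      fun_prop
    exact (hA.div (hS.pow 3) (pow_ne_zero 3 (Real.sqrt_pos.2 (S_pos hx')).ne')).analyticAt
  · rintro ⟨a, ha⟩
    have h1 := ha ![0, 0, 1]
    have h2 := ha ![0, 0, -1]
    simp [A, S, Fin.sum_univ_three] at h1 h2
    have h3 : (0 : ℝ) < (√3 ^ 3)⁻¹ := by positivity
    have h4 : ((-1 : ℝ)) ^ 4 / √3 ^ 3 = (√3 ^ 3)⁻¹ := by
      rw [div_eq_mul_inv]
      norm_num
    rw [h4] at h2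
    linarith
  · intro t ht x
    have h1 : Q (t • x) = t ^ 3 * Q x := by
      simp only [Q, Pi.smul_apply, smul_eq_mul]
      ring
    have h2 : √(q (t • x)) = t * √(q x) := by
      have : q (t • x) = t ^ 2 * q x := by
        simp only [q, Pi.smul_apply, smul_eq_mul]
        ring
      rw [this, Real.sqrt_mul (by positivity), Real.sqrt_sq ht.le]
    simp only [h1, h2]
    by_cases h3 : √(q x) = 0
    · simp [h3]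
    · field_simp
  · intro x hx
    have hx' : x ≠ 0 := hx
    apply ContDiffAt.contDiffWithinAt
    have hS : ContDiffAt ℝ 2 (fun y : Fin 3 → ℝ => √(q y)) x := by
      have h1 : ContDiffAt ℝ 2 q x := by
        unfold q
        fun_prop
      exact h1.sqrt (q_pos hx').ne'
    have hA : ContDiffAt ℝ 2 Q x := by
      unfold Q
      fun_prop
    exact hA.div (hS.pow 2) (pow_ne_zero 2 (Real.sqrt_pos.2 (q_pos hx')).ne')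
  · intro x hx
    have hx' : x ≠ 0 := by
      rintro rfl
      simp at hx
    have hF := second (fun y => A y / √(S y) ^ 3) (fun i y => DN i y / √(S y) ^ 5)
      (fun i j y => HH i j y / √(S y) ^ 7) dF dDN x hx'
    have hG := second (fun y => Q y / √(q y) ^ 2) (fun i y => EN i y / √(q y) ^ 4)
      (fun i j y => KK i j y / √(q y) ^ 6) dG dEN x hx'
    have hFG := second (fun y => A y / √(S y) ^ 3 + Q y / √(q y) ^ 2)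
      (fun i y => DN i y / √(S y) ^ 5 + EN i y / √(q y) ^ 4)
      (fun i j y => HH i j y / √(S y) ^ 7 + KK i j y / √(q y) ^ 6)
      (fun y hy => dadd (dF y hy) (dG y hy)) (fun i y hy => dadd (dDN i y hy) (dEN i y hy)) x hx'
    rw [hR]
    simp only [Fin.sum_univ_three, hF, hG, hFG]
    simp only [HH, KK]
    simp only [div_eq_mul_inv]
    generalize (√(S x) ^ 7)⁻¹ = u
    generalize (√(q x) ^ 6)⁻¹ = v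
    simp [H00, H01, H02, H11, H12, H22, K00, K01, K02, K11, K12, K22]
    ring
  · refine ⟨![1, 0, 0], by simp [Fin.sum_univ_three], ?_⟩
    have hx' : (![1, 0, 0] : Fin 3 → ℝ) ≠ 0 := by
      intro h
      have := congrFun h 0
      simp at this
    have hG := second (fun y => Q y / √(q y) ^ 2) (fun i y => EN i y / √(q y) ^ 4)
      (fun i j y => KK i j y / √(q y) ^ 6) dG dEN _ hx'
    rw [hR]
    simp only [Fin.sum_univ_three, hG]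
    simp [KK, K00, K01, K02, K11, K12, K22, q]
    norm_num

end Pool.Agent.S13741
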