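import Pool.Statements.S13780
import Pool.Agent.helper77.B2.STe
import Pool.Agent.helper68.B2.MA3

set_option autoImplicit false
open Pool Pool.MP_b2b189_gt

namespace Pool.Agent.S13780

/-- The negation of the preceding statement: There exist two smooth indefinite (nondegenerate, not definite) metrics on the 3-sphere, given in stereographic charts, whose Christoffel symbols differ by the Weyl projective term (same unparametrized geodesics), and which are not constant multiples of each other. -/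
theorem result :
    ¬ (∃ g₁ g₂ h₁ h₂ : (Fin 3 → ℝ) → Matrix (Fin 3) (Fin 3) ℝ,
    (∀ i j, ContDiff ℝ (⊤ : ℕ∞) (fun x => g₁ x i j)) ∧
    (∀ i j, ContDiff ℝ (⊤ : ℕ∞) (fun x => g₂ x i j)) ∧
    (∀ i j, ContDiff ℝ (⊤ : ℕ∞) (fun y => h₁ y i j)) ∧
    (∀ i j, ContDiff ℝ (⊤ : ℕ∞) (fun y => h₂ y i j)) ∧
    (∀ x, (g₁ x).IsSymm ∧ (g₁ x).det ≠ 0 ∧ ¬ (g₁ x).PosDef ∧ ¬ (-g₁ x).PosDef) ∧
    (∀ x, (g₂ x).IsSymm ∧ (g₂ x).det ≠ 0 ∧ ¬ (g₂ x).PosDef ∧ ¬ (-g₂ x).PosDef) ∧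
    (∀ y, (h₁ y).IsSymm ∧ (h₁ y).det ≠ 0 ∧ ¬ (h₁ y).PosDef ∧ ¬ (-h₁ y).PosDef) ∧
    (∀ y, (h₂ y).IsSymm ∧ (h₂ y).det ≠ 0 ∧ ¬ (h₂ y).PosDef ∧ ¬ (-h₂ y).PosDef) ∧
    (∀ y : Fin 3 → ℝ, y ≠ 0 → ∀ a b : Fin 3,
      h₁ y a b = ∑ c : Fin 3, ∑ d : Fin 3,
        ((if c = a then (∑ i : Fin 3, y i ^ 2)⁻¹ else 0) - 2 * y c * y a * ((∑ i : Fin 3, y i ^ 2)⁻¹) ^ 2) *
        g₁ ((∑ i : Fin 3, y i ^ 2)⁻¹ • y) c d *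
        ((if d = b then (∑ i : Fin 3, y i ^ 2)⁻¹ else 0) - 2 * y d * y b * ((∑ i : Fin 3, y i ^ 2)⁻¹) ^ 2)) ∧
    (∀ y : Fin 3 → ℝ, y ≠ 0 → ∀ a b : Fin 3,
      h₂ y a b = ∑ c : Fin 3, ∑ d : Fin 3,
        ((if c = a then (∑ i : Fin 3, y i ^ 2)⁻¹ else 0) - 2 * y c * y a * ((∑ i : Fin 3, y i ^ 2)⁻¹) ^ 2) *
        g₂ ((∑ i : Fin 3, y i ^ 2)⁻¹ • y) c d *
        ((if d = b then (∑ i : Fin 3, y i ^ 2)⁻¹ else 0) - 2 * y d * y b * ((∑ i : Fin 3, y i ^ 2)⁻¹) ^ 2)) ∧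
    (∀ Γ₁ Γ₂ : (Fin 3 → ℝ) → Fin 3 → Fin 3 → Fin 3 → ℝ,
      (∀ x i j k, Γ₁ x i j k = (1 / 2 : ℝ) * ∑ l : Fin 3, (g₁ x)⁻¹ i l *
        (fderiv ℝ (fun z => g₁ z l k) x (Pi.single j 1 : Fin 3 → ℝ)
          + fderiv ℝ (fun z => g₁ z l j) x (Pi.single k 1 : Fin 3 → ℝ)
          - fderiv ℝ (fun z => g₁ z j k) x (Pi.single l 1 : Fin 3 → ℝ))) →
      (∀ x i j k, Γ₂ x i j k = (1 / 2 : ℝ) * ∑ l : Fin 3, (g₂ x)⁻¹ i l *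
        (fderiv ℝ (fun z => g₂ z l k) x (Pi.single j 1 : Fin 3 → ℝ)
          + fderiv ℝ (fun z => g₂ z l j) x (Pi.single k 1 : Fin 3 → ℝ)
          - fderiv ℝ (fun z => g₂ z j k) x (Pi.single l 1 : Fin 3 → ℝ))) →
      ∃ φ : (Fin 3 → ℝ) → Fin 3 → ℝ, ∀ x i j k,
        Γ₂ x i j k = Γ₁ x i j k + (if i = j then φ x k else 0) + (if i = k then φ x j else 0)) ∧
    ¬ ∃ c : ℝ, ∀ x, g₂ x = c • g₁ x) := by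
  rintro ⟨g₁, g₂, h₁, h₂, c1, c2, c3, c4, m1, m2, m3, m4, e1, e2, hΓ, hn⟩
  obtain ⟨S, hS⟩ := Pool.Agent.helper68.B2.bridge ⟨g₁, g₂, h₁, h₂, c1, c2, c3, c4, m1, m2, m3, m4, e1, e2,
    hΓ (Pool.Agent.helper68.B2.chris g₁) (Pool.Agent.helper68.B2.chris g₂)
      (fun _ _ _ _ => rfl) (fun _ _ _ _ => rfl), hn⟩
  exact Pool.Agent.helper68.B2.main_geo S hS

end Pool.Agent.S13780
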