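import Pool.Statements.S13995
import Pool.Agent.helper40.SN.WireAll
import Pool.Agent.helper83.SB.Wire

set_option autoImplicit false
open scoped Pointwise
open Pool Pool.MP_d2d7b9_gt

namespace Pool.Agent.S13995

/-- For n convex bodies in R^(n+1), the support of their mixed area measure (via polarization and local parallel volumes) equals the closure of unit directions u whose touching cone for each partial sum C_I has orthogonal complement of dimension at least the size of I. -/
theorem result :
  ∀ n : ℕ, 1 ≤ n → ∀ C : Fin n → Set (EuclideanSpace ℝ (Fin (n + 1))),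
    (∀ i, IsCompact (C i) ∧ Convex ℝ (C i) ∧ (C i).Nonempty) →
    {u : EuclideanSpace ℝ (Fin (n + 1)) |
      u ∈ Metric.sphere (0 : EuclideanSpace ℝ (Fin (n + 1))) 1 ∧
      ∀ U : Set (EuclideanSpace ℝ (Fin (n + 1))), IsOpen U → u ∈ U →
        ∃ L : ℝ, 0 < L ∧
          Filter.Tendsto
            (fun ε : ℝ => ∑ I : Finset (Fin n), (-1 : ℝ) ^ (n - I.card) *
              ((MeasureTheory.volume
                {y : EuclideanSpace ℝ (Fin (n + 1)) |
                  0 < Metric.infDist y (∑ i ∈ I, C i) ∧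
                  Metric.infDist y (∑ i ∈ I, C i) ≤ ε ∧
                  ∃ x ∈ (∑ i ∈ I, C i), dist y x = Metric.infDist y (∑ i ∈ I, C i) ∧
                    (‖y - x‖⁻¹ • (y - x)) ∈ U}).toReal / ε))
            (nhdsWithin (0 : ℝ) (Set.Ioi 0)) (nhds L)}
    = closure {u : EuclideanSpace ℝ (Fin (n + 1)) |
        u ∈ Metric.sphere (0 : EuclideanSpace ℝ (Fin (n + 1))) 1 ∧
        ∀ I : Finset (Fin n), ∀ F : Set (EuclideanSpace ℝ (Fin (n + 1))),
          IsExtreme ℝ {v : EuclideanSpace ℝ (Fin (n + 1)) |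
              ∀ x ∈ (∑ i ∈ I, C i), (∀ y ∈ (∑ i ∈ I, C i), inner ℝ y u ≤ inner ℝ x u) →
                ∀ y ∈ (∑ i ∈ I, C i), inner ℝ y v ≤ inner ℝ x v} F →
          Convex ℝ F → u ∈ intrinsicInterior ℝ F →
          I.card ≤ Module.finrank ℝ (Submodule.orthogonal (Submodule.span ℝ F))} := by
  exact fun n hn => Pool.Agent.helper83.SB.bridge
    (fun _ hm F hF r hr hB => Pool.Agent.helper40.SN.W.w_dCOR F hm hF r hr hB) n hn

end Pool.Agent.S13995
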