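import Pool.Statements.S14341
import Pool.Agent.helper55.BiOrd

set_option autoImplicit false
open Pool Pool.MP_07d4a7_lc

namespace Pool.Agent.S14341

/-- Every countable Borel equivalence relation on a standard Borel space Borel-reduces to isomorphism of finitely generated bi-orderable groups, coded as marked quotients of the free group on countably many generators. -/
theorem result :
  ∀ (X : Type) [MeasurableSpace X] [StandardBorelSpace X] (E : X → X → Prop),
    Equivalence E → MeasurableSet {p : X × X | E p.1 p.2} →
    (∀ x : X, {y : X | E x y}.Countable) →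
    ∃ f : X → (FreeGroup ℕ → Bool), Measurable f ∧
      (∀ x : X,
        (∀ g : FreeGroup ℕ, f x g = true ↔
            g ∈ Subgroup.normalClosure {h : FreeGroup ℕ | f x h = true}) ∧
        (∃ n : ℕ, ∀ i : ℕ, n ≤ i → f x (FreeGroup.of i) = true) ∧
        (∃ o : LinearOrder (FreeGroup ℕ ⧸ Subgroup.normalClosure {h : FreeGroup ℕ | f x h = true}),
          ∀ a b c : FreeGroup ℕ ⧸ Subgroup.normalClosure {h : FreeGroup ℕ | f x h = true},
            o.le a b → o.le (c * a) (c * b) ∧ o.le (a * c) (b * c))) ∧
      ∀ x y : X, E x y ↔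
        Nonempty ((FreeGroup ℕ ⧸ Subgroup.normalClosure {h : FreeGroup ℕ | f x h = true}) ≃*
          (FreeGroup ℕ ⧸ Subgroup.normalClosure {h : FreeGroup ℕ | f y h = true})) := by
  intro X _ _ E hE hm hc
  obtain ⟨r, hr, h⟩ := helper55.BiOrd.main X E hE hm hc
  refine ⟨fun x => helper55.BiOrd.code (r x), helper55.BiOrd.measurable_code r hr, ?_, ?_⟩
  · intro x
    refine ⟨?_, ⟨4, ?_⟩, ?_⟩
    · intro g
      constructor
      · intro hg
        exact Subgroup.subset_normalClosure hg
      · intro hg
        rw [helper55.BiOrd.closure_eq] at hg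
        have : g ∈ {h : FreeGroup ℕ | helper55.BiOrd.code (r x) h = true} := by
          rw [helper55.BiOrd.set_eq]
          exact hg
        exact this
    · intro i hi
      have : FreeGroup.of i ∈ {h : FreeGroup ℕ | helper55.BiOrd.code (r x) h = true} := by
        rw [helper55.BiOrd.set_eq]
        change _ = _
        rw [helper55.HallGroup.GG.word_of]
        exact helper55.BiOrd.gen_eq_one (r x) i hi
      exact this
    · let e := helper55.BiOrd.quotEquiv (r x)
      refine ⟨@LinearOrder.lift' _ _ helper55.HallGroup.GG.ord e e.injective, ?_⟩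
      intro a b c hab
      have h1 := helper55.HallGroup.GG.ord_mul_le (e c) (e a) (e b) hab
      rw [← map_mul, ← map_mul, ← map_mul, ← map_mul] at h1
      exact h1
  · intro x y
    rw [h x y]
    constructor
    · rintro ⟨Φ⟩
      exact ⟨((helper55.BiOrd.quotEquiv (r x)).trans Φ).trans
        (helper55.BiOrd.quotEquiv (r y)).symm⟩
    · rintro ⟨Φ⟩
      exact ⟨((helper55.BiOrd.quotEquiv (r x)).symm.trans Φ).trans
        (helper55.BiOrd.quotEquiv (r y))⟩

end Pool.Agent.S14341
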