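import Pool.Statements.S14815
import Pool.Agent.helper84.WZ.All

set_option autoImplicit false
open Pool Pool.MP_65b1f6_lc

namespace Pool.Agent.S14815

/-- The word problem of Z^2 * Z, over the standard generators a, b, c and their inverses, is not an intersection of finitely many context-free languages. -/
theorem result :
    ¬ ∃ (n : ℕ) (L : Fin n → Language (Fin 6)),
      (∀ i, (L i).IsContextFree) ∧
      ∀ w : List (Fin 6),
        ((w.map
          (![Monoid.Coprod.inl (Multiplicative.ofAdd ((1, 0) : ℤ × ℤ)),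
             (Monoid.Coprod.inl (Multiplicative.ofAdd ((1, 0) : ℤ × ℤ)))⁻¹,
             Monoid.Coprod.inl (Multiplicative.ofAdd ((0, 1) : ℤ × ℤ)),
             (Monoid.Coprod.inl (Multiplicative.ofAdd ((0, 1) : ℤ × ℤ)))⁻¹,
             Monoid.Coprod.inr (Multiplicative.ofAdd (1 : ℤ)),
             (Monoid.Coprod.inr (Multiplicative.ofAdd (1 : ℤ)))⁻¹] :
            Fin 6 → Monoid.Coprod (Multiplicative (ℤ × ℤ)) (Multiplicative ℤ))).prod = 1
          ↔ ∀ i, w ∈ L i) := by
  rintro ⟨n, L, hL, hw⟩
  exact WZ.main n L hL hw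

end Pool.Agent.S14815
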