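import Pool.Statements.S15707
import Pool.Agent.helper99.TFW.Main

set_option autoImplicit false
open MeasureTheory
open Pool Pool.MP_3f6894_mp

namespace Pool.Agent.S15707

/-- For any molecule with at least two distinct nuclei of positive charges, some electron number N above the total charge Z admits a minimizer of the TFW energy (p=5/3) among admissible densities with mass N, i.e. the critical number exceeds Z. -/
theorem result :
  ∀ (k : ℕ), 2 ≤ k → ∀ (z : Fin k → ℝ), (∀ i, 0 < z i) →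
  ∀ (R : Fin k → EuclideanSpace ℝ (Fin 3)), Function.Injective R →
  ∃ N : ℝ, (∑ i, z i) < N ∧
    ∃ (ρ : EuclideanSpace ℝ (Fin 3) → ℝ)
      (g : EuclideanSpace ℝ (Fin 3) → EuclideanSpace ℝ (Fin 3)),
      (∀ x, 0 ≤ ρ x) ∧ Integrable ρ ∧ Integrable (fun x => ρ x ^ (5/3 : ℝ)) ∧
      MemLp g 2 ∧
      (∀ φ : EuclideanSpace ℝ (Fin 3) → ℝ, ContDiff ℝ (⊤ : ℕ∞) φ → HasCompactSupport φ →
        ∀ v : EuclideanSpace ℝ (Fin 3),
          ∫ x, Real.sqrt (ρ x) * fderiv ℝ φ x v = -∫ x, inner ℝ (g x) v * φ x) ∧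
      ∫ x, ρ x = N ∧
      ∀ (σ : EuclideanSpace ℝ (Fin 3) → ℝ)
        (h : EuclideanSpace ℝ (Fin 3) → EuclideanSpace ℝ (Fin 3)),
        (∀ x, 0 ≤ σ x) → Integrable σ → Integrable (fun x => σ x ^ (5/3 : ℝ)) →
        MemLp h 2 →
        (∀ φ : EuclideanSpace ℝ (Fin 3) → ℝ, ContDiff ℝ (⊤ : ℕ∞) φ → HasCompactSupport φ →
          ∀ v : EuclideanSpace ℝ (Fin 3),
            ∫ x, Real.sqrt (σ x) * fderiv ℝ φ x v = -∫ x, inner ℝ (h x) v * φ x) →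
        ∫ x, σ x = N →
        (∫ x, ‖g x‖ ^ 2) + (3/5 : ℝ) * (∫ x, ρ x ^ (5/3 : ℝ))
          - (∫ x, (∑ i, z i / ‖x - R i‖) * ρ x)
          + (1/2 : ℝ) * (∫ x, ∫ y, ρ x * ρ y / ‖x - y‖)
        ≤ (∫ x, ‖h x‖ ^ 2) + (3/5 : ℝ) * (∫ x, σ x ^ (5/3 : ℝ))
          - (∫ x, (∑ i, z i / ‖x - R i‖) * σ x)
          + (1/2 : ℝ) * (∫ x, ∫ y, σ x * σ y / ‖x - y‖) := by
  intro k hk z hz R _
  obtain ⟨N, hN, ρ, g, hadm, hmass, hmin⟩ :=
    Pool.Agent.Helper99.TFW.critical_gt (R := R) (show 0 < k by omega) hz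
  exact ⟨N, hN, ρ, g, hadm.nn, hadm.int, hadm.int53, hadm.memg, hadm.wg, hmass,
    fun σ h h1 h2 h3 h4 h5 h6 => hmin σ h ⟨h1, h2, h3, h4, h5⟩ h6⟩

end Pool.Agent.S15707
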