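import Pool.Statements.S16915
import Mathlib

set_option autoImplicit false
open MeasureTheory
open Pool Pool.MP_4fa6ed_nt

namespace Pool.Agent.S16915

/-- Splitting off the part of `N` composed of primes dividing `R`. -/
lemma exists_split (R : ℕ) : ∀ N : ℕ, 0 < N → ∃ u v m : ℕ, N = u * v ∧ Nat.Coprime v R ∧
    u ∣ R ^ m := by
  intro N
  induction N using Nat.strong_induction_on with
  | _ N ih =>
    intro hN
    by_cases hc : Nat.Coprime N R
    · exact ⟨1, N, 0, by simp, hc, by simp⟩
    · set g := Nat.gcd N R with hg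
      have hgpos : 0 < g := Nat.gcd_pos_of_pos_left _ hN
      have hg1 : 1 < g := by
        rcases Nat.lt_or_ge 1 g with h | h
        · exact h
        · exact absurd (le_antisymm h hgpos) hc
      have hgN : g ∣ N := Nat.gcd_dvd_left _ _
      obtain ⟨w, hw⟩ := hgN
      have hwpos : 0 < w := Nat.pos_of_ne_zero (by rintro rfl; simp at hw; omega)
      have hwlt : w < N := by
        rw [hw]; nlinarith
      obtain ⟨u, v, m, h1, h2, h3⟩ := ih w hwlt hwpos
      refine ⟨g * u, v, m + 1, ?_, h2, ?_⟩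
      · rw [hw, h1]; ring
      · rw [pow_succ, mul_comm (R ^ m) R]
        exact Nat.mul_dvd_mul (Nat.gcd_dvd_right _ _) h3

/-- For coprime `P`, `R` and every `r` there is a set `F` of `r` positive integers such that
for all `x < y` in `F` one has `P * (y - x) ∣ x` and `R * (y - x) ∣ y`. -/
lemma chain (P R : ℕ) (hP : 0 < P) (hR : 0 < R) (hPR : Nat.Coprime P R) (r : ℕ) :
    ∃ F : Finset ℕ, F.card = r ∧ (∀ x ∈ F, 0 < x) ∧
      ∀ x ∈ F, ∀ y ∈ F, x < y → P * (y - x) ∣ x ∧ R * (y - x) ∣ y := by
  induction r with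
  | zero => exact ⟨∅, by simp⟩
  | succ r ih =>
    obtain ⟨F, hcard, hpos, hF⟩ := ih
    -- the product of everything
    set N : ℕ := P * ∏ x ∈ F, x with hN
    have hNpos : 0 < N := Nat.mul_pos hP (Finset.prod_pos hpos)
    obtain ⟨u, v, m, huv, hvR, huR⟩ := exists_split R N hNpos
    have hvpos : 0 < v := Nat.pos_of_ne_zero (by rintro rfl; simp at huv; omega)
    have hupos : 0 < u := Nat.pos_of_ne_zero (by rintro rfl; simp at huv; omega)
    have huvc : Nat.Coprime u v :=
      Nat.Coprime.coprime_dvd_left huR (hvR.symm.pow_left m)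
    have hPN : P ∣ N := Dvd.intro _ rfl
    have hxN : ∀ x ∈ F, x ∣ N := fun x hx => (Finset.dvd_prod_of_mem _ hx).mul_left P
    have hPu : Nat.Coprime P u :=
      (Nat.Coprime.coprime_dvd_left huR (hPR.symm.pow_left m)).symm
    have hPv : P ∣ v := by
      rw [huv] at hPN
      exact hPu.dvd_of_dvd_mul_left hPN
    -- choose t
    obtain ⟨t, ht0, ht1, htpos⟩ : ∃ t : ℕ, v ^ 2 ∣ t ∧ Nat.Coprime t R ∧ 0 < t :=
      ⟨v ^ 2, dvd_rfl, hvR.pow_left 2, by positivity⟩
    -- for each x, the cofactor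
    set c : ℕ → ℕ := fun x => Nat.gcd x v with hc
    have hcx : ∀ x, c x ∣ x := fun x => Nat.gcd_dvd_left _ _
    have hcv : ∀ x, c x ∣ v := fun x => Nat.gcd_dvd_right _ _
    have hcpos : ∀ x, 0 < c x := fun x => Nat.gcd_pos_of_pos_right _ hvpos
    have hct : ∀ x, c x ∣ R * x + t := fun x =>
      dvd_add ((hcx x).mul_left R) (((hcv x).trans (Dvd.intro_left (v ^ 1) (by ring))).trans ht0)
    set h : ℕ → ℕ := fun x => (R * x + t) / c x with hh
    have hch : ∀ x, R * x + t = c x * h x := fun x => (Nat.mul_div_cancel' (hct x)).symm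
    -- h x is coprime to v and R
    have hhv : ∀ x ∈ F, Nat.Coprime (h x) v := by
      intro x hx
      -- x = c x * (x / c x), x / c x coprime to v
      obtain ⟨w, hw⟩ := hcx x
      have hwv : Nat.Coprime w v := by
        -- x ∣ u * v so w divides u
        have h1 : c x * w ∣ u * v := by
          rw [← hw, ← huv]; exact hxN x hx
        -- gcd (x, v) = c x; 
        obtain ⟨v', hv'⟩ := hcv x
        have h2 : w ∣ u * v' := by
          have : c x * w ∣ c x * (u * v') := by
            calc c x * w ∣ u * v := h1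
              _ = c x * (u * v') := by rw [hv']; ring_nf
          exact Nat.dvd_of_mul_dvd_mul_left (hcpos x) this
        have h3 : Nat.Coprime w v' := by
          have h4 := Nat.coprime_div_gcd_div_gcd (m := x) (n := v) (hcpos x)
          have h5 : x / Nat.gcd x v = w := Nat.div_eq_of_eq_mul_right (hcpos x) hw
          have h6 : v / Nat.gcd x v = v' := Nat.div_eq_of_eq_mul_right (hcpos x) hv'
          rw [h5, h6] at h4
          exact h4
        have h4 : w ∣ u := h3.dvd_of_dvd_mul_right h2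
        exact Nat.Coprime.coprime_dvd_left h4 huvc
      obtain ⟨v', hv'⟩ := hcv x
      obtain ⟨s, hs⟩ := ht0
      have h1 : h x = R * w + v * (v' * s) := by
        have : c x * h x = c x * (R * w + v * (v' * s)) := by
          rw [← hch x, hs]
          conv_lhs => rw [hw]
          have : v ^ 2 * s = c x * (v * (v' * s)) := by
            calc v ^ 2 * s = v * v * s := by ring
              _ = (c x * v') * v * s := by rw [← hv']
              _ = c x * (v * (v' * s)) := by ring
          rw [this]; ring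
        exact Nat.eq_of_mul_eq_mul_left (hcpos x) this
      rw [h1]
      rw [Nat.coprime_add_mul_left_left]
      exact Nat.Coprime.mul_left hvR.symm hwv
    have hRxt : ∀ x, Nat.Coprime (R * x + t) R := by
      intro x
      rw [add_comm, Nat.coprime_add_mul_left_left]
      exact ht1
    have hhR : ∀ x, Nat.Coprime (h x) R := fun x =>
      Nat.Coprime.coprime_dvd_left (Dvd.intro_left (c x) (hch x).symm) (hRxt x)
    -- The big modulus
    set Z : ℕ := N ^ 2 * R ^ 2 with hZ
    have hZpos : 0 < Z := by positivity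
    have hhN : ∀ x ∈ F, Nat.Coprime (h x) N := by
      intro x hx
      rw [huv]
      refine Nat.Coprime.mul_right ?_ (hhv x hx)
      exact (Nat.Coprime.coprime_dvd_left huR ((hhR x).symm.pow_left m)).symm
    have hhZ : ∀ x ∈ F, Nat.Coprime (h x) Z := fun x hx =>
      Nat.Coprime.mul_right ((hhN x hx).pow_right 2) ((hhR x).pow_right 2)
    set H : ℕ := ∏ x ∈ F, h x with hH
    have hHZ : Nat.Coprime H Z := Nat.Coprime.prod_left hhZ
    have hhpos : ∀ x, 0 < h x := by
      intro x
      rcases Nat.eq_zero_or_pos (h x) with h0 | h0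
      · have := hch x
        rw [h0, mul_zero] at this
        omega
      · exact h0
    have hHpos : 0 < H := Finset.prod_pos (fun x _ => hhpos x)
    -- choose M
    obtain ⟨M, hMZ, hMH, hMt⟩ : ∃ M : ℕ, Z ∣ M ∧ M ≡ t [MOD H] ∧ t < M := by
      obtain ⟨M0, hM0⟩ := Nat.chineseRemainder hHZ t 0
      refine ⟨M0 + (t + 1) * (H * Z), ?_, ?_, ?_⟩
      · refine dvd_add ?_ ?_
        · exact (Nat.modEq_zero_iff_dvd).1 hM0.2
        · exact Dvd.intro_left ((t + 1) * H) (by ring)
      · have : (t + 1) * (H * Z) ≡ 0 [MOD H] :=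
          (Nat.modEq_zero_iff_dvd).2 (Dvd.intro ((t + 1) * Z) (by ring))
        simpa using hM0.1.add this
      · have : 1 ≤ H * Z := Nat.mul_pos hHpos hZpos
        nlinarith
    have hMsub : ∀ x ∈ F, h x ∣ M - t := by
      intro x hx
      have h1 : H ∣ M - t := (Nat.modEq_iff_dvd' hMt.le).1 hMH.symm
      exact (Finset.dvd_prod_of_mem _ hx).trans h1
    -- the translated elements
    have hinj : Function.Injective (fun x : ℕ => M + R * x) := by
      intro x y hxy
      simp only at hxy
      have : R * x = R * y := by omega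
      exact Nat.eq_of_mul_eq_mul_left hR this
    refine ⟨insert (M - t) (F.image (fun x => M + R * x)), ?_, ?_, ?_⟩
    · rw [Finset.card_insert_of_notMem, Finset.card_image_of_injective _ hinj, hcard]
      intro hmem
      rw [Finset.mem_image] at hmem
      obtain ⟨x, _, hx⟩ := hmem
      omega
    · intro x hx
      rw [Finset.mem_insert, Finset.mem_image] at hx
      rcases hx with rfl | ⟨y, _, rfl⟩
      · omega
      · omega
    · -- key divisibilities
      have key1 : ∀ x ∈ F, P * (R * x + t) ∣ M - t := by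
        intro x hx
        rw [hch x, ← mul_assoc]
        refine Nat.Coprime.mul_dvd_of_dvd_of_dvd ?_ ?_ (hMsub x hx)
        · refine Nat.Coprime.mul_left ?_ ?_
          · exact (Nat.Coprime.coprime_dvd_right hPN (hhN x hx)).symm
          · exact (Nat.Coprime.coprime_dvd_right (((hcv x).trans (Dvd.intro_left u huv.symm)))
              (hhN x hx)).symm
        · refine Nat.dvd_sub ?_ ?_
          · refine Dvd.dvd.trans ?_ hMZ
            refine Dvd.dvd.trans ?_ (Dvd.intro _ rfl : N ^ 2 ∣ Z)
            rw [pow_two]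
            exact Nat.mul_dvd_mul hPN ((hcv x).trans (Dvd.intro_left u huv.symm))
          · refine Dvd.dvd.trans ?_ ht0
            rw [pow_two]
            exact Nat.mul_dvd_mul hPv (hcv x)
      have key2 : ∀ x ∈ F, R * (R * x + t) ∣ M + R * x := by
        intro x hx
        refine Nat.Coprime.mul_dvd_of_dvd_of_dvd (hRxt x).symm ?_ ?_
        · refine dvd_add ?_ (Dvd.intro _ rfl)
          refine Dvd.dvd.trans ?_ hMZ
          exact Dvd.intro_left (N ^ 2 * R) (by rw [hZ]; ring)
        · have h1 : M + R * x = (M - t) + (R * x + t) := by omega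
          rw [h1]
          exact dvd_add ((Dvd.intro_left P rfl).trans (key1 x hx)) dvd_rfl
      have hRN : ∀ x ∈ F, R * R * x ∣ M := by
        intro x hx
        refine Dvd.dvd.trans ?_ hMZ
        obtain ⟨w, hw⟩ := hxN x hx
        exact ⟨N * w, by rw [hZ]; calc N ^ 2 * R ^ 2 = N * N * R ^ 2 := by ring
                _ = N * (x * w) * R ^ 2 := by rw [← hw]
                _ = R * R * x * (N * w) := by ring⟩
      have hPRN : ∀ x ∈ F, P * R * x ∣ M := by
        intro x hx
        refine Dvd.dvd.trans ?_ hMZ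
        obtain ⟨w, hw⟩ := hxN x hx
        obtain ⟨w', hw'⟩ := hPN
        exact ⟨R * w * w', by rw [hZ]; calc N ^ 2 * R ^ 2 = N * N * R ^ 2 := by ring
                _ = (P * w') * (x * w) * R ^ 2 := by rw [← hw, ← hw']
                _ = P * R * x * (R * w * w') := by ring⟩
      intro x' hx' y' hy' hlt
      rw [Finset.mem_insert, Finset.mem_image] at hx' hy'
      rcases hx' with rfl | ⟨x, hx, rfl⟩
      · rcases hy' with rfl | ⟨y, hy, rfl⟩
        · omega
        · have h1 : M + R * y - (M - t) = R * y + t := by omega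
          rw [h1]
          exact ⟨key1 y hy, key2 y hy⟩
      · rcases hy' with rfl | ⟨y, hy, rfl⟩
        · omega
        · have hxy : x < y := by
            by_contra hcon
            have : R * y ≤ R * x := Nat.mul_le_mul_left _ (by omega)
            omega
          have h1 : M + R * y - (M + R * x) = R * (y - x) := by
            rw [Nat.mul_sub]; omega
          rw [h1]
          obtain ⟨hd1, hd2⟩ := hF x hx y hy hxy
          have hd3 : (y - x) ∣ x := (Dvd.intro_left P rfl).trans hd1
          constructor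
          · refine dvd_add ?_ ?_
            · refine Dvd.dvd.trans ?_ (hPRN x hx)
              rw [mul_assoc]
              exact Nat.mul_dvd_mul_left _ (Nat.mul_dvd_mul_left _ hd3)
            · rw [← mul_assoc, mul_comm P R, mul_assoc]
              exact Nat.mul_dvd_mul_left _ hd1
          · refine dvd_add ?_ ?_
            · refine Dvd.dvd.trans ?_ (hRN x hx)
              rw [mul_assoc]
              exact Nat.mul_dvd_mul_left _ (Nat.mul_dvd_mul_left _ hd3)
            · exact Nat.mul_dvd_mul_left _ hd2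

/-- The pigeonhole step. -/
lemma pigeon (P R : ℕ) (hP : 0 < P) (hR : 0 < R) (hPR : Nat.Coprime P R)
    (X : Type) [MeasurableSpace X] (μ : Measure X) [IsProbabilityMeasure μ]
    (T : ℚ → X → X)
    (hmul : ∀ q r : ℚ, 0 < q → 0 < r → T (q * r) = T q ∘ T r)
    (hmp : ∀ q : ℚ, 0 < q → MeasurePreserving (T q) μ μ)
    (A : Set X) (hA : MeasurableSet A) (hμA : 0 < μ A) :
    ∃ k : ℕ, 0 < k ∧ P ∣ k ∧ R ∣ k + 1 ∧
      0 < μ (A ∩ T ((k : ℚ) / ((k : ℚ) + 1)) ⁻¹' A) ∧
      0 < μ (A ∩ T (((k : ℚ) + 1) / (k : ℚ)) ⁻¹' A) := by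
  -- choose r with r * μ A > 1
  obtain ⟨r, hr⟩ : ∃ r : ℕ, 1 < (r : ENNReal) * μ A := by
    have hfin : μ A ≠ ⊤ := measure_ne_top μ A
    obtain ⟨r, hr⟩ := ENNReal.exists_nat_mul_gt hμA.ne' (b := 1) (by simp)
    exact ⟨r, hr⟩
  obtain ⟨F, hcard, hpos, hF⟩ := chain P R hP hR hPR r
  set B : ℕ → Set X := fun x => T (x : ℚ) ⁻¹' A with hB
  have hBm : ∀ x ∈ F, MeasurableSet (B x) := by
    intro x hx
    exact (hmp (x : ℚ) (by exact_mod_cast hpos x hx)).measurable hA
  have hBμ : ∀ x ∈ F, μ (B x) = μ A := by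
    intro x hx
    exact (hmp (x : ℚ) (by exact_mod_cast hpos x hx)).measure_preimage hA.nullMeasurableSet
  -- there are x ≠ y with positive intersection
  obtain ⟨x, hx, y, hy, hxy, hpos2⟩ : ∃ x ∈ F, ∃ y ∈ F, x < y ∧ 0 < μ (B x ∩ B y) := by
    by_contra hcon
    push Not at hcon
    have hdis : (F : Set ℕ).Pairwise (Function.onFun (AEDisjoint μ) B) := by
      intro x hx y hy hne
      rcases lt_or_gt_of_ne hne with h | h
      · exact le_antisymm (hcon x hx y hy h) (zero_le)
      · have := le_antisymm (hcon y hy x hx h) (zero_le)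
        exact AEDisjoint.symm this
    have h1 : μ (⋃ x ∈ F, B x) = ∑ x ∈ F, μ (B x) :=
      measure_biUnion_finset₀ hdis (fun x hx => (hBm x hx).nullMeasurableSet)
    have h2 : ∑ x ∈ F, μ (B x) = (r : ENNReal) * μ A := by
      rw [Finset.sum_congr rfl hBμ, Finset.sum_const, hcard, nsmul_eq_mul]
    have h3 : μ (⋃ x ∈ F, B x) ≤ 1 := prob_le_one
    rw [h1, h2] at h3
    exact absurd hr (not_lt.2 h3)
  obtain ⟨hd1, hd2⟩ := hF x hx y hy hxy
  have hxpos := hpos x hx
  have hypos := hpos y hy
  -- k = x / (y - x)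
  have hgpos : 0 < y - x := by omega
  obtain ⟨k', hk'⟩ := hd1
  set k := P * k' with hk
  have hxk : x = (y - x) * k := by rw [hk]; linarith [hk', mul_comm (P * (y - x)) k', mul_left_comm (y - x) P k', mul_assoc P (y - x) k']
  have hkpos : 0 < k := Nat.pos_of_ne_zero (by intro h0; rw [h0, mul_zero] at hxk; omega)
  have hyk : y = (y - x) * (k + 1) := by
    rw [mul_add, mul_one, ← hxk]; omega
  have hRk : R ∣ k + 1 := by
    have h1 : R * (y - x) ∣ (y - x) * (k + 1) := by rw [← hyk]; exact hd2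
    have h2 : (y - x) * R ∣ (y - x) * (k + 1) := by rw [mul_comm (y - x) R]; exact h1
    exact Nat.dvd_of_mul_dvd_mul_left hgpos h2
  have hgq : (0 : ℚ) < ((y - x : ℕ) : ℚ) := by exact_mod_cast hgpos
  have hkq : (0 : ℚ) < (k : ℚ) := by exact_mod_cast hkpos
  have hxq : (x : ℚ) = ((y - x : ℕ) : ℚ) * (k : ℚ) := by exact_mod_cast hxk
  have hyq : (y : ℚ) = ((y - x : ℕ) : ℚ) * ((k : ℚ) + 1) := by exact_mod_cast hyk
  have hxq0 : (0 : ℚ) < (x : ℚ) := by exact_mod_cast hxpos
  have hyq0 : (0 : ℚ) < (y : ℚ) := by exact_mod_cast hypos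
  refine ⟨k, hkpos, Dvd.intro _ rfl, hRk, ?_, ?_⟩
  · -- T x = T (k/(k+1)) ∘ T y
    have hq : (0 : ℚ) < (k : ℚ) / ((k : ℚ) + 1) := by positivity
    have h1 : (x : ℚ) = (k : ℚ) / ((k : ℚ) + 1) * (y : ℚ) := by
      rw [hxq, hyq]; field_simp
    have h2 : B x ∩ B y = T (y : ℚ) ⁻¹' (A ∩ T ((k : ℚ) / ((k : ℚ) + 1)) ⁻¹' A) := by
      rw [hB]
      simp only
      rw [h1, hmul _ _ hq hyq0, Set.preimage_comp, Set.preimage_inter, Set.inter_comm]
    have hm : MeasurableSet (A ∩ T ((k : ℚ) / ((k : ℚ) + 1)) ⁻¹' A) :=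
      hA.inter ((hmp _ hq).measurable hA)
    rw [h2, (hmp (y : ℚ) hyq0).measure_preimage hm.nullMeasurableSet] at hpos2
    exact hpos2
  · have hq : (0 : ℚ) < ((k : ℚ) + 1) / (k : ℚ) := by positivity
    have h1 : (y : ℚ) = ((k : ℚ) + 1) / (k : ℚ) * (x : ℚ) := by
      rw [hxq, hyq]; field_simp
    have h2 : B x ∩ B y = T (x : ℚ) ⁻¹' (A ∩ T (((k : ℚ) + 1) / (k : ℚ)) ⁻¹' A) := by
      rw [hB]
      simp only
      rw [h1, hmul _ _ hq hxq0, Set.preimage_comp, Set.preimage_inter]
    have hm : MeasurableSet (A ∩ T (((k : ℚ) + 1) / (k : ℚ)) ⁻¹' A) :=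
      hA.inter ((hmp _ hq).measurable hA)
    rw [h2, (hmp (x : ℚ) hxq0).measure_preimage hm.nullMeasurableSet] at hpos2
    exact hpos2

/-- Auxiliary form of the recurrence statement for `b ≠ d`: with `e` one of the two shifts. -/
lemma solve_n (a : ℕ) (e f : ℤ) (ha : 0 < a)
    (hcop : ∀ k : ℤ, k ∣ (a : ℤ) → k ∣ e → k ∣ f → IsUnit k)
    (hdvd : (a : ℤ) ∣ e * f) (P R : ℕ)
    (hP : P = a / Nat.gcd a f.natAbs) (hR : R = Nat.gcd a f.natAbs) :
    (P : ℤ) ∣ e ∧ (R : ℤ) ∣ f ∧ P * R = a ∧ Nat.Coprime P R := by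
  subst hP hR
  set g := Nat.gcd a f.natAbs with hg
  have hgpos : 0 < g := Nat.gcd_pos_of_pos_left _ ha
  have hga : g ∣ a := Nat.gcd_dvd_left _ _
  have hgf : g ∣ f.natAbs := Nat.gcd_dvd_right _ _
  have hgf' : (g : ℤ) ∣ f := Int.natCast_dvd.2 hgf
  have hPR : a / g * g = a := Nat.div_mul_cancel hga
  have hPe : (a / g) ∣ e.natAbs := by
    have h1 : a ∣ e.natAbs * f.natAbs := by
      have := Int.natCast_dvd.1 hdvd
      rwa [Int.natAbs_mul] at this
    obtain ⟨f', hf'⟩ := hgf
    have h2 : g * (a / g) ∣ g * (e.natAbs * f') := by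
      rw [mul_comm g (a / g), hPR]
      refine h1.trans (dvd_of_eq ?_)
      rw [hf']; ring
    have h3 : (a / g) ∣ e.natAbs * f' := Nat.dvd_of_mul_dvd_mul_left hgpos h2
    have h4 : Nat.Coprime (a / g) f' := by
      have h5 := Nat.coprime_div_gcd_div_gcd (m := a) (n := f.natAbs) hgpos
      have h6 : f.natAbs / Nat.gcd a f.natAbs = f' := Nat.div_eq_of_eq_mul_right hgpos hf'
      rw [h6] at h5
      exact h5
    exact h4.dvd_of_dvd_mul_right h3
  have hPe' : ((a / g : ℕ) : ℤ) ∣ e := Int.natCast_dvd.2 hPe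
  refine ⟨hPe', hgf', hPR, ?_⟩
  set c := Nat.gcd (a / g) g with hc
  have h1 : c ∣ a / g := Nat.gcd_dvd_left _ _
  have h2 : c ∣ g := Nat.gcd_dvd_right _ _
  have h3 : IsUnit (c : ℤ) := by
    apply hcop
    · exact Int.natCast_dvd_natCast.2 (h2.trans hga)
    · exact (Int.natCast_dvd_natCast.2 h1).trans hPe'
    · exact (Int.natCast_dvd_natCast.2 h2).trans hgf'
  exact Int.ofNat_isUnit.1 h3 |> Nat.isUnit_iff.1

/-- If a≥1, gcd(a,b,d)=1, and b=d or a divides bd, then for every measure-preserving action of the positive rationals under multiplication and every positive-measure set A, some ratio (an+b)/(an+d) with n≥1 and both terms positive returns A to itself in positive measure. -/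
theorem result :
    ∀ (a : ℕ) (b d : ℤ), 0 < a →
      (∀ k : ℤ, k ∣ (a : ℤ) → k ∣ b → k ∣ d → IsUnit k) →
      (b = d ∨ (a : ℤ) ∣ b * d) →
      ∀ (X : Type) [MeasurableSpace X] (μ : Measure X) [IsProbabilityMeasure μ]
        (T : ℚ → X → X),
        T 1 = id →
        (∀ q r : ℚ, 0 < q → 0 < r → T (q * r) = T q ∘ T r) →
        (∀ q : ℚ, 0 < q → MeasurePreserving (T q) μ μ) →
        ∀ A : Set X, MeasurableSet A → 0 < μ A →
          ∃ n : ℕ, 0 < n ∧ 0 < (a : ℤ) * n + b ∧ 0 < (a : ℤ) * n + d ∧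
            0 < μ (A ∩ T (((a : ℚ) * n + b) / ((a : ℚ) * n + d)) ⁻¹' A) := by
  intro a b d ha hgcd hbd X _ μ _ T hT1 hmul hmp A hA hμA
  have haZ : (0 : ℤ) < (a : ℤ) := by exact_mod_cast ha
  rcases eq_or_ne b d with rfl | hne
  · -- b = d
    have hb : -|b| ≤ b := neg_abs_le b
    have habs : 0 ≤ |b| := abs_nonneg b
    have hcast : ((b.natAbs : ℕ) : ℤ) = |b| := Int.natCast_natAbs b
    have hpos : 0 < (a : ℤ) * ((b.natAbs + 1 : ℕ) : ℤ) + b := by
      push_cast
      nlinarith
    refine ⟨b.natAbs + 1, by omega, hpos, hpos, ?_⟩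
    have hq : (0 : ℚ) < (a : ℚ) * ((b.natAbs + 1 : ℕ) : ℚ) + b := by
      have h0 : ((0 : ℤ) : ℚ) < (((a : ℤ) * ((b.natAbs + 1 : ℕ) : ℤ) + b : ℤ) : ℚ) :=
        Int.cast_lt.2 hpos
      simpa using h0
    rw [div_self hq.ne', hT1]
    simpa using hμA
  · have hdvd : (a : ℤ) ∣ b * d := by
      rcases hbd with h | h
      · exact absurd h hne
      · exact h
    rcases lt_or_gt_of_ne hne with hlt | hlt
    · -- b < d : ratio k/(k+1), an + b = D k, an + d = D (k+1), D = d - b
      -- P ∣ b, R ∣ d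
      obtain ⟨h1, h2, h3, h4⟩ := solve_n a b d ha hgcd hdvd _ _ rfl rfl
      set P := a / Nat.gcd a d.natAbs with hP
      set R := Nat.gcd a d.natAbs with hR
      have hRpos : 0 < R := Nat.gcd_pos_of_pos_left _ ha
      have hPpos : 0 < P := Nat.pos_of_ne_zero (by rintro h0; rw [h0, zero_mul] at h3; omega)
      -- enlarge P
      set L := R * (b.natAbs + 1) + 1 with hL
      have hLR : Nat.Coprime L R := by
        rw [hL, add_comm]
        exact (Nat.coprime_add_mul_left_left 1 R _).2 (Nat.coprime_one_left R)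
      obtain ⟨k, hk0, hPk, hRk, hk1, _⟩ := pigeon (P * L) R (Nat.mul_pos hPpos (by omega)) hRpos
        (Nat.Coprime.mul_left h4 hLR) X μ T hmul hmp A hA hμA
      have hPk' : (P : ℤ) ∣ (k : ℤ) := Int.natCast_dvd_natCast.2 ((Dvd.intro _ rfl).trans hPk)
      have hRk' : (R : ℤ) ∣ (k : ℤ) + 1 := by exact_mod_cast hRk
      have hkbig : b.natAbs < k := by
        have h5 : P * L ≤ k := Nat.le_of_dvd hk0 hPk
        have h6 : L ≤ P * L := Nat.le_mul_of_pos_left _ hPpos
        have h7 : b.natAbs + 1 ≤ R * (b.natAbs + 1) := Nat.le_mul_of_pos_left _ hRpos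
        omega
      have hkbig' : |b| < (k : ℤ) := by
        rw [← Int.natCast_natAbs]; exact_mod_cast hkbig
      have hD : 0 < d - b := by linarith
      -- a ∣ D k - b
      have hdiv : (a : ℤ) ∣ (d - b) * k - b := by
        have h5 : (P : ℤ) ∣ (d - b) * k - b := dvd_sub (hPk'.mul_left _) h1
        have h6 : (R : ℤ) ∣ (d - b) * k - b := by
          have : (d - b) * k - b = (d - b) * (k + 1) - d := by ring
          rw [this]
          exact dvd_sub (hRk'.mul_left _) h2
        have h7 : IsCoprime (P : ℤ) (R : ℤ) := Nat.isCoprime_iff_coprime.2 h4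
        have h8 := h7.mul_dvd h5 h6
        rw [← h3]
        exact_mod_cast h8
      obtain ⟨n, hn⟩ := hdiv
      have hb1 : b ≤ |b| := le_abs_self b
      have habs : 0 ≤ |b| := abs_nonneg b
      have hnum : (d - b) * k - b > 0 := by nlinarith
      have hnpos : 0 < n := by
        rw [hn] at hnum
        exact (mul_pos_iff_of_pos_left haZ).1 hnum
      lift n to ℕ using hnpos.le
      have hkZ : (0 : ℤ) < k := by exact_mod_cast hk0
      have e1 : (a : ℤ) * n + b = (d - b) * k := by linarith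
      have e2 : (a : ℤ) * n + d = (d - b) * (k + 1) := by linarith
      refine ⟨n, by exact_mod_cast hnpos, ?_, ?_, ?_⟩
      · rw [e1]; positivity
      · rw [e2]; positivity
      · have e1q : (a : ℚ) * n + b = ((d : ℚ) - b) * k := by exact_mod_cast e1
        have e2q : (a : ℚ) * n + d = ((d : ℚ) - b) * (k + 1) := by exact_mod_cast e2
        have hDq : ((d : ℚ) - b) ≠ 0 := by
          have : (0 : ℚ) < (d : ℚ) - b := by exact_mod_cast hD
          exact this.ne'
        rw [e1q, e2q, mul_div_mul_left _ _ hDq]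
        exact hk1
    · -- d < b : ratio (k+1)/k, an + d = D k, an + b = D (k+1), D = b - d
      obtain ⟨h1, h2, h3, h4⟩ := solve_n a d b ha (fun k hk1 hk2 hk3 => hgcd k hk1 hk3 hk2)
        (by rw [mul_comm]; exact hdvd) _ _ rfl rfl
      set P := a / Nat.gcd a b.natAbs with hP
      set R := Nat.gcd a b.natAbs with hR
      have hRpos : 0 < R := Nat.gcd_pos_of_pos_left _ ha
      have hPpos : 0 < P := Nat.pos_of_ne_zero (by rintro h0; rw [h0, zero_mul] at h3; omega)
      set L := R * (d.natAbs + 1) + 1 with hL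
      have hLR : Nat.Coprime L R := by
        rw [hL, add_comm]
        exact (Nat.coprime_add_mul_left_left 1 R _).2 (Nat.coprime_one_left R)
      obtain ⟨k, hk0, hPk, hRk, _, hk1⟩ := pigeon (P * L) R (Nat.mul_pos hPpos (by omega)) hRpos
        (Nat.Coprime.mul_left h4 hLR) X μ T hmul hmp A hA hμA
      have hPk' : (P : ℤ) ∣ (k : ℤ) := Int.natCast_dvd_natCast.2 ((Dvd.intro _ rfl).trans hPk)
      have hRk' : (R : ℤ) ∣ (k : ℤ) + 1 := by exact_mod_cast hRk
      have hkbig : d.natAbs < k := by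
        have h5 : P * L ≤ k := Nat.le_of_dvd hk0 hPk
        have h6 : L ≤ P * L := Nat.le_mul_of_pos_left _ hPpos
        have h7 : d.natAbs + 1 ≤ R * (d.natAbs + 1) := Nat.le_mul_of_pos_left _ hRpos
        omega
      have hkbig' : |d| < (k : ℤ) := by
        rw [← Int.natCast_natAbs]; exact_mod_cast hkbig
      have hD : 0 < b - d := by linarith
      have hdiv : (a : ℤ) ∣ (b - d) * k - d := by
        have h5 : (P : ℤ) ∣ (b - d) * k - d := dvd_sub (hPk'.mul_left _) h1
        have h6 : (R : ℤ) ∣ (b - d) * k - d := by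
          have : (b - d) * k - d = (b - d) * (k + 1) - b := by ring
          rw [this]
          exact dvd_sub (hRk'.mul_left _) h2
        have h7 : IsCoprime (P : ℤ) (R : ℤ) := Nat.isCoprime_iff_coprime.2 h4
        have h8 := h7.mul_dvd h5 h6
        rw [← h3]
        exact_mod_cast h8
      obtain ⟨n, hn⟩ := hdiv
      have hb1 : d ≤ |d| := le_abs_self d
      have habs : 0 ≤ |d| := abs_nonneg d
      have hnum : (b - d) * k - d > 0 := by nlinarith
      have hnpos : 0 < n := by
        rw [hn] at hnum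
        exact (mul_pos_iff_of_pos_left haZ).1 hnum
      lift n to ℕ using hnpos.le
      have hkZ : (0 : ℤ) < k := by exact_mod_cast hk0
      have e1 : (a : ℤ) * n + d = (b - d) * k := by linarith
      have e2 : (a : ℤ) * n + b = (b - d) * (k + 1) := by linarith
      refine ⟨n, by exact_mod_cast hnpos, ?_, ?_, ?_⟩
      · rw [e2]; positivity
      · rw [e1]; positivity
      · have e1q : (a : ℚ) * n + d = ((b : ℚ) - d) * k := by exact_mod_cast e1
        have e2q : (a : ℚ) * n + b = ((b : ℚ) - d) * (k + 1) := by exact_mod_cast e2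
        have hDq : ((b : ℚ) - d) ≠ 0 := by
          have : (0 : ℚ) < (b : ℚ) - d := by exact_mod_cast hD
          exact this.ne'
        rw [e1q, e2q, mul_div_mul_left _ _ hDq]
        exact hk1

end Pool.Agent.S16915
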