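import Pool.Statements.S18410
import Pool.Agent.helper80.Weights

set_option autoImplicit false
open Filter Topology MeasureTheory
open Pool Pool.MP_c45d52_nt

namespace Pool.Agent.S18410

/-- The negation of the preceding statement: For every 1-bounded multiplicative aperiodic f and every 1-bounded w all of whose Furstenberg systems are ergodic with zero entropy, the averages (1/N) times the sum of f(n)w(n) for n from 1 to N tend to 0. -/
theorem result :
    ¬ (∀ (f w : ℕ → ℂ),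
    (∀ n : ℕ, 1 ≤ n → ‖f n‖ ≤ 1) →
    (∀ m n : ℕ, 1 ≤ m → 1 ≤ n → Nat.Coprime m n → f (m * n) = f m * f n) →
    (∀ a b : ℕ, 1 ≤ a → 1 ≤ b →
      Tendsto (fun N : ℕ => (1 / (N : ℂ)) * ∑ n ∈ Finset.Icc 1 N, f (a * n + b)) atTop (𝓝 0)) →
    (∀ n : ℕ, 1 ≤ n → ‖w n‖ ≤ 1) →
    (∀ (Nk : ℕ → ℕ) (μ : Measure (ℤ → ℂ)), StrictMono Nk → IsProbabilityMeasure μ →
      μ {x | ∀ z : ℤ, ‖x z‖ ≤ 1} = 1 →
      MeasurePreserving (fun x : ℤ → ℂ => fun z : ℤ => x (z + 1)) μ μ →
      (∀ (m : ℕ) (h : Fin m → ℕ) (ε : Fin m → Bool),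
        Tendsto (fun k : ℕ => (1 / (Nk k : ℂ)) * ∑ n ∈ Finset.Icc 1 (Nk k),
            ∏ j : Fin m, (if ε j then starRingEnd ℂ (w (n + h j)) else w (n + h j)))
          atTop
          (𝓝 (∫ x, ∏ j : Fin m,
              (if ε j then starRingEnd ℂ (x ((h j : ℕ) : ℤ)) else x ((h j : ℕ) : ℤ)) ∂μ))) →
      Ergodic (fun x : ℤ → ℂ => fun z : ℤ => x (z + 1)) μ ∧
      ∀ (k : ℕ) (g : (ℤ → ℂ) → Fin k), Measurable g →
        Tendsto (fun n : ℕ =>
            (∑ a : Fin n → Fin k,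
              Real.negMulLog
                (μ {x | ∀ i : Fin n, g (fun z : ℤ => x (z + ((i : ℕ) : ℤ))) = a i}).toReal)
              / (n : ℝ))
          atTop (𝓝 0)) →
    Tendsto (fun N : ℕ => (1 / (N : ℂ)) * ∑ n ∈ Finset.Icc 1 N, f n * w n) atTop (𝓝 0)) := by
  intro H
  refine Pool.Agent.helper80.not_tendsto ?_
  refine H Pool.Agent.helper80.ff Pool.Agent.helper80.ww
    (fun n _ => (Pool.Agent.helper80.norm_ff n).le) Pool.Agent.helper80.ff_mul
    (fun a b ha _ => Pool.Agent.helper80.ff_aperiodic a b ha)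
    (fun n _ => (Pool.Agent.helper80.norm_ww n).le) ?_
  intro Nk μ hNk hμ hsupp hT hmom
  have hNk' : Tendsto Nk atTop atTop := hNk.tendsto_atTop
  have h00 : ∫ x : ℤ → ℂ, x 0 * x 0 ∂μ = 1 := by
    have h1 := hmom 2 (fun _ => 0) (fun _ => false)
    simp only [Fin.prod_univ_two, Nat.add_zero, Bool.false_eq_true, if_false, Nat.cast_zero,
      Pool.Agent.helper80.ww_mul_self] at h1
    refine tendsto_nhds_unique h1 (tendsto_const_nhds.congr' ?_)
    filter_upwards [hNk'.eventually_ge_atTop 1] with k hk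
    have : (Nk k : ℂ) ≠ 0 := by
      have : Nk k ≠ 0 := by omega
      exact_mod_cast this
    simp only [Finset.sum_const, Nat.card_Icc, Nat.add_sub_cancel, nsmul_eq_mul, mul_one]
    field_simp
  have h01 : ∫ x : ℤ → ℂ, x 0 * x 1 ∂μ = -1 := by
    have h1 := hmom 2 ![0, 1] (fun _ => false)
    simp only [Fin.prod_univ_two, Bool.false_eq_true, if_false, Matrix.cons_val_zero,
      Matrix.cons_val_one, Nat.add_zero, Nat.cast_zero, Nat.cast_one] at h1
    exact tendsto_nhds_unique h1 (Pool.Agent.helper80.ww_corr.comp hNk')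
  have hT' : MeasurePreserving Pool.Agent.helper80.shiftMap μ μ := hT
  have hae := Pool.Agent.helper80.ae_alt μ hsupp hT' h00 h01
  exact ⟨Pool.Agent.helper80.ergodic_of_ae_alt μ hT' hae,
    fun k g _ => Pool.Agent.helper80.entropy_of_ae_alt μ hae k g⟩

end Pool.Agent.S18410
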