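-- Disproof of the Chowla-Blanksby question by the explicit family
-- P_m(X) = 4 (X - 1) (2 X + 1)^m - 1.
import Pool.Statements.S18664

set_option autoImplicit false
open Pool Pool.MP_daf011_nt

namespace Pool.Agent.S18664

open Polynomial in
/-- The explicit polynomial `4 (X - 1) (2 X + 1)^m - 1`. -/
noncomputable def PP (m : ℕ) : Polynomial ℤ := C 4 * ((X - C 1) * (C 2 * X + C 1) ^ m) - C 1

open Polynomial in
lemma deg_aux (m : ℕ) : (C (4 : ℤ) * ((X - C 1) * (C 2 * X + C 1) ^ m)).natDegree = m + 1 := by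
  rw [natDegree_C_mul (by norm_num : (4 : ℤ) ≠ 0)]
  have h1 : (X - C (1 : ℤ)) ≠ 0 := X_sub_C_ne_zero 1
  have h2 : (C (2 : ℤ) * X + C 1).natDegree = 1 := natDegree_linear (by norm_num)
  have h3 : (C (2 : ℤ) * X + C 1) ^ m ≠ 0 := by
    apply pow_ne_zero
    intro h
    rw [h] at h2
    simp at h2
  rw [natDegree_mul h1 h3, natDegree_pow, h2, natDegree_X_sub_C]
  omega

open Polynomial in
lemma lead_aux (m : ℕ) :
    (C (4 : ℤ) * ((X - C 1) * (C 2 * X + C 1) ^ m)).leadingCoeff = 4 * 2 ^ m := by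
  rw [leadingCoeff_mul, leadingCoeff_mul, leadingCoeff_C, leadingCoeff_X_sub_C, leadingCoeff_pow,
    leadingCoeff_linear (by norm_num : (2 : ℤ) ≠ 0)]
  ring

open Polynomial in
lemma natDegree_PP (m : ℕ) : (PP m).natDegree = m + 1 := by
  unfold PP
  rw [natDegree_sub_eq_left_of_natDegree_lt, deg_aux]
  rw [deg_aux, natDegree_C]
  omega

open Polynomial in
lemma leadingCoeff_PP (m : ℕ) : (PP m).leadingCoeff = 4 * 2 ^ m := by
  unfold PP
  rw [leadingCoeff_sub_of_degree_lt, lead_aux]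
  apply degree_lt_degree
  rw [deg_aux, natDegree_C]
  omega

lemma aeval_PP (m : ℕ) (z : ℂ) :
    Polynomial.aeval z (PP m) = 4 * ((z - 1) * (2 * z + 1) ^ m) - 1 := by
  unfold PP
  simp only [map_sub, map_mul, map_pow, map_add, Polynomial.aeval_C, Polynomial.aeval_X]
  simp

/-- The polynomial has a real root in the open interval from 1 to 2. -/
lemma exists_root (m : ℕ) : ∃ z : ℂ, Polynomial.aeval z (PP m) = 0 ∧ 1 < ‖z‖ := by
  have hcont : ContinuousOn (fun x : ℝ => 4 * ((x - 1) * (2 * x + 1) ^ m) - 1)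
      (Set.Icc (1 : ℝ) 2) := by
    apply Continuous.continuousOn
    fun_prop
  have h12 : (1 : ℝ) ≤ 2 := by norm_num
  have hIVT := intermediate_value_Ioo h12 hcont
  have h0 : (0 : ℝ) ∈ Set.Ioo ((fun x : ℝ => 4 * ((x - 1) * (2 * x + 1) ^ m) - 1) 1)
      ((fun x : ℝ => 4 * ((x - 1) * (2 * x + 1) ^ m) - 1) 2) := by
    constructor
    · norm_num
    · have h5 : (1 : ℝ) ≤ 5 ^ m := one_le_pow₀ (by norm_num)
      norm_num
      linarith
  obtain ⟨x, hx, hx0⟩ := hIVT h0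
  refine ⟨(x : ℂ), ?_, ?_⟩
  · rw [aeval_PP]
    have : ((4 * ((x - 1) * (2 * x + 1) ^ m) - 1 : ℝ) : ℂ) = 0 := by
      rw [show (4 * ((x - 1) * (2 * x + 1) ^ m) - 1 : ℝ) = 0 from hx0]
      simp
    push_cast at this
    exact this
  · rw [Complex.norm_real, Real.norm_eq_abs, abs_of_pos (by linarith [hx.1])]
    exact hx.1

/-- Every root of modulus larger than one is very close to 1. -/
lemma root_bound (m : ℕ) (z : ℂ) (hz : Polynomial.aeval z (PP m) = 0) (h1 : 1 < ‖z‖) :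
    ‖z‖ ≤ 1 + 1 / (4 * (5 / 2) ^ m) := by
  rw [aeval_PP] at hz
  have heq : 4 * ((z - 1) * (2 * z + 1) ^ m) = 1 := by linear_combination hz
  have hnorm : 4 * (‖z - 1‖ * ‖2 * z + 1‖ ^ m) = 1 := by
    have := congrArg norm heq
    simpa [norm_mul, norm_pow] using this
  have hA : 1 ≤ ‖2 * z + 1‖ := by
    have h := norm_sub_norm_le (2 * z) (-1)
    have h2 : ‖2 * z‖ = 2 * ‖z‖ := by simp
    have h3 : 2 * z - (-1) = 2 * z + 1 := by ring
    rw [h3, h2] at h
    simp at h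
    linarith
  have hApow : 1 ≤ ‖2 * z + 1‖ ^ m := one_le_pow₀ hA
  have hB : ‖z - 1‖ ≤ 1 / 4 := by
    have hn : 0 ≤ ‖z - 1‖ := norm_nonneg _
    nlinarith
  have hC : 5 / 2 ≤ ‖2 * z + 1‖ := by
    have h := norm_sub_norm_le (3 : ℂ) (-(2 * (z - 1)))
    have h3 : (3 : ℂ) - (-(2 * (z - 1))) = 2 * z + 1 := by ring
    rw [h3] at h
    have h4 : ‖-(2 * (z - 1))‖ = 2 * ‖z - 1‖ := by simp
    rw [h4] at h
    have h5 : ‖(3 : ℂ)‖ = 3 := by simp
    rw [h5] at h
    linarith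
  have hCpow : (5 / 2 : ℝ) ^ m ≤ ‖2 * z + 1‖ ^ m := pow_le_pow_left₀ (by norm_num) hC m
  have hpos : (0 : ℝ) < (5 / 2) ^ m := by positivity
  have hD : ‖z - 1‖ ≤ 1 / (4 * (5 / 2) ^ m) := by
    rw [le_div_iff₀ (by positivity)]
    have hn : 0 ≤ ‖z - 1‖ := norm_nonneg _
    have := mul_le_mul_of_nonneg_left hCpow hn
    linarith
  have hE : ‖z‖ ≤ ‖z - 1‖ + 1 := by
    have := norm_add_le (z - 1) 1
    simpa using this
  linarith

/-- The negation of the preceding statement: There is c>0 such that every integer polynomial of degree n≥1 with leading coefficient q that has a complex root of modulus >1 also has a complex root of modulus >1+c/(∣q∣n). -/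
theorem result :
    ¬ (∃ c : ℝ, 0 < c ∧
      ∀ P : Polynomial ℤ, 0 < P.natDegree →
        (∃ z : ℂ, Polynomial.aeval z P = 0 ∧ 1 < ‖z‖) →
        ∃ z : ℂ, Polynomial.aeval z P = 0 ∧
          1 + c / (|((P.leadingCoeff : ℤ) : ℝ)| * (P.natDegree : ℝ)) < ‖z‖) := by
  rintro ⟨c, hc, h⟩
  -- choose m with (m+1) (4/5)^m < c
  have hlim : Filter.Tendsto (fun n : ℕ => (n : ℝ) ^ 1 * (4 / 5 : ℝ) ^ n) Filter.atTop (nhds 0) :=
    tendsto_pow_const_mul_const_pow_of_abs_lt_one 1 (by rw [abs_of_pos] <;> norm_num)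
  have hev := hlim.eventually (gt_mem_nhds (show (0 : ℝ) < c * (4 / 5) by positivity))
  obtain ⟨n, hn, hn1⟩ := (hev.and (Filter.eventually_ge_atTop 1)).exists
  obtain ⟨m, rfl⟩ : ∃ m, n = m + 1 := ⟨n - 1, by omega⟩
  have hm : ((m : ℝ) + 1) * (4 / 5) ^ m < c := by
    have h1 : (((m + 1 : ℕ) : ℝ)) ^ 1 * (4 / 5 : ℝ) ^ (m + 1)
        = (((m : ℝ) + 1) * (4 / 5) ^ m) * (4 / 5) := by
      push_cast
      ring
    rw [h1] at hn
    linarith
  obtain ⟨z, hz, hzn⟩ := h (PP m) (by rw [natDegree_PP]; omega) (exists_root m)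
  rw [natDegree_PP, leadingCoeff_PP] at hzn
  have habs : |((4 * 2 ^ m : ℤ) : ℝ)| = 4 * 2 ^ m := by
    push_cast
    exact abs_of_pos (by positivity)
  rw [habs] at hzn
  push_cast at hzn
  have hpos2 : (0 : ℝ) < 4 * 2 ^ m * ((m : ℝ) + 1) := by positivity
  have h1z : 1 < ‖z‖ := by
    have : 0 < c / (4 * 2 ^ m * ((m : ℝ) + 1)) := by positivity
    linarith
  have hb := root_bound m z hz h1z
  have hlt : c / (4 * 2 ^ m * ((m : ℝ) + 1)) < 1 / (4 * (5 / 2) ^ m) := by linarith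
  rw [div_lt_div_iff₀ hpos2 (by positivity)] at hlt
  have h54 : (5 / 2 : ℝ) ^ m * (4 / 5) ^ m = 2 ^ m := by
    rw [← mul_pow]
    norm_num
  have hp : (0 : ℝ) < (5 / 2) ^ m := by positivity
  have h6 : ((m : ℝ) + 1) * 2 ^ m < c * (5 / 2) ^ m := by
    rw [← h54]
    nlinarith
  nlinarith

end Pool.Agent.S18664
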