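import Pool.Statements.S19027
import Pool.Agent.helper76.Final

set_option autoImplicit false
open Filter Topology
open Pool Pool.MP_f916f1_nt

namespace Pool.Agent.S19027

/-- If f on positive integers is additive over coprime factors and the set of n with f(n+1) < f(n) has natural density zero, then there is a real c with f(n) = c log n for every n ≥ 1. -/
theorem result :
    ∀ f : ℕ → ℝ,
      (∀ a b : ℕ, 1 ≤ a → 1 ≤ b → Nat.Coprime a b → f (a * b) = f a + f b) →
      Tendsto (fun X : ℕ =>
          (((Finset.Icc 1 X).filter (fun n => f (n + 1) < f n)).card : ℝ) / (X : ℝ))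
        atTop (𝓝 0) →
      ∃ c : ℝ, ∀ n : ℕ, 1 ≤ n → f n = c * Real.log (n : ℝ) := by
  intro f hadd hlim
  have hf : Pool.Agent.helper76.IsAdd f := hadd
  have hd : Pool.Agent.helper76.SmallDesc f := by
    intro ε hε
    have h1 := (tendsto_order.mp hlim).2 ε hε
    rw [eventually_atTop] at h1
    obtain ⟨N₀, hN₀⟩ := h1
    refine ⟨N₀ + 1, fun N hN => ?_⟩
    have h2 := hN₀ N (by omega)
    have hNpos : (0:ℝ) < N := by
      have : 0 < N := by omega
      exact_mod_cast this
    rw [div_lt_iff₀ hNpos] at h2
    exact h2.le
  have hlog2 : 0 < Real.log 2 := Real.log_pos (by norm_num)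
  refine ⟨f 2 / Real.log 2, fun n hn => ?_⟩
  rcases Nat.lt_or_ge n 2 with h | h
  · have : n = 1 := by omega
    subst this
    rw [hf.one]; simp
  · have := Pool.Agent.helper76.final f hf hd n 2 h le_rfl
    push_cast at this
    field_simp
    linarith

end Pool.Agent.S19027
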